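import Pool.Agent.Lib.MP_4a7d3d_co.FB.EIneq

/-!
# FB-AddIneq (0.5 h): Lemma (Add).
Proof. `m >= 1`, so write `m = t n' + x` with `n' >= s`, `n' >= n`, `0 <= x <= D n'` (take `n'` maximal with `t n' <= m`; then `n' >= n`
and `n' >= s` because `t s = 1 <= m`). `a <= D n <= D n'`.
If `x + a <= D n'`: `F(m+a) = F(t n') + h(x+a) <= F(t n') + h x + h a` by `E_ineq` for `s-1, q-1` with block end
`D q s n' = t (q-1) (s-1) (n' - n'/q)`. If `x + a > D n'`: `m + a = t(n'+1) + (x + a - D n')`,
`x + a - D n' <= a <= D (n'+1)`, `F(m+a) = F(t n') + h(D n') + h(x+a-D n') <= F(t n') + h x + h a`.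
-/

set_option autoImplicit false

namespace FlagB

open Finset Polynomial

private theorem exists_block (s q n m : ℕ) (hs : 1 ≤ s) (hsq : s ≤ q) (hm : 1 ≤ m)
    (hn : t q s n ≤ m) : ∃ n' x, s ≤ n' ∧ n ≤ n' ∧ m = t q s n' + x ∧ x ≤ D q s n' := by
  classical
  have hex : ∃ k, m < t q s (max n s + k) := by
    refine ⟨m, ?_⟩
    have h1 := t_ge q s m hs hsq
    have h2 := t_mono q s (show s + m ≤ max n s + m by omega)
    omega
  have hk := Nat.find_spec hex
  have hk0 : Nat.find hex ≠ 0 := by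
    intro h0
    rw [h0, add_zero] at hk
    rcases Nat.lt_or_ge n s with h | h
    · rw [max_eq_right h.le, t_self q s hsq] at hk
      omega
    · rw [max_eq_left h] at hk
      omega
  obtain ⟨k, hkk⟩ : ∃ k, Nat.find hex = k + 1 := ⟨Nat.find hex - 1, by omega⟩
  have hmin := Nat.find_min hex (show k < Nat.find hex by omega)
  rw [hkk] at hk
  refine ⟨max n s + k, m - t q s (max n s + k), by omega, by omega, by omega, ?_⟩
  have h3 := t_add_D q s (max n s + k) hs (by omega)
  rw [← add_assoc] at hk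
  omega

theorem F_add (ε s q n m a : ℕ) (hs : 1 ≤ s) (hsq : s ≤ q) (hm : 1 ≤ m) (hn : t q s n ≤ m)
    (ha : a ≤ D q s n) : F ε s q (m + a) ≤ F ε s q m + F ε (s - 1) (q - 1) a := by
  obtain ⟨n', x, hsn, hnn, rfl, hx⟩ := exists_block s q n m hs hsq hm hn
  have haD : a ≤ D q s n' := ha.trans (D_mono q s hnn)
  have hE := E_ineq ε (s - 1) (q - 1) (n' - n' / q) x a (by omega) hx haD
  change F ε (s - 1) (q - 1) (min (x + a) (D q s n')) + F ε (s - 1) (q - 1) (x + a - D q s n') ≤ _
    at hE
  rw [F_block ε s q n' x hs hsq hsn hx]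
  rcases Nat.lt_or_ge (D q s n') (x + a) with h | h
  · rw [min_eq_right h.le] at hE
    have h1 : t q s n' + x + a = t q s (n' + 1) + (x + a - D q s n') := by
      rw [t_add_D q s n' hs (by omega)]
      omega
    have h2 : x + a - D q s n' ≤ D q s (n' + 1) := by
      have := D_mono q s (show n' ≤ n' + 1 by omega)
      omega
    rw [h1, F_block ε s q (n' + 1) _ hs hsq (by omega) h2, t_add_D q s n' hs (by omega),
      F_block ε s q n' _ hs hsq hsn le_rfl]
    omega
  · rw [min_eq_left h] at hE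
    rw [add_assoc, F_block ε s q n' (x + a) hs hsq hsn h]
    omega

end FlagB
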