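import Pool.Agent.Lib.MP_4a7d3d_co.FB.Shad

/-!
# FB-Base (0.8 h): the sets all of whose facets are in `𝒜`.
`mem_baseOf`: for `s >= 1` an element of `A` lies in another facet, so `A ⊆ 𝒜.sup id`.
`ini_baseOf`: if `B < A` (both rainbow of size `s+1`) then every facet `B.erase z` is `<=` `B.erase (min B) <= A.erase (min A)`
(`Finset.Colex.erase_le_erase_min'`), hence in `𝒜`.
`adm_iff`: let `ℬ` be the initial family of size `b` (if `s+1 <= C.card`; otherwise both sides mean `b = 0`, as `BaseOf = ∅`). `Adm` says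
`(shadow ℬ).card <= 𝒜.card`, i.e. `shadow ℬ ⊆ 𝒜` (`ini_shadow`, `Ini.subset_of_card_le`), i.e. `ℬ ⊆ BaseOf`, i.e. `b <= BaseOf.card`
(`Ini.total`).
-/

set_option autoImplicit false

namespace FlagB

open Finset Polynomial

private theorem rb_erase' {Q : ℕ} {C : Finset ℕ} {s : ℕ} {A : Finset ℕ} (hA : Rb Q C (s + 1) A) {z : ℕ}
    (hz : z ∈ A) : Rb Q C s (A.erase z) := by
  refine ⟨?_, fun v hv => hA.2.1 v (Finset.mem_of_mem_erase hv), fun u hu v hv h =>
    hA.2.2 u (Finset.mem_of_mem_erase hu) v (Finset.mem_of_mem_erase hv) h⟩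
  rw [Finset.card_erase_of_mem hz, hA.1]
  rfl

private theorem rb_card_le' {Q : ℕ} {C : Finset ℕ} {s : ℕ} {A : Finset ℕ} (hA : Rb Q C s A) : s ≤ C.card := by
  rw [← hA.1]
  refine Finset.card_le_card_of_injOn (fun v => v % Q) (fun v hv => hA.2.1 v hv) ?_
  intro u hu v hv h
  exact hA.2.2 u hu v hv h

theorem mem_baseOf {Q : ℕ} {C : Finset ℕ} {s : ℕ} (hs : 1 ≤ s) {𝒜 : Finset (Finset ℕ)}
    {A : Finset ℕ} :
    A ∈ BaseOf Q C (s + 1) 𝒜 ↔ Rb Q C (s + 1) A ∧ ∀ z ∈ A, A.erase z ∈ 𝒜 := by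
  classical
  unfold BaseOf
  rw [Finset.mem_filter]
  refine ⟨fun h => h.2, fun h => ⟨?_, h⟩⟩
  rw [Finset.mem_powersetCard]
  refine ⟨fun x hx => ?_, h.1.1⟩
  have hcard : 1 < A.card := by
    rw [h.1.1]
    omega
  obtain ⟨z, hz, hzx⟩ := Finset.exists_mem_ne hcard x
  rw [Finset.mem_sup]
  exact ⟨A.erase z, h.2 z hz, Finset.mem_erase.2 ⟨hzx.symm, hx⟩⟩

theorem mem_baseOf_of_min {Q : ℕ} {C : Finset ℕ} {s : ℕ} (hs : 1 ≤ s) {𝒜 : Finset (Finset ℕ)}
    (h : Ini Q C s 𝒜) {A : Finset ℕ} (hA : Rb Q C (s + 1) A) (hne : A.Nonempty)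
    (hmin : A.erase (A.min' hne) ∈ 𝒜) : A ∈ BaseOf Q C (s + 1) 𝒜 := by
  refine (mem_baseOf hs).2 ⟨hA, fun z hz => ?_⟩
  have hle := Finset.Colex.erase_le_erase_min' (le_refl (toColex A)) le_rfl hz
  rcases hle.lt_or_eq with hlt | heq
  · exact h.2 _ hmin _ (rb_erase' hA hz) hlt
  · have : A.erase z = A.erase (A.min' hne) := by simpa using heq
    rw [this]
    exact hmin

theorem ini_baseOf {Q : ℕ} {C : Finset ℕ} {s : ℕ} (hs : 1 ≤ s) {𝒜 : Finset (Finset ℕ)}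
    (h : Ini Q C s 𝒜) : Ini Q C (s + 1) (BaseOf Q C (s + 1) 𝒜) := by
  refine ⟨fun A hA => ((mem_baseOf hs).1 hA).1, fun A hA B hB hlt => ?_⟩
  obtain ⟨hrA, hA2⟩ := (mem_baseOf hs).1 hA
  refine (mem_baseOf hs).2 ⟨hB, fun z hz => ?_⟩
  have hcard : B.card ≤ A.card := by rw [hB.1, hrA.1]
  have hneA : A.Nonempty := Finset.card_pos.1 (by rw [hrA.1]; omega)
  have hle := Finset.Colex.erase_le_erase_min' hlt.le hcard hz
  have hmin : A.erase (A.min' hneA) ∈ 𝒜 := hA2 _ (Finset.min'_mem _ _)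
  rcases hle.lt_or_eq with hlt | heq
  · exact h.2 _ hmin _ (rb_erase' hB hz) hlt
  · have : B.erase z = A.erase (A.min' hneA) := by simpa using heq
    rw [this]
    exact hmin

theorem adm_iff_baseOf {Q : ℕ} {C : Finset ℕ} (hC : C ⊆ range Q) {s : ℕ} (hs : 1 ≤ s)
    {𝒜 : Finset (Finset ℕ)} (h : Ini Q C s 𝒜) (b : ℕ) :
    Adm C.card (s + 1) b 𝒜.card ↔ b ≤ (BaseOf Q C (s + 1) 𝒜).card := by
  rcases Nat.lt_or_ge C.card (s + 1) with hlt | hge
  · have hB : BaseOf Q C (s + 1) 𝒜 = ∅ := by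
      refine Finset.eq_empty_of_forall_notMem (fun A hA => ?_)
      have := rb_card_le' ((mem_baseOf hs).1 hA).1
      omega
    rw [hB, Finset.card_empty]
    constructor
    · rintro (h1 | ⟨h1, -⟩)
      · omega
      · omega
    · intro h1
      exact Or.inl (by omega)
  · obtain ⟨ℬ, hℬ, hcard⟩ := ini_exists Q C hC (s + 1) (by omega) hge b
    have hF : (shadow ℬ).card = F 1 (s + 1) C.card b := by
      rw [card_shadow_F hC hℬ hge, hcard]
    constructor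
    · rintro (h1 | ⟨-, h1⟩)
      · omega
      · rw [← hF] at h1
        have hsub := (ini_shadow hC hℬ).subset_of_card_le h h1
        rw [← hcard]
        refine Finset.card_le_card (fun A hA => (mem_baseOf hs).2 ⟨hℬ.1 A hA, fun z hz => hsub ?_⟩)
        exact Finset.mem_shadow_iff.2 ⟨A, hA, z, hz, rfl⟩
    · intro h1
      rw [← hcard] at h1
      have hsub := hℬ.subset_of_card_le (ini_baseOf hs h) h1
      refine Or.inr ⟨hge, ?_⟩
      rw [← hF]
      refine Finset.card_le_card (fun B hB => ?_)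
      obtain ⟨A, hA, z, hz, rfl⟩ := Finset.mem_shadow_iff.1 hB
      exact ((mem_baseOf hs).1 (hsub hA)).2 z hz

end FlagB
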