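import Pool.Agent.Lib.MP_4a7d3d_co.FB.Base

/-!
# FB-BaseSl (1.0 h): slices of `𝒜` and of `BaseOf 𝒜` along the smallest colour `c` of `C`. All sets rainbow; `𝒜` initial, `s >= 1`.
`lk_anti`: `G ∈ lk (y+Q) 𝒜` implies `G ∈ lk y 𝒜` (replace `y+Q` by `y`: smaller, same colour).
`adm_lk_base`: for `G ∈ lk y (BaseOf 𝒜)`, `z ∈ G`: `insert y (G.erase z) = (insert y G).erase z ∈ 𝒜`; so
`shadow (lk y Base) ⊆ lk y 𝒜`; use `ini_lk`, `card_shadow_F` for `C.erase c`.
`card_lk_base_first`: `lk c (BaseOf 𝒜) = avc Q c 𝒜`: `⊆`: the facet `G` of `insert c G`. `⊇`: `G ∈ 𝒜` avoiding colour `c`; facets of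
`insert c G` are `G` and `insert c (G.erase z)` which is smaller than `G` because `c < z` (`c = min C`, `z % Q > c`).
`adm_avc_base`: `shadow (avc Base) ⊆ avc 𝒜`. `adm_avc_lk`: `shadow (avc 𝒜) ⊆ lk c 𝒜` (replace `z` by `c < z`).
-/

set_option autoImplicit false

namespace FlagB

open Finset Polynomial

private theorem baseSl_lt {G : Finset ℕ} {a b : ℕ} (ha : a ∉ G) (hb : b ∉ G) (hab : a < b) :
    toColex (insert a G) < toColex (insert b G) := by
  rw [Colex.toColex_lt_toColex]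
  constructor
  · intro h
    have h1 : a ∈ insert b G := by rw [← h]; exact mem_insert_self a G
    rcases mem_insert.1 h1 with h2 | h2
    · omega
    · exact ha h2
  · intro x hx hx'
    rcases mem_insert.1 hx with h2 | h2
    · refine ⟨b, mem_insert_self b G, ?_, by omega⟩
      intro h3
      rcases mem_insert.1 h3 with h4 | h4
      · omega
      · exact hb h4
    · exact absurd (mem_insert_of_mem h2) hx'

private theorem baseSl_rb {Q : ℕ} {C : Finset ℕ} {s : ℕ} {G : Finset ℕ} {a b : ℕ}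
    (h : Rb Q C s (insert b G)) (hb : b ∉ G) (ha : a ∉ G) (haC : a % Q ∈ C)
    (hG : ∀ v ∈ G, v % Q ≠ a % Q) : Rb Q C s (insert a G) := by
  obtain ⟨h1, h2, h3⟩ := h
  refine ⟨?_, ?_, ?_⟩
  · rw [← h1, card_insert_of_notMem ha, card_insert_of_notMem hb]
  · intro v hv
    rcases mem_insert.1 hv with rfl | hv
    · exact haC
    · exact h2 v (mem_insert_of_mem hv)
  · intro u hu v hv huv
    rcases mem_insert.1 hu with hua | hu'
    · rcases mem_insert.1 hv with hva | hv'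
      · rw [hua, hva]
      · exact absurd (by rw [← huv, hua]) (hG v hv')
    · rcases mem_insert.1 hv with hva | hv'
      · exact absurd (by rw [huv, hva]) (hG u hu')
      · exact h3 u (mem_insert_of_mem hu') v (mem_insert_of_mem hv') huv

private theorem baseSl_replace {Q : ℕ} {C : Finset ℕ} {s : ℕ} {𝒜 : Finset (Finset ℕ)}
    (h : Ini Q C s 𝒜) {G : Finset ℕ} {a b : ℕ} (hG : insert b G ∈ 𝒜) (hb : b ∉ G) (hab : a < b)
    (haC : a % Q ∈ C) (hav : ∀ v ∈ G, v % Q ≠ a % Q) : insert a G ∈ 𝒜 := by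
  have ha : a ∉ G := fun h1 => hav a h1 rfl
  exact h.2 _ hG _ (baseSl_rb (h.1 _ hG) hb ha haC hav) (baseSl_lt ha hb hab)

private theorem baseSl_card_le {Q : ℕ} {C : Finset ℕ} {s : ℕ} {A : Finset ℕ} (h : Rb Q C s A) :
    s ≤ C.card := by
  rw [← h.1]
  refine card_le_card_of_injOn (fun v => v % Q) (fun v hv => h.2.1 v hv) ?_
  intro u hu v hv huv
  exact h.2.2 u hu v hv huv

private theorem baseSl_adm {Q : ℕ} {C : Finset ℕ} (hC : C ⊆ range Q) {s : ℕ} (hs : 1 ≤ s)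
    {L ℬ : Finset (Finset ℕ)} (h : Ini Q C s L) (hsub : ∀ G ∈ L, ∀ z ∈ G, G.erase z ∈ ℬ) :
    Adm C.card s L.card ℬ.card := by
  obtain ⟨s', rfl⟩ : ∃ s', s = s' + 1 := ⟨s - 1, by omega⟩
  rcases Finset.eq_empty_or_nonempty L with rfl | ⟨G, hG⟩
  · exact Or.inl rfl
  · right
    have hle := baseSl_card_le (h.1 G hG)
    refine ⟨hle, ?_⟩
    rw [← card_shadow_F hC h hle]
    refine card_le_card ?_
    intro B hB
    rw [mem_shadow_iff] at hB
    obtain ⟨A, hA, z, hz, rfl⟩ := hB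
    exact hsub A hA z hz

theorem lk_anti {Q : ℕ} {C : Finset ℕ} {s : ℕ} {𝒜 : Finset (Finset ℕ)} (h : Ini Q C s 𝒜) (y : ℕ) :
    (lk (y + Q) 𝒜).card ≤ (lk y 𝒜).card := by
  rcases Nat.eq_zero_or_pos Q with rfl | hQ
  · exact le_rfl
  · refine card_le_card ?_
    intro G hG
    rw [mem_lk] at hG ⊢
    obtain ⟨h1, h2⟩ := hG
    have hr := h.1 _ h2
    have hmod : (y + Q) % Q = y % Q := Nat.add_mod_right y Q
    have hav : ∀ v ∈ G, v % Q ≠ y % Q := by
      intro v hv hvy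
      have := hr.2.2 v (mem_insert_of_mem hv) (y + Q) (mem_insert_self _ _) (by rw [hvy, hmod])
      exact h1 (this ▸ hv)
    refine ⟨fun h3 => hav y h3 rfl, ?_⟩
    refine baseSl_replace h h2 h1 (by omega) ?_ hav
    rw [← hmod]
    exact hr.2.1 _ (mem_insert_self _ _)

theorem adm_lk_base {Q : ℕ} {C : Finset ℕ} (hC : C ⊆ range Q) {s : ℕ} (hs : 1 ≤ s)
    {𝒜 : Finset (Finset ℕ)} (h : Ini Q C s 𝒜) (y : ℕ) (hy : y % Q ∈ C) :
    Adm (C.card - 1) s (lk y (BaseOf Q C (s + 1) 𝒜)).card (lk y 𝒜).card := by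
  rw [← card_erase_of_mem hy]
  refine baseSl_adm ((erase_subset _ _).trans hC) hs (ini_lk (ini_baseOf hs h) y hy) ?_
  intro G hG z hz
  rw [mem_lk] at hG ⊢
  obtain ⟨h1, h2⟩ := hG
  have hyz : z ≠ y := fun h3 => h1 (h3 ▸ hz)
  refine ⟨fun h3 => h1 (mem_of_mem_erase h3), ?_⟩
  have h3 := ((mem_baseOf hs).1 h2).2 z (mem_insert_of_mem hz)
  rwa [erase_insert_of_ne hyz.symm] at h3

private theorem baseSl_down {Q : ℕ} {C : Finset ℕ} (hC : C ⊆ range Q) {s : ℕ}
    {𝒜 : Finset (Finset ℕ)} (h : Ini Q C s 𝒜) {c : ℕ} (hc : c ∈ C) (hmin : ∀ c' ∈ C, c ≤ c')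
    {G : Finset ℕ} (hG : G ∈ 𝒜) (hav : ∀ v ∈ G, v % Q ≠ c) {z : ℕ} (hz : z ∈ G) :
    insert c (G.erase z) ∈ 𝒜 := by
  have hcQ : c % Q = c := Nat.mod_eq_of_lt (mem_range.1 (hC hc))
  have hr := h.1 G hG
  have hcz : c < z := by
    have h1 := hmin _ (hr.2.1 z hz)
    have h2 : z % Q ≤ z := Nat.mod_le z Q
    have h3 : z % Q ≠ c := hav z hz
    omega
  refine baseSl_replace h (b := z) ?_ (notMem_erase z G) hcz (by rw [hcQ]; exact hc) ?_
  · rw [insert_erase hz]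
    exact hG
  · intro v hv
    rw [hcQ]
    exact hav v (mem_of_mem_erase hv)

theorem card_lk_base_first {Q : ℕ} {C : Finset ℕ} (hC : C ⊆ range Q) {s : ℕ} (hs : 1 ≤ s)
    {𝒜 : Finset (Finset ℕ)} (h : Ini Q C s 𝒜) {c : ℕ} (hc : c ∈ C) (hmin : ∀ c' ∈ C, c ≤ c') :
    (lk c (BaseOf Q C (s + 1) 𝒜)).card = (avc Q c 𝒜).card := by
  have hcQ : c % Q = c := Nat.mod_eq_of_lt (mem_range.1 (hC hc))
  congr 1
  ext G
  rw [mem_lk, mem_baseOf hs]
  unfold avc
  rw [mem_filter]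
  constructor
  · rintro ⟨h1, h2, h3⟩
    constructor
    · have h4 := h3 c (mem_insert_self _ _)
      rwa [erase_insert h1] at h4
    · intro v hv hvc
      have := h2.2.2 v (mem_insert_of_mem hv) c (mem_insert_self _ _) (by rw [hvc, hcQ])
      exact h1 (this ▸ hv)
  · rintro ⟨h1, h2⟩
    have hr := h.1 G h1
    have hcG : c ∉ G := fun h3 => h2 c h3 hcQ
    refine ⟨hcG, ⟨?_, ?_, ?_⟩, ?_⟩
    · rw [card_insert_of_notMem hcG, hr.1]
    · intro v hv
      rcases mem_insert.1 hv with rfl | hv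
      · rw [hcQ]; exact hc
      · exact hr.2.1 v hv
    · intro u hu v hv huv
      rcases mem_insert.1 hu with hua | hu'
      · rcases mem_insert.1 hv with hva | hv'
        · rw [hua, hva]
        · exact absurd (by rw [← huv, hua, hcQ]) (h2 v hv')
      · rcases mem_insert.1 hv with hva | hv'
        · exact absurd (by rw [huv, hva, hcQ]) (h2 u hu')
        · exact hr.2.2 u hu' v hv' huv
    · intro z hz
      by_cases hzc : z = c
      · rw [hzc, erase_insert hcG]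
        exact h1
      · have hzG : z ∈ G := by
          rcases mem_insert.1 hz with h3 | h3
          · exact absurd h3 hzc
          · exact h3
        rw [erase_insert_of_ne (Ne.symm hzc)]
        exact baseSl_down hC h hc hmin h1 h2 hzG

theorem adm_avc_base {Q : ℕ} {C : Finset ℕ} (hC : C ⊆ range Q) {s : ℕ} (hs : 1 ≤ s)
    {𝒜 : Finset (Finset ℕ)} (h : Ini Q C s 𝒜) {c : ℕ} (hc : c ∈ C) :
    Adm (C.card - 1) (s + 1) (avc Q c (BaseOf Q C (s + 1) 𝒜)).card (avc Q c 𝒜).card := by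
  rw [← card_erase_of_mem hc]
  refine baseSl_adm ((erase_subset _ _).trans hC) (by omega) (ini_avc (ini_baseOf hs h) c) ?_
  intro G hG z hz
  unfold avc at hG ⊢
  rw [mem_filter] at hG ⊢
  exact ⟨((mem_baseOf hs).1 hG.1).2 z hz, fun v hv => hG.2 v (mem_of_mem_erase hv)⟩

theorem adm_avc_lk {Q : ℕ} {C : Finset ℕ} (hC : C ⊆ range Q) {s : ℕ} (hs : 1 ≤ s)
    {𝒜 : Finset (Finset ℕ)} (h : Ini Q C s 𝒜) {c : ℕ} (hc : c ∈ C) (hmin : ∀ c' ∈ C, c ≤ c') :
    Adm (C.card - 1) s (avc Q c 𝒜).card (lk c 𝒜).card := by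
  have hcQ : c % Q = c := Nat.mod_eq_of_lt (mem_range.1 (hC hc))
  rw [← card_erase_of_mem hc]
  refine baseSl_adm ((erase_subset _ _).trans hC) hs (ini_avc h c) ?_
  intro G hG z hz
  unfold avc at hG
  rw [mem_filter] at hG
  rw [mem_lk]
  exact ⟨fun h3 => hG.2 c (mem_of_mem_erase h3) hcQ, baseSl_down hC h hc hmin hG.1 hG.2 hz⟩

end FlagB
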