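import Pool.Agent.Lib.MP_4a7d3d_co.FB.Defs

/-!
# FB-BdBasic: the boundary operator and insertion.
`bd_ins_add`: for `v ∉ A`: `ins v A = ε(v,A) (A ∪ v)`; `bd (A ∪ v) = sg v A • A + ∑_{u ∈ A} sg u (A ∪ v) ((A ∪ v).erase u)`, and
`ins v (A.erase u) = sg v (A.erase u) (insert v (A.erase u))`; signs: `sg v A * sg u (A ∪ v) = - sg u A * sg v (A.erase u)` (cases `u < v`,
`v < u`), `sg v A * sg v A = 1`. For `v ∈ A`: `ins v A = 0` and in `ins v (bd A)` only the term `u = v` survives, giving `A`.
`bd_bd`: from `bd_ins_add` by induction on `A` : `A = ± ins v (A.erase v)`, `bd (ins v x) = x - ins v (bd x)`,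
`bd (bd (ins v x)) = bd x - (bd x - ins v (bd (bd x))) = ins v (bd (bd x)) = 0`.
-/

set_option autoImplicit false

namespace FlagB

open Finset Polynomial

variable (k : Type*) [Field k] {V : Type*} [LinearOrder V]

theorem bd_single (A : Finset V) :
    bd k (Finsupp.single A 1) = ∑ v ∈ A, Finsupp.single (A.erase v) (sg k v A) := by
  unfold bd
  rw [Finsupp.linearCombination_single, one_smul]

theorem ins_single_of_mem {v : V} {A : Finset V} (h : v ∈ A) :
    ins k v (Finsupp.single A 1) = 0 := by
  unfold ins
  rw [Finsupp.linearCombination_single, one_smul, if_pos h]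

theorem ins_single_of_notMem {v : V} {A : Finset V} (h : v ∉ A) :
    ins k v (Finsupp.single A 1) = Finsupp.single (insert v A) (sg k v A) := by
  unfold ins
  rw [Finsupp.linearCombination_single, one_smul, if_neg h]

theorem sg_ne_zero (v : V) (A : Finset V) : sg k v A ≠ 0 := by
  unfold sg
  exact pow_ne_zero _ (neg_ne_zero.2 one_ne_zero)

theorem sg_mul_self (v : V) (A : Finset V) : sg k v A * sg k v A = 1 := by
  unfold sg
  rw [← mul_pow]
  simp

theorem sg_insert_self (v : V) (A : Finset V) : sg k v (insert v A) = sg k v A := by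
  unfold sg
  rw [Finset.filter_insert, if_neg (lt_irrefl v)]

theorem sg_erase_self (v : V) (A : Finset V) : sg k v (A.erase v) = sg k v A := by
  unfold sg
  congr 2
  ext u
  simp only [mem_filter, mem_erase]
  constructor
  · rintro ⟨⟨_, h1⟩, h2⟩; exact ⟨h1, h2⟩
  · rintro ⟨h1, h2⟩; exact ⟨⟨h2.ne, h1⟩, h2⟩

theorem sg_insert_of_not_lt {u v : V} (A : Finset V) (h : ¬ v < u) :
    sg k u (insert v A) = sg k u A := by
  unfold sg
  rw [Finset.filter_insert, if_neg h]

theorem sg_insert_of_lt {u v : V} {A : Finset V} (hv : v ∉ A) (h : v < u) :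
    sg k u (insert v A) = - sg k u A := by
  unfold sg
  rw [Finset.filter_insert, if_pos h, Finset.card_insert_of_notMem, pow_succ]
  · ring
  · intro h'
    exact hv (mem_filter.1 h').1

theorem sg_erase_of_not_lt {u v : V} (A : Finset V) (h : ¬ u < v) :
    sg k v (A.erase u) = sg k v A := by
  unfold sg
  congr 2
  ext x
  simp only [mem_filter, mem_erase]
  constructor
  · rintro ⟨⟨_, h1⟩, h2⟩; exact ⟨h1, h2⟩
  · rintro ⟨h1, h2⟩
    refine ⟨⟨?_, h1⟩, h2⟩
    rintro rfl
    exact h h2

theorem sg_erase_of_lt {u v : V} {A : Finset V} (hu : u ∈ A) (h : u < v) :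
    sg k v (A.erase u) = - sg k v A := by
  have h1 : sg k v (insert u (A.erase u)) = - sg k v (A.erase u) :=
    sg_insert_of_lt k (Finset.notMem_erase u A) h
  rw [Finset.insert_erase hu] at h1
  rw [h1, neg_neg]

theorem single_eq_smul (A : Finset V) (c : k) :
    (Finsupp.single A c : Finset V →₀ k) = c • Finsupp.single A 1 := by
  rw [Finsupp.smul_single, smul_eq_mul, mul_one]

/-- linear extension: two linear maps which agree on all sets are equal -/
theorem hom_eq_of_single {M : Type*} [AddCommGroup M] [Module k M]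
    {f g : (Finset V →₀ k) →ₗ[k] M}
    (h : ∀ A : Finset V, f (Finsupp.single A 1) = g (Finsupp.single A 1)) : f = g := by
  refine Finsupp.lhom_ext fun A c => ?_
  rw [single_eq_smul, map_smul, map_smul, h A]

theorem bd_ins_add_single (v : V) (A : Finset V) :
    bd k (ins k v (Finsupp.single A 1)) + ins k v (bd k (Finsupp.single A 1)) =
      Finsupp.single A 1 := by
  by_cases hv : v ∈ A
  · rw [ins_single_of_mem k hv, map_zero, zero_add, bd_single, map_sum]
    rw [Finset.sum_eq_single v]
    · rw [single_eq_smul, map_smul, ins_single_of_notMem k (Finset.notMem_erase v A),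
        Finset.insert_erase hv, sg_erase_self, Finsupp.smul_single, smul_eq_mul, sg_mul_self]
    · intro u _ huv
      rw [single_eq_smul, map_smul, ins_single_of_mem k (Finset.mem_erase.2 ⟨huv.symm, hv⟩),
        smul_zero]
    · intro h; exact absurd hv h
  · rw [ins_single_of_notMem k hv, single_eq_smul, map_smul, bd_single, bd_single,
      Finset.sum_insert hv, map_sum, sg_insert_self, Finset.erase_insert hv, smul_add,
      Finsupp.smul_single, smul_eq_mul, sg_mul_self, add_assoc, Finset.smul_sum,
      ← Finset.sum_add_distrib, Finset.sum_eq_zero, add_zero]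
    intro u hu
    have huv : u ≠ v := by
      rintro rfl; exact hv hu
    have hv' : v ∉ A.erase u := fun h => hv (Finset.mem_of_mem_erase h)
    rw [single_eq_smul k (A.erase u), map_smul, ins_single_of_notMem k hv',
      Finset.erase_insert_of_ne huv.symm, Finsupp.smul_single, Finsupp.smul_single,
      smul_eq_mul, smul_eq_mul, ← Finsupp.single_add]
    have hs : sg k v A * sg k u (insert v A) + sg k u A * sg k v (A.erase u) = 0 := by
      rcases lt_or_gt_of_ne huv with h | h
      · rw [sg_insert_of_not_lt k A (not_lt.2 h.le), sg_erase_of_lt k hu h]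
        ring
      · rw [sg_insert_of_lt k hv h, sg_erase_of_not_lt k A (not_lt.2 h.le)]
        ring
    rw [hs, Finsupp.single_zero]

theorem bd_ins_add (v : V) (x : Finset V →₀ k) : bd k (ins k v x) + ins k v (bd k x) = x := by
  have h : (bd k (V := V)) ∘ₗ (ins k v) + (ins k v) ∘ₗ (bd k) = LinearMap.id :=
    hom_eq_of_single k fun A => bd_ins_add_single k v A
  exact LinearMap.congr_fun h x

theorem bd_ins (v : V) (x : Finset V →₀ k) : bd k (ins k v x) = x - ins k v (bd k x) :=
  eq_sub_of_add_eq (bd_ins_add k v x)

/-- a set containing `v` is `±` an insertion -/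
theorem single_insert {v : V} {A : Finset V} (h : v ∉ A) :
    (Finsupp.single (insert v A) 1 : Finset V →₀ k) =
      sg k v A • ins k v (Finsupp.single A 1) := by
  rw [ins_single_of_notMem k h, Finsupp.smul_single, smul_eq_mul, sg_mul_self]

theorem bd_bd_single (A : Finset V) : bd k (bd k (Finsupp.single A 1)) = 0 := by
  induction A using Finset.induction_on with
  | empty => rw [bd_single, Finset.sum_empty, map_zero]
  | insert a s ha ih =>
    rw [single_insert k ha, map_smul, map_smul, bd_ins, map_sub, bd_ins, ih, map_zero, sub_zero,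
      sub_self, smul_zero]

theorem bd_bd (x : Finset V →₀ k) : bd k (bd k x) = 0 := by
  have h : (bd k (V := V)) ∘ₗ (bd k) = 0 :=
    hom_eq_of_single k fun A => bd_bd_single k A
  exact LinearMap.congr_fun h x

end FlagB
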