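import Pool.Agent.Lib.MP_4a7d3d_co.FB.Pos

/-!
# FB-Closed (0.5 h): the family `Γ_s = P s ∪ kap (P' (s-1))` is closed under facets.
Proof. `A ∈ P (s+1)`, `z ∈ A`: `A.erase z` is positive, in `P' s ⊆ P s` by (iv) with `H = A.erase z`. `A = kap G`, `G ∈ P' s`, `c = c0 G < ` all
elements of `G` (`c0_lt`): `A.erase c = G ∈ P s`. `z ∈ G`, `z % q > c`: `A.erase z = insert c (G.erase z) = kap (G.erase z)` (`kap_erase_gt`), `s >= 1`, and
`G.erase z ∈ P' (s-1)` by (iv) for `G ∈ P s`. `z % q < c`: `insert c (G.erase z)` is positive and `< G` (`insert_pos`), so in `P s`. Note `s < q` because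
`P' s ≠ ∅` needs `ρ (s+1) ≠ 0`; hypothesis `hP's`.
-/

set_option autoImplicit false

namespace FlagB

open Finset Polynomial

private theorem Closed_erase_rb {q s : ℕ} {A : Finset ℕ} (hA : Rb q (range q) (s + 1) A) {z : ℕ}
    (hz : z ∈ A) : Rb q (range q) s (A.erase z) := by
  refine ⟨?_, fun v hv => hA.2.1 v (Finset.mem_of_mem_erase hv), fun u hu v hv h =>
    hA.2.2 u (Finset.mem_of_mem_erase hu) v (Finset.mem_of_mem_erase hv) h⟩
  rw [Finset.card_erase_of_mem hz, hA.1]
  rfl

theorem closed_fam (q : ℕ) (P P' : ℕ → Finset (Finset ℕ))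
    (hP : ∀ s, ∀ A ∈ P s, Rb q (range q) s A ∧ mu q (range q) A = 0)
    (hPP : ∀ s, P' s ⊆ P s) (hP's : ∀ s, (P' s).Nonempty → s < q)
    (hini : ∀ s, ∀ A ∈ P s, ∀ H, Rb q (range q) s H → mu q (range q) H = 0 →
        toColex H ≤ toColex A → H ∈ P s)
    (hsh : ∀ s, ∀ A ∈ P (s + 1), ∀ z ∈ A, ∀ H, Rb q (range q) s H → mu q (range q) H = 0 →
        toColex H ≤ toColex (A.erase z) → H ∈ P' s)
    (s : ℕ) (A : Finset ℕ) (hA : A ∈ P (s + 1) ∪ (P' s).image (kap q (range q))) (z : ℕ)
    (hz : z ∈ A) :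
    (s = 0 ∧ A.erase z ∈ P 0) ∨ (∃ r, s = r + 1 ∧
      A.erase z ∈ P (r + 1) ∪ (P' r).image (kap q (range q))) := by
  have key : ∀ s, ∀ B ∈ P s, (s = 0 ∧ B ∈ P 0) ∨ (∃ r, s = r + 1 ∧
      B ∈ P (r + 1) ∪ (P' r).image (kap q (range q))) := by
    intro s B hB
    rcases s with _ | r
    · exact Or.inl ⟨rfl, hB⟩
    · exact Or.inr ⟨r, rfl, Finset.mem_union_left _ hB⟩
  have hself : ∀ s, ∀ A ∈ P (s + 1), ∀ z ∈ A, A.erase z ∈ P' s := by
    intro s A hA z hz
    exact hsh s A hA z hz _ (Closed_erase_rb (hP _ A hA).1 hz) (pos_erase (hP _ A hA).1 (hP _ A hA).2 z)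
      le_rfl
  rcases Finset.mem_union.1 hA with hA | hA
  · exact key s _ (hPP s (hself s A hA z hz))
  · obtain ⟨G, hG, rfl⟩ := Finset.mem_image.1 hA
    have hsq : s < q := hP's s ⟨G, hG⟩
    have hGP := hPP s hG
    obtain ⟨hGr, hGm⟩ := hP s G hGP
    have hlt := c0_lt hGr hGm hsq
    have hcard : s < (range q).card := by simpa using hsq
    have hmiss := c0_mem hGr hcard
    have hcG : c0 q (range q) G ∉ G := fun h => lt_irrefl _ (hlt _ h)
    unfold kap at hz ⊢
    rcases Finset.mem_insert.1 hz with hz | hz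
    · rw [hz, Finset.erase_insert hcG]
      exact key s _ hGP
    · have hzc : z ≠ c0 q (range q) G := fun h => hcG (h ▸ hz)
      have hne : z % q ≠ c0 q (range q) G := (Finset.mem_filter.1 hmiss).2 z hz
      have herase : (insert (c0 q (range q) G) G).erase z = insert (c0 q (range q) G) (G.erase z) := by
        rw [Finset.erase_insert_of_ne hzc.symm]
      rw [herase]
      rcases s with _ | r
      · have := Finset.card_eq_zero.1 hGr.1
        subst this
        simp at hz
      · rcases lt_or_gt_of_ne hne with h | h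
        · obtain ⟨h1, h2, h3⟩ := insert_pos hGr hGm hsq hz h
          exact key _ _ (hini _ G hGP _ h1 h2 h3.le)
        · right
          refine ⟨r, rfl, Finset.mem_union_right _ (Finset.mem_image.2 ⟨G.erase z, ?_, ?_⟩)⟩
          · exact hself r G hGP z hz
          · have := kap_erase_gt hGr hsq hz h
            exact this

end FlagB
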