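import Pool.Agent.Lib.MP_4a7d3d_co.FB.BdBasic

/-!
# FB-Lead: a lower bound for the rank by leading terms.
The vectors `bd (f H)`, `H ∈ ℋ`, are linearly independent: in `bd (f H)` the coefficient of `H` is `± 1` and all other sets in the support are
colex-smaller than `H`. Take a nontrivial relation and look at the coefficient of the colex-largest `H` occurring. Then
`ℋ.card = finrank (span ..) <= rk k 𝒜`.
-/

set_option autoImplicit false

namespace FlagB

open Finset Polynomial

theorem bd_coeff_zero (k : Type*) [Field k] {A B : Finset ℕ} (h : ∀ v ∈ A, A.erase v ≠ B) :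
    bd k (Finsupp.single A 1) B = 0 := by
  rw [bd_single, Finsupp.finsetSum_apply]
  refine Finset.sum_eq_zero fun v hv => ?_
  rw [Finsupp.single_apply, if_neg (h v hv)]

theorem bd_coeff_ne_zero (k : Type*) [Field k] {A B : Finset ℕ} (h : ∃ v ∈ A, A.erase v = B) :
    bd k (Finsupp.single A 1) B ≠ 0 := by
  obtain ⟨v, hv, rfl⟩ := h
  rw [bd_single, Finsupp.finsetSum_apply, Finset.sum_eq_single v]
  · rw [Finsupp.single_apply, if_pos rfl]
    exact sg_ne_zero k v A
  · intro u hu huv
    rw [Finsupp.single_apply, if_neg]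
    intro he
    apply huv
    by_contra hne
    have h1 : u ∈ A.erase v := Finset.mem_erase.2 ⟨huv, hu⟩
    rw [← he] at h1
    exact Finset.notMem_erase u A h1
  · intro h; exact absurd hv h

theorem rk_ge_of_lead (k : Type*) [Field k] (𝒜 ℋ : Finset (Finset ℕ))
    (f : Finset ℕ → Finset ℕ) (hf : ∀ H ∈ ℋ, f H ∈ 𝒜)
    (hlead : ∀ H ∈ ℋ, ∃ v ∈ f H, (f H).erase v = H)
    (hlow : ∀ H ∈ ℋ, ∀ v ∈ f H, (f H).erase v ≠ H → toColex ((f H).erase v) < toColex H) :
    ℋ.card ≤ rk k 𝒜 := by
  classical
  have hli : LinearIndependent k (fun H : ℋ => bd k (Finsupp.single (f (H : Finset ℕ)) 1)) := by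
    rw [linearIndependent_iff']
    intro s g hsum
    by_contra hcon
    push Not at hcon
    obtain ⟨i0, hi0, hg0⟩ := hcon
    have hne : (s.filter (fun i => g i ≠ 0)).Nonempty := ⟨i0, by simp [hi0, hg0]⟩
    obtain ⟨i, hi, hmax⟩ := Finset.exists_max_image (s.filter (fun i => g i ≠ 0))
      (fun H : ℋ => toColex (H : Finset ℕ)) hne
    rw [Finset.mem_filter] at hi
    have hev := DFunLike.congr_fun hsum (i : Finset ℕ)
    rw [Finsupp.finsetSum_apply, Finset.sum_eq_single i] at hev
    · rw [Finsupp.smul_apply, smul_eq_mul, Finsupp.zero_apply] at hev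
      rcases mul_eq_zero.1 hev with h | h
      · exact hi.2 h
      · exact bd_coeff_ne_zero k (hlead i i.2) h
    · intro j hj hji
      rw [Finsupp.smul_apply, smul_eq_mul]
      by_cases hgj : g j = 0
      · rw [hgj, zero_mul]
      · have hle := hmax j (by simp [hj, hgj])
        rw [bd_coeff_zero k, mul_zero]
        intro v hv he
        have hne2 : (f (j : Finset ℕ)).erase v ≠ (j : Finset ℕ) := by
          rw [he]
          intro h
          exact hji (Subtype.ext h.symm)
        have hlt := hlow j j.2 v hv hne2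
        rw [he] at hlt
        exact absurd hle (not_le.2 hlt)
    · intro h; exact absurd hi.1 h
  have hcard := finrank_span_eq_card (R := k) hli
  rw [Fintype.card_coe] at hcard
  rw [← hcard]
  unfold rk
  have : Module.Finite k (bdSpan k 𝒜) := by
    unfold bdSpan
    exact Module.Finite.span_of_finite k (𝒜.finite_toSet.image _)
  refine Submodule.finrank_mono ?_
  rw [Submodule.span_le]
  rintro _ ⟨H, rfl⟩
  exact Submodule.subset_span ⟨_, hf H H.2, rfl⟩

end FlagB
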