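import Pool.Agent.Lib.MP_4a7d3d_co.FB.Pos
import Pool.Agent.Lib.MP_4a7d3d_co.FB.Lead

/-!
# FB-RkLow (0.3 h): `rk (Γ_{s+1}) >= (P' s).card`.
Proof. `rk_ge_of_lead` with `ℋ = P' s`, `f = kap`: the facets of `kap G = insert c G` are `G` and `insert c (G.erase z)`, smaller than `G` since
`c < z` (`c0_lt`).
-/

set_option autoImplicit false

namespace FlagB

open Finset Polynomial

theorem rk_low (k : Type*) [Field k] (q s : ℕ) (hs : s < q) (P' 𝒜 : Finset (Finset ℕ))
    (hP : ∀ A ∈ P', Rb q (range q) s A ∧ mu q (range q) A = 0)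
    (h : ∀ A ∈ P', kap q (range q) A ∈ 𝒜) : P'.card ≤ rk k 𝒜 := by
  have hc : ∀ A ∈ P', c0 q (range q) A ∉ A := by
    intro A hA
    have := kap_rb (Q := q) (C := range q) (fun x hx => hx) (hP A hA).1
      (by simpa using hs)
    exact this.1
  refine rk_ge_of_lead k 𝒜 P' (kap q (range q)) h ?_ ?_
  · intro H hH
    refine ⟨c0 q (range q) H, ?_, ?_⟩
    · unfold kap
      exact Finset.mem_insert_self _ _
    · unfold kap
      exact Finset.erase_insert (hc H hH)
  · intro H hH v hv hne
    have hvc : v ≠ c0 q (range q) H := by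
      intro hvc
      apply hne
      rw [hvc]
      unfold kap
      exact Finset.erase_insert (hc H hH)
    have hvH : v ∈ H := by
      unfold kap at hv
      rcases Finset.mem_insert.mp hv with h1 | h1
      · exact absurd h1 hvc
      · exact h1
    have hlt : c0 q (range q) H < v := c0_lt (hP H hH).1 (hP H hH).2 hs v hvH
    rw [Finset.Colex.toColex_lt_toColex_iff_exists_forall_lt]
    refine ⟨v, hvH, Finset.notMem_erase _ _, ?_⟩
    intro b hb hbH
    have hb2 : b ∈ kap q (range q) H := Finset.mem_of_mem_erase hb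
    unfold kap at hb2
    rcases Finset.mem_insert.mp hb2 with h1 | h1
    · rw [h1]; exact hlt
    · exact absurd h1 hbH

end FlagB
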