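import Pool.Agent.Lib.MP_4a7d3d_co.FB.BdBasic

/-!
# FB-CrossP: cross-polytope cycles.
Claim: `bd X` is in the span of the `bd N`, where `N = (X \ T) ∪ v(T)`, `∅ ≠ T ⊆ X`.
Proof by induction on `X`, more precisely: there is `Y` in the span of the `single N` with `bd (single X) = bd Y`.
`X = {x}`: `Y = single {v x}`. Step `X = insert x X'`, `X' ≠ ∅`: `Z = single X' - Y'` is a cycle, `bd (ins x Z) = Z = bd (ins (v x) Z)` by `bd_ins_add`, so
`ins x (single X') = ± single X` and `bd (ins x (single X')) = bd (ins x Y') + bd (ins (v x) (single X')) - bd (ins (v x) Y')`.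
-/

set_option autoImplicit false

namespace FlagB

open Finset Polynomial

/-- the span of the singles of the sets `(X \ T) ∪ v(T)`, `T` nonempty. -/
noncomputable def crossW (k : Type*) [Field k] (X : Finset ℕ) (v : ℕ → ℕ) :
    Submodule k (Finset ℕ →₀ k) :=
  Submodule.span k {y | ∃ T : Finset ℕ, T ⊆ X ∧ T.Nonempty ∧
    y = Finsupp.single ((X \ T) ∪ T.image v) 1}

theorem crossW_ins (k : Type*) [Field k] {X : Finset ℕ} {x : ℕ} (hx : x ∉ X) (v : ℕ → ℕ)
    {Y : Finset ℕ →₀ k} (hY : Y ∈ crossW k X v) :
    ins k x Y ∈ crossW k (insert x X) v ∧ ins k (v x) Y ∈ crossW k (insert x X) v := by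
  have h1 : crossW k X v ≤ (crossW k (insert x X) v).comap (ins k x) := by
    unfold crossW
    rw [Submodule.span_le]
    rintro y ⟨T, hT, hne, rfl⟩
    rw [SetLike.mem_coe, Submodule.mem_comap]
    by_cases hm : x ∈ (X \ T) ∪ T.image v
    · rw [ins_single_of_mem k hm]; exact Submodule.zero_mem _
    · rw [ins_single_of_notMem k hm, single_eq_smul]
      refine Submodule.smul_mem _ _ (Submodule.subset_span ⟨T, ?_, hne, ?_⟩)
      · exact hT.trans (Finset.subset_insert _ _)
      · congr 1
        have hxT : x ∉ T := fun h => hx (hT h)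
        rw [Finset.insert_sdiff_of_notMem _ hxT, Finset.insert_union]
  have h2 : crossW k X v ≤ (crossW k (insert x X) v).comap (ins k (v x)) := by
    unfold crossW
    rw [Submodule.span_le]
    rintro y ⟨T, hT, hne, rfl⟩
    rw [SetLike.mem_coe, Submodule.mem_comap]
    by_cases hm : v x ∈ (X \ T) ∪ T.image v
    · rw [ins_single_of_mem k hm]; exact Submodule.zero_mem _
    · rw [ins_single_of_notMem k hm, single_eq_smul]
      refine Submodule.smul_mem _ _ (Submodule.subset_span ⟨insert x T, ?_, ?_, ?_⟩)
      · exact Finset.insert_subset_insert _ hT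
      · exact ⟨x, Finset.mem_insert_self _ _⟩
      · congr 1
        rw [Finset.image_insert, Finset.union_insert]
        congr 2
        ext u
        simp only [mem_sdiff, mem_insert, not_or]
        constructor
        · rintro ⟨a, b⟩
          refine ⟨Or.inr a, ?_, b⟩
          rintro rfl; exact hx a
        · rintro ⟨a, b, c⟩
          rcases a with rfl | a
          · exact absurd rfl b
          · exact ⟨a, c⟩
  exact ⟨h1 hY, h2 hY⟩

theorem cross_aux (k : Type*) [Field k] (v : ℕ → ℕ) (X : Finset ℕ) (hX : X.Nonempty) :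
    ∃ Y ∈ crossW k X v, bd k (Finsupp.single X 1) = bd k Y := by
  induction X using Finset.induction_on with
  | empty => exact absurd hX Finset.not_nonempty_empty
  | insert x s hx ih =>
    rcases s.eq_empty_or_nonempty with rfl | hs
    · refine ⟨Finsupp.single ({v x}) 1, Submodule.subset_span ⟨{x}, ?_, ?_, ?_⟩, ?_⟩
      · simp
      · exact Finset.singleton_nonempty x
      · simp
      · simp only [insert_empty_eq]
        rw [bd_single, bd_single]
        simp [sg, Finset.filter_singleton]
    · obtain ⟨Y', hY', hbd⟩ := ih hs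
      have hin := crossW_ins k hx v hY'
      have hvX : ins k (v x) (Finsupp.single s 1) ∈ crossW k (insert x s) v := by
        by_cases hm : v x ∈ s
        · rw [ins_single_of_mem k hm]; exact Submodule.zero_mem _
        · rw [ins_single_of_notMem k hm, single_eq_smul]
          refine Submodule.smul_mem _ _ (Submodule.subset_span ⟨{x}, ?_, ?_, ?_⟩)
          · simp
          · exact Finset.singleton_nonempty x
          · congr 1
            rw [Finset.image_singleton, Finset.sdiff_singleton_eq_erase, Finset.erase_insert hx,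
              Finset.union_comm, Finset.singleton_union]
      refine ⟨sg k x s • (ins k x Y' + (ins k (v x) (Finsupp.single s 1) - ins k (v x) Y')), ?_, ?_⟩
      · exact Submodule.smul_mem _ _ (Submodule.add_mem _ hin.1 (Submodule.sub_mem _ hvX hin.2))
      · rw [single_insert k hx, map_smul, map_smul, map_add, map_sub, bd_ins, bd_ins, bd_ins,
          bd_ins, hbd]
        congr 1
        abel

theorem cross (k : Type*) [Field k] (X : Finset ℕ) (hX : X.Nonempty) (v : ℕ → ℕ)
    (hinj : ∀ x ∈ X, ∀ y ∈ X, v x = v y → x = y) (hv : ∀ x ∈ X, v x ∉ X)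
    (𝒩 : Finset (Finset ℕ))
    (hN : ∀ T ⊆ X, T.Nonempty → (X \ T) ∪ T.image v ∈ 𝒩) :
    bd k (Finsupp.single X 1) ∈ bdSpan k 𝒩 := by
  obtain ⟨Y, hY, hbd⟩ := cross_aux k v X hX
  rw [hbd]
  have h : crossW k X v ≤ (bdSpan k 𝒩).comap (bd k) := by
    unfold crossW
    rw [Submodule.span_le]
    rintro y ⟨T, hT, hne, rfl⟩
    rw [SetLike.mem_coe, Submodule.mem_comap]
    exact Submodule.subset_span ⟨_, hN T hT hne, rfl⟩
  exact h hY

end FlagB
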