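import Pool.Agent.Lib.MP_4a7d3d_co.FB.Pos
import Pool.Agent.Lib.MP_4a7d3d_co.FB.CrossP

/-!
# FB-RkUp (1.0 h): `bd A ∈ bdSpan (kap (P' s))` for `A ∈ P (s+1)`, hence `rk (Γ_{s+1}) <= (P' s).card`.
Proof of `bd_mem_low` by strong induction on `A` (colex order is well-founded on finite subsets of `ℕ`).
Case `s + 1 < q`: `c = c0 A` exists, `c ∉ A`, `c < z` for all `z ∈ A` (`c0_lt`). `bd A = bd (ins c (bd A))` (`bd_ins_add`, `bd_bd`), and `ins c (bd A)` is a
combination of the sets `insert c (A.erase z)`, `z ∈ A`. If `z % q > c` this is `kap (A.erase z)`, `A.erase z ∈ P' s`. If `z % q < c` it is a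
positive set smaller than `A` (`insert_pos`), in `P (s+1)`, use the induction hypothesis.
Case `s + 1 = q`: `A` has all colours and no element `< q` (`mu = 0`: the smallest element `< q`... every vertex `< q` in `A` is marked). Use `cross` with
`v x = x % q`, `X = A`: the sets `N = (A \ T) ∪ T.image v`, `T ≠ ∅`, have all colours and an element `< q`. By `neg_eq_kap` `N = kap H`, `H = N.erase c`,
`c = ` smallest marked vertex `= ` smallest element of `N` below `q`; `c = x % q` for some `x ∈ T` and `H` arises from `A.erase x` by replacing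
elements by smaller ones of the same colour, so `H <= A.erase x` in colex, hence `H ∈ P' s` by (iv).
-/

set_option autoImplicit false

namespace FlagB

open Finset Polynomial

private theorem RkUp_rb_erase {q s : ℕ} {A : Finset ℕ} (hA : Rb q (range q) (s + 1) A) {z : ℕ}
    (hz : z ∈ A) : Rb q (range q) s (A.erase z) := by
  refine ⟨?_, fun v hv => hA.2.1 v (mem_of_mem_erase hv),
    fun u hu v hv => hA.2.2 u (mem_of_mem_erase hu) v (mem_of_mem_erase hv)⟩
  rw [card_erase_of_mem hz, hA.1]
  rfl

/-- a rainbow set of `q` vertices has all the colours -/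
private theorem RkUp_all {q : ℕ} {A : Finset ℕ} (hA : Rb q (range q) q A) :
    ∀ c ∈ range q, ∃ v ∈ A, v % q = c := by
  have h1 : A.image (fun v => v % q) = range q := by
    refine eq_of_subset_of_card_le ?_ ?_
    · intro c hc
      obtain ⟨v, hv, rfl⟩ := mem_image.mp hc
      exact hA.2.1 v hv
    · rw [card_image_of_injOn (fun u hu v hv h => hA.2.2 u hu v hv h), hA.1, card_range]
  intro c hc
  rw [← h1] at hc
  obtain ⟨v, hv, h⟩ := mem_image.mp hc
  exact ⟨v, hv, h⟩

private theorem RkUp_full {q : ℕ} {A : Finset ℕ} (hA : Rb q (range q) q A)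
    (hp : mu q (range q) A = 0) : ∀ z ∈ A, q ≤ z := by
  intro z hz
  by_contra hlt
  have hlt' : z < q := by omega
  have h1 : z ∈ mk q (range q) A := by
    unfold mk
    rw [mem_filter]
    exact ⟨mem_range.mpr hlt', hz, fun c' hc' _ => RkUp_all hA c' hc'⟩
  have h2 : 0 < (mk q (range q) A).card := card_pos.mpr ⟨z, h1⟩
  unfold mu at hp
  omega

private theorem RkUp_bd (k : Type*) [Field k] {A : Finset ℕ} {c : ℕ} (hc : c ∉ A)
    (W : Submodule k (Finset ℕ →₀ k))
    (hW : ∀ z ∈ A, bd k (Finsupp.single (insert c (A.erase z)) 1) ∈ W) :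
    bd k (Finsupp.single A 1) ∈ W := by
  have h1 := bd_ins_add k c (bd k (Finsupp.single A (1 : k)))
  rw [bd_bd, map_zero, add_zero] at h1
  rw [← h1]
  have h2 : ins k c (bd k (Finsupp.single A (1 : k))) =
      ∑ z ∈ A, (sg k z A * sg k c (A.erase z)) • Finsupp.single (insert c (A.erase z)) (1 : k) := by
    rw [bd_single, map_sum]
    refine Finset.sum_congr rfl fun z hz => ?_
    have h3 : Finsupp.single (A.erase z) (sg k z A) =
        sg k z A • Finsupp.single (A.erase z) (1 : k) := by
      rw [Finsupp.smul_single, smul_eq_mul, mul_one]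
    have h4 : c ∉ A.erase z := fun h => hc (mem_of_mem_erase h)
    rw [h3, map_smul, ins_single_of_notMem k h4, Finsupp.smul_single, Finsupp.smul_single,
      smul_eq_mul, smul_eq_mul, mul_one]
  rw [h2, map_sum]
  refine Submodule.sum_mem _ fun z hz => ?_
  rw [map_smul]
  exact Submodule.smul_mem _ _ (hW z hz)

private theorem RkUp_top {q s : ℕ} (hsq : s + 1 = q) {A T : Finset ℕ}
    (hA : Rb q (range q) (s + 1) A) (hp : mu q (range q) A = 0) (hT : T ⊆ A) (hTne : T.Nonempty) :
    ∃ x ∈ A, ∃ H, Rb q (range q) s H ∧ mu q (range q) H = 0 ∧ toColex H ≤ toColex (A.erase x) ∧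
      kap q (range q) H = (A \ T) ∪ T.image (fun x => x % q) := by
  have hq : 0 < q := by omega
  have hA' : Rb q (range q) q A := by rw [← hsq] at hA ⊢; exact hA
  have hbig := RkUp_full hA' hp
  have hall := RkUp_all hA'
  obtain ⟨f, hf⟩ : ∃ f : ℕ → ℕ, f = fun y => if y ∈ T then y % q else y := ⟨_, rfl⟩
  have hfmod : ∀ y, f y % q = y % q := by
    intro y
    rw [hf]
    simp only
    split_ifs
    · exact Nat.mod_mod _ _
    · rfl
  have hfle : ∀ y, f y ≤ y := by
    intro y
    rw [hf]
    simp only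
    split_ifs
    · exact Nat.mod_le _ _
    · exact le_rfl
  have hfinj : ∀ y ∈ A, ∀ z ∈ A, f y = f z → y = z := by
    intro y hy z hz h
    refine hA.2.2 y hy z hz ?_
    rw [← hfmod y, ← hfmod z, h]
  have hN : (A \ T) ∪ T.image (fun x => x % q) = A.image f := by
    ext y
    simp only [mem_union, mem_sdiff, mem_image]
    constructor
    · rintro (⟨hy, hyT⟩ | ⟨z, hz, rfl⟩)
      · exact ⟨y, hy, by rw [hf]; simp only [if_neg hyT]⟩
      · exact ⟨z, hT hz, by rw [hf]; simp only [if_pos hz]⟩
    · rintro ⟨z, hz, rfl⟩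
      by_cases hzT : z ∈ T
      · right
        exact ⟨z, hzT, by rw [hf]; simp only [if_pos hzT]⟩
      · left
        rw [hf]
        simp only [if_neg hzT]
        exact ⟨hz, hzT⟩
  rw [hN]
  have hNrb : Rb q (range q) (s + 1) (A.image f) := by
    refine ⟨?_, ?_, ?_⟩
    · rw [card_image_of_injOn (fun y hy z hz h => hfinj y hy z hz h), hA.1]
    · intro v hv
      obtain ⟨y, _, rfl⟩ := mem_image.mp hv
      exact mem_range.mpr (Nat.mod_lt _ hq)
    · intro u hu v hv h
      obtain ⟨y, hy, rfl⟩ := mem_image.mp hu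
      obtain ⟨z, hz, rfl⟩ := mem_image.mp hv
      rw [hfmod, hfmod] at h
      rw [hA.2.2 y hy z hz h]
  have hNall : ∀ c ∈ range q, ∃ v ∈ A.image f, v % q = c := by
    intro c hc
    obtain ⟨v, hv, h⟩ := hall c hc
    exact ⟨f v, mem_image_of_mem f hv, by rw [hfmod, h]⟩
  have hNmu : mu q (range q) (A.image f) ≠ 0 := by
    obtain ⟨x, hx⟩ := hTne
    have h1 : f x ∈ mk q (range q) (A.image f) := by
      unfold mk
      rw [mem_filter]
      refine ⟨?_, mem_image_of_mem f (hT hx), fun c' hc' _ => hNall c' hc'⟩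
      rw [hf]
      simp only [if_pos hx]
      exact mem_range.mpr (Nat.mod_lt _ hq)
    have h2 : 0 < (mk q (range q) (A.image f)).card := card_pos.mpr ⟨_, h1⟩
    unfold mu
    omega
  obtain ⟨c, hc, h1, h2, h3, h4, _⟩ := neg_eq_kap hNrb hNmu
  have hcq : c < q := by
    unfold mk at h4
    exact mem_range.mp (mem_filter.mp h4).1
  obtain ⟨x, hx, hxc⟩ := mem_image.mp hc
  refine ⟨x, hx, (A.image f).erase c, h1, h2, ?_, h3⟩
  rw [← geomSum_le_geomSum_iff_toColex_le_toColex (le_refl 2)]
  have e1 : 2 ^ c + ∑ y ∈ (A.image f).erase c, 2 ^ y = ∑ y ∈ A.image f, 2 ^ y :=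
    add_sum_erase _ _ hc
  have e2 : ∑ y ∈ A.image f, 2 ^ y = ∑ y ∈ A, 2 ^ f y :=
    sum_image (fun y hy z hz h => hfinj y hy z hz h)
  have e3 : 2 ^ f x + ∑ y ∈ A.erase x, 2 ^ f y = ∑ y ∈ A, 2 ^ f y :=
    add_sum_erase A (fun y => 2 ^ f y) hx
  have e4 : ∑ y ∈ A.erase x, 2 ^ f y ≤ ∑ y ∈ A.erase x, 2 ^ y :=
    sum_le_sum fun y _ => Nat.pow_le_pow_right (by norm_num) (hfle y)
  rw [hxc] at e3
  omega

theorem bd_mem_low (k : Type*) [Field k] (q s : ℕ) (hs : s < q) (P P' : Finset (Finset ℕ))
    (hP : ∀ A ∈ P, Rb q (range q) (s + 1) A ∧ mu q (range q) A = 0)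
    (hini : ∀ A ∈ P, ∀ H, Rb q (range q) (s + 1) H → mu q (range q) H = 0 →
        toColex H ≤ toColex A → H ∈ P)
    (hsh : ∀ A ∈ P, ∀ z ∈ A, ∀ H, Rb q (range q) s H → mu q (range q) H = 0 →
        toColex H ≤ toColex (A.erase z) → H ∈ P')
    (A : Finset ℕ) (hA : A ∈ P) :
    bd k (Finsupp.single A 1) ∈ bdSpan k (P'.image (kap q (range q))) := by
  obtain ⟨n, hn⟩ : ∃ n : ℕ, n = ∑ i ∈ A, 2 ^ i := ⟨_, rfl⟩
  induction n using Nat.strong_induction_on generalizing A with
  | _ n ih =>
    obtain ⟨hrb, hmu⟩ := hP A hA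
    have himg : ∀ H ∈ P', bd k (Finsupp.single (kap q (range q) H) 1) ∈
        bdSpan k (P'.image (kap q (range q))) := by
      intro H hH
      refine Submodule.subset_span ⟨kap q (range q) H, ?_, rfl⟩
      exact mem_coe.mpr (mem_image_of_mem _ hH)
    rcases Nat.lt_or_ge (s + 1) q with hlt | hge
    · have hcm := c0_mem hrb (by rw [card_range]; exact hlt)
      unfold miss at hcm
      rw [mem_filter] at hcm
      have hcq : c0 q (range q) A < q := mem_range.mp hcm.1
      have hcA : c0 q (range q) A ∉ A := by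
        intro h
        exact hcm.2 _ h (Nat.mod_eq_of_lt hcq)
      refine RkUp_bd k hcA _ ?_
      intro z hz
      have hne : z % q ≠ c0 q (range q) A := hcm.2 z hz
      rcases lt_or_gt_of_ne hne with h1 | h1
      · obtain ⟨h2, h3, h4⟩ := insert_pos hrb hmu hlt hz h1
        have h5 := hini A hA _ h2 h3 h4.le
        refine ih _ ?_ _ h5 rfl
        rw [hn]
        exact (geomSum_lt_geomSum_iff_toColex_lt_toColex (le_refl 2)).mpr h4
      · rw [← kap_erase_gt hrb hlt hz h1]
        exact himg _ (hsh A hA z hz _ (RkUp_rb_erase hrb hz) (pos_erase hrb hmu z) le_rfl)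
    · have hsq : s + 1 = q := by omega
      have hq : 0 < q := by omega
      have hrb' : Rb q (range q) q A := by rw [← hsq] at hrb ⊢; exact hrb
      have hbig := RkUp_full hrb' hmu
      have hne : A.Nonempty := by
        rw [← card_pos, hrb.1]
        omega
      refine cross k A hne (fun x => x % q) (fun x hx y hy h => hrb.2.2 x hx y hy h) ?_ _ ?_
      · intro x _ h
        have h1 := hbig _ h
        have h2 := Nat.mod_lt x hq
        omega
      · intro T hT hTne
        obtain ⟨x, hx, H, h1, h2, h3, h4⟩ := RkUp_top hsq hrb hmu hT hTne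
        rw [← h4]
        exact mem_image_of_mem _ (hsh A hA x hx H h1 h2 h3)

theorem rk_up (k : Type*) [Field k] (q s : ℕ) (hs : s < q) (P P' : Finset (Finset ℕ))
    (hP : ∀ A ∈ P, Rb q (range q) (s + 1) A ∧ mu q (range q) A = 0)
    (hini : ∀ A ∈ P, ∀ H, Rb q (range q) (s + 1) H → mu q (range q) H = 0 →
        toColex H ≤ toColex A → H ∈ P)
    (hsh : ∀ A ∈ P, ∀ z ∈ A, ∀ H, Rb q (range q) s H → mu q (range q) H = 0 →
        toColex H ≤ toColex (A.erase z) → H ∈ P') :
    rk k (P ∪ P'.image (kap q (range q))) ≤ P'.card := by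
  classical
  have h1 : bdSpan k (P ∪ P'.image (kap q (range q))) ≤ bdSpan k (P'.image (kap q (range q))) := by
    unfold bdSpan
    rw [Submodule.span_le]
    rintro _ ⟨A, hA, rfl⟩
    rcases mem_union.mp (mem_coe.mp hA) with h | h
    · exact bd_mem_low k q s hs P P' hP hini hsh A h
    · exact Submodule.subset_span ⟨A, mem_coe.mpr h, rfl⟩
  have h2 : bdSpan k (P'.image (kap q (range q))) = Submodule.span k
      ((((P'.image (kap q (range q))).image
        (fun A : Finset ℕ => bd k (Finsupp.single A 1))) : Finset (Finset ℕ →₀ k)) :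
          Set (Finset ℕ →₀ k)) := by
    unfold bdSpan
    simp only [coe_image]
  have h3 : Module.finrank k (bdSpan k (P'.image (kap q (range q)))) ≤ P'.card := by
    rw [h2]
    refine (finrank_span_finset_le_card (R := k) _).trans ?_
    exact card_image_le.trans card_image_le
  have h4 : Module.Finite k (bdSpan k (P'.image (kap q (range q)))) := by
    rw [h2]
    infer_instance
  unfold rk
  exact (Submodule.finrank_mono h1).trans h3

end FlagB
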