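import Pool.Agent.Lib.MP_4a7d3d_co.FB.Fam
import Pool.Agent.Lib.MP_4a7d3d_co.FB.Closed
import Pool.Agent.Lib.MP_4a7d3d_co.FB.RkLow
import Pool.Agent.Lib.MP_4a7d3d_co.FB.RkUp

/-!
# FB-Build (0.8 h): the balanced complex with prescribed numbers.
Proof. Families from `exists_fam`. Faces: `P 0 = {∅}` (`f 0 - ρ 0 = 1`, rainbow 0-set) and `P (s+1) ∪ (P' s).image kap` for `s + 1 <= q`. Down-closed by
`closed_fam` (facets suffice: induction on the cardinality difference). Balanced: the colouring `v ↦ v % q`; `rank = q` since `0 < f q`.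
Numbers: `P` consists of positive, `kap (P')` of negative sets (`kap_neg`), `kap` injective on `P' s` (`kap_inj_pos`):
`f s - ρ s + ρ s = f s`. Ranks: `rk_low`, `rk_up`; `s = 0`: `rk {∅} = 0` as `bd ∅ = 0`; `s > q`: empty family, and `ρ s <= f s = 0`.
-/

set_option autoImplicit false

namespace FlagB

open Finset Polynomial

/-- the faces with `s` vertices -/
private def Build_fam (q : ℕ) (P P' : ℕ → Finset (Finset ℕ)) : ℕ → Finset (Finset ℕ)
  | 0 => P 0
  | (s + 1) => P (s + 1) ∪ (P' s).image (kap q (range q))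

theorem build (k : Type*) [Field k] (q : ℕ) (hq : 1 ≤ q) (f ρ : ℕ → ℕ) (f0 : f 0 = 1)
    (ρ0 : ρ 0 = 0) (h1 : ∀ s, ρ s ≤ f s) (h2 : ∀ s, ρ (s + 1) ≤ f s - ρ s)
    (h3 : ∀ s, q < s → f s = 0) (hfq : 0 < f q)
    (h4 : ∀ s, 1 ≤ s → s ≤ q → F 0 s q (f s) ≤ ρ s) :
    ∃ Γ : Cplx ℕ, Γ.IsBalanced ∧ (∀ s, Γ.fnum s = f s) ∧
      ∀ s, rk k (Γ.faces.filter (fun A => A.card = s)) = ρ s := by
  obtain ⟨P, P', p1, p2, p3, p4, p5, p6, p7⟩ := exists_fam q hq f ρ f0 ρ0 h1 h2 h3 h4
  have hP's : ∀ s, (P' s).Nonempty → s < q := by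
    intro s hs
    by_contra hsq
    have := Finset.card_pos.2 hs
    have h5 := h1 (s + 1)
    have h6 := h3 (s + 1) (by omega)
    have h7 := p4 s
    omega
  set fam := Build_fam q P P' with hfam
  have fam0 : fam 0 = P 0 := rfl
  have famS : ∀ s, fam (s + 1) = P (s + 1) ∪ (P' s).image (kap q (range q)) := fun s => rfl
  have hrb : ∀ s, ∀ A ∈ fam s, Rb q (range q) s A := by
    intro s A hA
    rcases s with _ | s
    · exact (p1 0 A hA).1
    · rw [famS] at hA
      rcases Finset.mem_union.1 hA with hA | hA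
      · exact (p1 _ A hA).1
      · obtain ⟨G, hG, rfl⟩ := Finset.mem_image.1 hA
        exact (kap_rb (Finset.Subset.refl _) (p1 s G (p3 s hG)).1 (by simpa using hP's s ⟨G, hG⟩)).2
  have hempty : ∀ s, q < s → fam s = ∅ := by
    intro s hs
    rcases s with _ | s
    · omega
    · rw [famS]
      have h5 : P (s + 1) = ∅ := by
        apply Finset.card_eq_zero.1
        rw [p2, h3 _ hs]
        simp
      have h6 : P' s = ∅ := by
        by_contra h
        have := hP's s (Finset.nonempty_iff_ne_empty.2 h)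
        omega
      rw [h5, h6]
      simp
  have hcard : ∀ s, (fam s).card = f s := by
    intro s
    rcases s with _ | s
    · rw [fam0, p2, f0, ρ0]
    · rw [famS]
      have hdisj : Disjoint (P (s + 1)) ((P' s).image (kap q (range q))) := by
        rw [Finset.disjoint_left]
        intro A hA hA'
        obtain ⟨G, hG, rfl⟩ := Finset.mem_image.1 hA'
        exact kap_neg (p1 s G (p3 s hG)).1 (hP's s ⟨G, hG⟩) (p1 _ _ hA).2
      rw [Finset.card_union_of_disjoint hdisj, Finset.card_image_of_injOn, p2, p4]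
      · have := h1 (s + 1)
        omega
      · intro A hA B hB hAB
        have hA' := p1 s A (p3 s hA)
        have hB' := p1 s B (p3 s hB)
        exact kap_inj_pos hA'.1 hB'.1 (hP's s ⟨A, hA⟩) hA'.2 hB'.2 hAB
  have hfac : ∀ s, ∀ A ∈ fam (s + 1), ∀ z ∈ A, A.erase z ∈ fam s := by
    intro s A hA z hz
    rw [famS] at hA
    rcases closed_fam q P P' p1 p3 hP's p5 p7 s A hA z hz with ⟨h, h'⟩ | ⟨r, h, h'⟩
    · subst h
      exact h'
    · subst h
      exact h'
  have hmem : ∀ A, A ∈ (range (q + 1)).biUnion fam ↔ ∃ s, A ∈ fam s := by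
    intro A
    rw [Finset.mem_biUnion]
    constructor
    · rintro ⟨s, _, h⟩
      exact ⟨s, h⟩
    · rintro ⟨s, h⟩
      refine ⟨s, ?_, h⟩
      rw [Finset.mem_range]
      by_contra hs
      rw [hempty s (by omega)] at h
      simp at h
  have he0 : P 0 = {∅} := by
    have h5 : (P 0).card = 1 := by
      rw [p2, f0, ρ0]
    obtain ⟨A, hA⟩ := Finset.card_eq_one.1 h5
    have h6 := (p1 0 A (by rw [hA]; simp)).1.1
    rw [hA, Finset.card_eq_zero.1 h6]
  have hfac' : ∀ A ∈ (range (q + 1)).biUnion fam, ∀ z ∈ A, A.erase z ∈ (range (q + 1)).biUnion fam := by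
    intro A hA z hz
    rw [hmem] at hA ⊢
    obtain ⟨s, hs⟩ := hA
    rcases s with _ | s
    · rw [fam0, he0] at hs
      rw [Finset.mem_singleton.1 hs] at hz
      simp at hz
    · exact ⟨s, hfac s A hs z hz⟩
  have hdown : ∀ n, ∀ A ∈ (range (q + 1)).biUnion fam, ∀ B, B ⊆ A → (A \ B).card = n →
      B ∈ (range (q + 1)).biUnion fam := by
    intro n
    induction n with
    | zero =>
      intro A hA B hB hn
      have h5 : A ⊆ B := Finset.sdiff_eq_empty_iff_subset.1 (Finset.card_eq_zero.1 hn)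
      rw [Finset.Subset.antisymm hB h5]
      exact hA
    | succ n ih =>
      intro A hA B hB hn
      obtain ⟨z, hz⟩ := Finset.card_pos.1 (by omega : 0 < (A \ B).card)
      rw [Finset.mem_sdiff] at hz
      refine ih (A.erase z) (hfac' A hA z hz.1) B ?_ ?_
      · intro v hv
        refine Finset.mem_erase.2 ⟨?_, hB hv⟩
        rintro rfl
        exact hz.2 hv
      · have h6 : A.erase z \ B = (A \ B).erase z := by
          ext v
          simp only [Finset.mem_sdiff, Finset.mem_erase]
          tauto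
        rw [h6, Finset.card_erase_of_mem (Finset.mem_sdiff.2 hz)]
        omega
  have hfil : ∀ s, ((range (q + 1)).biUnion fam).filter (fun A => A.card = s) = fam s := by
    intro s
    ext A
    rw [Finset.mem_filter, hmem]
    constructor
    · rintro ⟨⟨s', h⟩, h'⟩
      rw [← h', (hrb s' A h).1]
      exact h
    · intro h
      exact ⟨⟨s, h⟩, (hrb s A h).1⟩
  have hrk0 : rk k ({∅} : Finset (Finset ℕ)) = 0 := by
    unfold rk bdSpan
    rw [Finset.coe_singleton, Set.image_singleton]
    have h5 : bd k (Finsupp.single (∅ : Finset ℕ) (1 : k)) = 0 := by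
      unfold bd
      rw [Finsupp.linearCombination_single]
      simp
    rw [h5]
    simp
  have hrkE : rk k (∅ : Finset (Finset ℕ)) = 0 := by
    unfold rk bdSpan
    rw [Finset.coe_empty, Set.image_empty, Submodule.span_empty]
    exact finrank_bot k _
  refine ⟨⟨(range (q + 1)).biUnion fam, ?_, ?_⟩, ⟨fun v => v % q, ?_, ?_⟩, ?_, ?_⟩
  · rw [hmem]
    exact ⟨0, by rw [fam0, he0]; simp⟩
  · intro A hA B hB
    exact hdown _ A hA B hB rfl
  · intro v _
    refine lt_of_lt_of_le (Nat.mod_lt _ (by omega)) ?_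
    obtain ⟨A, hA⟩ := Finset.card_pos.1 (by rw [hcard]; exact hfq : 0 < (fam q).card)
    have h5 : A.card ≤ ((range (q + 1)).biUnion fam).sup Finset.card :=
      Finset.le_sup ((hmem A).2 ⟨q, hA⟩)
    rw [(hrb q A hA).1] at h5
    exact h5
  · intro A hA u hu v hv h
    obtain ⟨s, hs⟩ := (hmem A).1 hA
    exact (hrb s A hs).2.2 u hu v hv h
  · intro s
    unfold Cplx.fnum
    dsimp only
    rw [hfil, hcard]
  · intro s
    dsimp only
    rw [hfil]
    rcases s with _ | s
    · rw [fam0, he0, hrk0, ρ0]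
    · rcases lt_or_ge s q with hsq | hsq
      · rw [famS]
        apply le_antisymm
        · have := rk_up k q s hsq (P (s + 1)) (P' s) (p1 (s + 1)) (p5 (s + 1)) (p7 s)
          rwa [p4] at this
        · have := rk_low k q s hsq (P' s) (P (s + 1) ∪ (P' s).image (kap q (range q)))
            (fun A hA => p1 s A (p3 s hA)) (fun A hA => Finset.mem_union_right _ (Finset.mem_image_of_mem _ hA))
          rwa [p4] at this
      · rw [hempty _ (by omega), hrkE]
        have h5 := h1 (s + 1)
        have h6 := h3 (s + 1) (by omega)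
        omega

end FlagB
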