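import Mathlib

/-!
# Simplicial complexes: face numbers, flag and balanced complexes, reduced Betti numbers

The definitions used in the statement for MP_4a7d3d_co. Faces are indexed by their number of
vertices `s`, so `s = dimension + 1`.
-/

set_option autoImplicit false

namespace FlagB

open Finset

/-! ### Chains -/

section chains

variable (k : Type*) [Field k] {V : Type*} [LinearOrder V]

/-- sign of `v` in `A`. -/
def sg (v : V) (A : Finset V) : k := (-1) ^ (A.filter (fun u => u < v)).card

/-- the boundary operator on formal combinations of finite sets. -/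
noncomputable def bd : (Finset V →₀ k) →ₗ[k] (Finset V →₀ k) :=
  Finsupp.linearCombination k (fun A : Finset V => ∑ v ∈ A, Finsupp.single (A.erase v) (sg k v A))

end chains

/-! ### Complexes -/

/-- A finite abstract simplicial complex on the vertex type `V` (the vertices of the complex are
the `v` with `{v}` a face). -/
structure Cplx (V : Type*) [DecidableEq V] where
  faces : Finset (Finset V)
  empty_mem : ∅ ∈ faces
  down : ∀ A ∈ faces, ∀ B, B ⊆ A → B ∈ faces

namespace Cplx

variable {V : Type*}

/-- number of faces with `s` vertices, i.e. of dimension `s - 1`. -/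
def fnum [DecidableEq V] (K : Cplx V) (s : ℕ) : ℕ := (K.faces.filter (fun A => A.card = s)).card

/-- the largest number of vertices of a face, i.e. dimension plus one. -/
def rank [DecidableEq V] (K : Cplx V) : ℕ := K.faces.sup Finset.card

/-- flag complex. -/
def IsFlag [DecidableEq V] (K : Cplx V) : Prop :=
  ∀ A : Finset V, (∀ u ∈ A, ∀ v ∈ A, ({u, v} : Finset V) ∈ K.faces) → A ∈ K.faces

/-- balanced complex: the vertices can be coloured with `dim K + 1` colours such that the vertices
of each face receive different colours. -/
def IsBalanced [DecidableEq V] (K : Cplx V) : Prop :=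
  ∃ col : V → ℕ, (∀ v, {v} ∈ K.faces → col v < K.rank) ∧
    ∀ A ∈ K.faces, ∀ u ∈ A, ∀ v ∈ A, col u = col v → u = v

/-- the dimension of the quotient space `Z / (B ∩ Z)`. -/
noncomputable def quotDim (k : Type*) [Field k] {M : Type*} [AddCommGroup M] [Module k M]
    (Z B : Submodule k M) : ℕ :=
  Module.finrank k (↥Z ⧸ B.comap Z.subtype)

variable (k : Type*) [Field k] [LinearOrder V]

/-- chains on the faces with `s` vertices. -/
noncomputable def chains (K : Cplx V) (s : ℕ) : Submodule k (Finset V →₀ k) :=
  Finsupp.supported k k {A : Finset V | A ∈ K.faces ∧ A.card = s}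

/-- cycles. -/
noncomputable def cycles (K : Cplx V) (s : ℕ) : Submodule k (Finset V →₀ k) :=
  K.chains k s ⊓ LinearMap.ker (bd k)

/-- boundaries. -/
noncomputable def boundaries (K : Cplx V) (s : ℕ) : Submodule k (Finset V →₀ k) :=
  (K.chains k (s + 1)).map (bd k)

/-- the reduced Betti number in dimension `s - 1`: the dimension of cycles modulo boundaries. -/
noncomputable def betti (K : Cplx V) (s : ℕ) : ℕ :=
  quotDim k (K.cycles k s) (K.boundaries k s)

end Cplx

end FlagB
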