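import Pool.Agent.Lib.MP_4a7d3d_co.FB.NIneq

/-!
# FB-CaseI (0.5 h): Case I of the main claim.
Proof. Let `P` be the largest `b` with `Adm (q-1) s b a₀` (`adm_max`), `x = min l >= 1`,
`M = P + a₀ + l.sum`, `K = card l + 1 >= 2`. For every `b'` with `Adm (q-1) s b' x`: `b' <= P` (`adm_mono`), and
`M >= b' + K * x` since `a₀ >= x` and every member of `l` is `>= x`. `N_ineq` with `p = K`, `a = x` gives
`F M <= F (M - x) + F ε (s-1) (q-1) x`; the induction hypothesis for `(a₀, P, l.erase x)` gives the rest since the cost drops by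
`F ε (s-1) (q-1) x >= 1`. Finally `b + a₀ + l.sum <= M` and `F_mono`.
-/

set_option autoImplicit false

namespace FlagB

open Finset Polynomial

private theorem caseI_sum_ge (l : Multiset ℕ) (x : ℕ) (h : ∀ y ∈ l, x ≤ y) :
    Multiset.card l * x ≤ l.sum := by
  induction l using Multiset.induction_on with
  | empty => simp
  | cons a l IH =>
    rw [Multiset.card_cons, Multiset.sum_cons, Nat.add_mul, Nat.one_mul]
    have h1 := IH (fun y hy => h y (Multiset.mem_cons_of_mem hy))
    have h2 := h a (Multiset.mem_cons_self a l)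
    omega

private theorem caseI_exists_min (l : Multiset ℕ) (hl : l ≠ 0) : ∃ x ∈ l, ∀ y ∈ l, x ≤ y := by
  induction l using Multiset.induction_on with
  | empty => exact absurd rfl hl
  | cons a l IH =>
    by_cases h0 : l = 0
    · subst h0
      exact ⟨a, Multiset.mem_cons_self a 0, fun y hy => by
        simp at hy; omega⟩
    · obtain ⟨x, hx, hmin⟩ := IH h0
      by_cases hax : a ≤ x
      · exact ⟨a, Multiset.mem_cons_self a l, fun y hy => by
          rcases Multiset.mem_cons.mp hy with rfl | hy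
          · exact le_rfl
          · exact le_trans hax (hmin y hy)⟩
      · exact ⟨x, Multiset.mem_cons_of_mem hx, fun y hy => by
          rcases Multiset.mem_cons.mp hy with rfl | hy
          · omega
          · exact hmin y hy⟩

theorem caseI (ε q s c : ℕ) (hs : 2 ≤ s) (hsq : s ≤ q)
    (IH : ∀ (a₀ b : ℕ) (l : Multiset ℕ), Adm (q - 1) s b a₀ → (∀ x ∈ l, x ≤ a₀) →
      cost ε q s a₀ l < c → F ε s q (b + a₀ + l.sum) ≤ cost ε q s a₀ l)
    (a₀ b : ℕ) (l : Multiset ℕ) (hadm : Adm (q - 1) s b a₀) (hl : ∀ x ∈ l, 1 ≤ x ∧ x ≤ a₀)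
    (hl0 : l ≠ 0) (ha : a₀ ≤ t (q - 1) (s - 1) ((q - 1) * (Multiset.card l + 1)))
    (hc : cost ε q s a₀ l ≤ c) :
    F ε s q (b + a₀ + l.sum) ≤ cost ε q s a₀ l := by
  obtain ⟨P, hP⟩ := adm_max (q - 1) s a₀ hs
  obtain ⟨x, hx, hmin⟩ := caseI_exists_min l hl0
  obtain ⟨hx1, hxa⟩ := hl x hx
  obtain ⟨l', rfl⟩ := Multiset.exists_cons_of_mem hx
  have hbP : b ≤ P := (hP b).mp hadm
  have hcard : 1 ≤ Multiset.card (x ::ₘ l') := by rw [Multiset.card_cons]; omega
  have hsum := caseI_sum_ge l' x (fun y hy => hmin y (Multiset.mem_cons_of_mem hy))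
  have hN := N_ineq ε s q (Multiset.card (x ::ₘ l') + 1) (P + a₀ + (x ::ₘ l').sum) x hs hsq hx1
    (by omega) (le_trans hxa ha) (by
      intro b' hb'
      have h1 : b' ≤ P := (hP b').mp (adm_mono le_rfl hxa hb')
      rw [Multiset.card_cons, Multiset.sum_cons]
      have h2 : (Multiset.card l' + 1 + 1) * x = Multiset.card l' * x + x + x := by ring
      omega)
  have hcost : cost ε q s a₀ (x ::ₘ l') = cost ε q s a₀ l' + F ε (s - 1) (q - 1) x := by
    unfold cost
    rw [Multiset.map_cons, Multiset.sum_cons]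
    ring
  have hpos : 1 ≤ F ε (s - 1) (q - 1) x := F_pos ε (s - 1) (q - 1) x (by omega) hx1
  have hIH := IH a₀ P l' ((hP P).mpr le_rfl)
    (fun y hy => (hl y (Multiset.mem_cons_of_mem hy)).2) (by omega)
  have hsub : P + a₀ + (x ::ₘ l').sum - x = P + a₀ + l'.sum := by
    rw [Multiset.sum_cons]; omega
  rw [hsub] at hN
  have hmono : F ε s q (b + a₀ + (x ::ₘ l').sum) ≤ F ε s q (P + a₀ + (x ::ₘ l').sum) :=
    F_mono ε s q (by omega)
  omega

end FlagB
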