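import Pool.Agent.Lib.MP_4a7d3d_co.FB.FBlock

/-!
# FB-FEnd (0.7 h): `F 1` at block ends, and the predicate `Adm`.
Proof. `F_t`: induction on `s`, inside on `n >= s`. `n = s`: `F 1 s q 1 = w 1 s = s` and
`t q (s-1) s = s` for `s <= q` (from `t_succ`/`t_add_D` and `t_self`, `t_lt`, or directly). Step: by `t_add_D` and `F_block`,
`F(t(n+1)) = F(t n) + F 1 (s-1) (q-1) (D q s n)` where `D q s n = t (q-1) (s-1) (n - n/q)` and
`n - n/q >= s-1`; for `s >= 2` this equals `t q (s-1) n + t (q-1) (s-2) (n - n/q) = t q (s-1) (n+1)` by induction;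
for `s = 1` everything is 1.
`F_t_add_le`: equality by `F_block`, `F_t` if `n >= s`; small `n` by hand (`n = s-1`: `b <= 1`).
`adm_mono`: `F_mono`. `adm_step`: see the paper; if `q < s`, then `q-1 < s-1`, so `b = 0` and `t q s N = 0`.
Otherwise put `N' = N - N/q`; `D q s N = t (q-1) (s-1) N'`, `D q (s-1) N = t (q-1) (s-2) N'`. If `b > t (q-1) (s-1) N'`, then by
`F_mono` `F 1 (s-1) (q-1) b >= F 1 (s-1) (q-1) (t (q-1) (s-1) N' + 1) > t (q-1) (s-2) N' >= α`, contradiction
(if `N' >= s-1`: `F_block`, `F_t`, `F_pos`; if `N' <= s-2`: `t (q-1) (s-1) N' = 0`, `F = w 1 (s-1) = s-1 >= 2 > 1 >= t (q-1) (s-2) N'`).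
Then use `F_t_add_le` for the second part. `adm_max`: `Adm` is downward closed in `b` and bounded because
`F 1 s q (t q s n) = t q (s-1) n` is unbounded for `s >= 2` (`t_ge`); take the largest `b` (if `q < s` it is `b = 0`).
-/

set_option autoImplicit false

namespace FlagB

open Finset Polynomial

private theorem t_pred_self : ∀ (s q : ℕ), 1 ≤ s → s ≤ q → t q (s - 1) s = s := by
  intro s
  induction s with
  | zero => intro q h; omega
  | succ s ih =>
    intro q _ hsq
    rcases Nat.eq_zero_or_pos s with h0 | h0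
    · subst h0
      exact t_zero q 1
    · have h1 := t_add_D q s s h0 (by omega)
      have h2 : D q s s = s := by
        unfold D
        rw [Nat.div_eq_of_lt (by omega : s < q), Nat.sub_zero]
        exact ih (q - 1) h0 (by omega)
      rw [Nat.add_sub_cancel, h1, h2, t_self q s (by omega)]
      omega

private theorem sub_div_ge {s q n : ℕ} (hsq : s ≤ q) (hn : s ≤ n) : s - 1 ≤ n - n / q := by
  have h1 := sub_div_mono q hn
  have h2 : s / q ≤ 1 := by
    rcases Nat.eq_zero_or_pos q with h0 | h0
    · subst h0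
      simp
    · exact (Nat.div_le_iff_le_mul_add_pred h0).2 (by omega)
  omega

theorem F_t (s q n : ℕ) (hs : 1 ≤ s) (hsq : s ≤ q) (hn : s ≤ n) :
    F 1 s q (t q s n) = t q (s - 1) n := by
  induction s generalizing q n with
  | zero => omega
  | succ s ih =>
    induction n, hn using Nat.le_induction with
    | base =>
      rw [t_self q (s + 1) hsq, F_one 1 (s + 1) q hs hsq, w_one, t_pred_self (s + 1) q hs hsq]
    | succ n hn ihn =>
      rw [t_add_D q (s + 1) n hs (by omega), F_block 1 (s + 1) q n _ hs hsq hn le_rfl, ihn]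
      rcases Nat.eq_zero_or_pos s with h0 | h0
      · subst h0
        simp only [Nat.add_sub_cancel, t_zero]
        rfl
      · have h1 := sub_div_ge hsq hn
        have h2 := ih (q - 1) (n - n / q) h0 (by omega) (by omega)
        rw [Nat.add_sub_cancel, t_add_D q s n h0 (by omega)]
        unfold D
        rw [Nat.add_sub_cancel, h2]

private theorem D_self {s q : ℕ} (hs : 1 ≤ s) (hsq : s ≤ q) : D q s (s - 1) = 1 := by
  unfold D
  rw [Nat.div_eq_of_lt (by omega : s - 1 < q), Nat.sub_zero]
  exact t_self _ _ (by omega)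

theorem F_t_add_le (s q n b : ℕ) (hs : 1 ≤ s) (hsq : s ≤ q) (hb : b ≤ D q s n) :
    F 1 s q (t q s n + b) ≤ t q (s - 1) n + F 1 (s - 1) (q - 1) b := by
  rcases Nat.lt_or_ge n s with hlt | hge
  · rw [t_lt q s n hlt, Nat.zero_add]
    rcases Nat.lt_or_ge (n + 1) s with h1 | h1
    · rw [D_zero q s n h1] at hb
      have hb0 : b = 0 := by omega
      subst hb0
      rw [F_zero]
      exact Nat.zero_le _
    · have hn : n = s - 1 := by omega
      subst hn
      rw [D_self hs hsq] at hb
      rcases Nat.eq_zero_or_pos b with h0 | h0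
      · subst h0
        rw [F_zero]
        exact Nat.zero_le _
      · have hb1 : b = 1 := by omega
        subst hb1
        rw [F_one 1 s q hs hsq, w_one, t_self q (s - 1) (by omega)]
        rcases Nat.lt_or_ge 1 s with h2 | h2
        · rw [F_one 1 (s - 1) (q - 1) (by omega) (by omega), w_one]
          omega
        · omega
  · rw [F_block 1 s q n b hs hsq hge hb, F_t s q n hs hsq hge]

theorem adm_mono {q s b b' a a' : ℕ} (hb : b' ≤ b) (ha : a ≤ a') (h : Adm q s b a) :
    Adm q s b' a' := by
  rcases h with h | ⟨h1, h2⟩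
  · exact Or.inl (by omega)
  · exact Or.inr ⟨h1, (F_mono 1 s q hb).trans (h2.trans ha)⟩

theorem adm_step (q s N b α : ℕ) (hs : 3 ≤ s) (hα : α ≤ D q (s - 1) N)
    (h : Adm (q - 1) (s - 1) b α) :
    b ≤ D q s N ∧ Adm q s (t q s N + b) (t q (s - 1) N + α) := by
  rcases Nat.lt_or_ge q s with hqs | hsq
  · have hb : b = 0 := by
      rcases h with h | ⟨h1, -⟩
      · exact h
      · omega
    subst hb
    refine ⟨Nat.zero_le _, Or.inl ?_⟩
    rw [t_qlt q s N hqs]
  · have key : b ≤ D q s N := by
      rcases h with h | ⟨h1, h2⟩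
      · omega
      · by_contra hcon
        push Not at hcon
        have hD : D q s N = t (q - 1) (s - 1) (N - N / q) := rfl
        have hD' : D q (s - 1) N = t (q - 1) (s - 1 - 1) (N - N / q) := rfl
        rw [hD] at hcon
        rw [hD'] at hα
        have h3 := F_mono 1 (s - 1) (q - 1) (Nat.succ_le_of_lt hcon)
        rcases Nat.lt_or_ge (N - N / q) (s - 1) with h4 | h4
        · rw [t_lt _ _ _ h4] at h3
          rw [Nat.succ_eq_add_one, Nat.zero_add, F_one 1 (s - 1) (q - 1) (by omega) h1, w_one] at h3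
          have h5 : t (q - 1) (s - 1 - 1) (N - N / q) ≤ 1 := by
            have := t_mono (q - 1) (s - 1 - 1) (show N - N / q ≤ s - 1 - 1 by omega)
            rwa [t_self (q - 1) (s - 1 - 1) (by omega)] at this
          omega
        · rw [Nat.succ_eq_add_one, F_block 1 (s - 1) (q - 1) (N - N / q) 1 (by omega) h1 h4
            (D_pos (q - 1) (s - 1) (N - N / q) (by omega) h1 (by omega)),
            F_t (s - 1) (q - 1) (N - N / q) (by omega) h1 h4] at h3
          have h6 := F_pos 1 (s - 1 - 1) (q - 1 - 1) 1 (by omega) le_rfl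
          omega
    refine ⟨key, Or.inr ⟨hsq, ?_⟩⟩
    refine (F_t_add_le s q N b (by omega) hsq key).trans ?_
    refine Nat.add_le_add_left ?_ _
    rcases h with h | ⟨h1, h2⟩
    · subst h
      rw [F_zero]
      exact Nat.zero_le _
    · exact h2

theorem adm_max (q s a : ℕ) (hs : 2 ≤ s) : ∃ P, ∀ b, Adm q s b a ↔ b ≤ P := by
  rcases Nat.lt_or_ge q s with hqs | hsq
  · refine ⟨0, fun b => ⟨fun h => ?_, fun h => Or.inl (by omega)⟩⟩
    rcases h with h | ⟨h1, -⟩
    · omega
    · omega
  · obtain ⟨B, hB⟩ : ∃ B, a < F 1 s q B := by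
      refine ⟨t q s (s - 1 + (a + 1)), ?_⟩
      rw [F_t s q _ (by omega) hsq (by omega)]
      have := t_ge q (s - 1) (a + 1) (by omega) (by omega)
      omega
    refine ⟨Nat.findGreatest (fun b => F 1 s q b ≤ a) B, fun b => ⟨fun h => ?_, fun h => ?_⟩⟩
    · have hFb : F 1 s q b ≤ a := by
        rcases h with h | ⟨-, h2⟩
        · subst h
          rw [F_zero]
          exact Nat.zero_le _
        · exact h2
      have hbB : b ≤ B := by
        by_contra hcon
        push Not at hcon
        have := F_mono 1 s q hcon.le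
        omega
      exact Nat.le_findGreatest hbB hFb
    · have h0 : F 1 s q 0 ≤ a := by
        rw [F_zero]
        exact Nat.zero_le _
      have h1 : F 1 s q (Nat.findGreatest (fun b => F 1 s q b ≤ a) B) ≤ a :=
        Nat.findGreatest_spec (P := fun b => F 1 s q b ≤ a) (Nat.zero_le B) h0
      exact Or.inr ⟨hsq, (F_mono 1 s q h).trans h1⟩

end FlagB
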