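import Pool.Agent.Lib.MP_4a7d3d_co.FB.Slices
import Pool.Agent.Lib.MP_4a7d3d_co.FB.FEnd

/-!
# FB-CaseII (1.0 h): re-slicing (Case II of the main claim); purely numerical from `slices`.
Proof. `p` = least number with `a₀ <= t (q-1) (s-1) ((q-1)*p)` (exists by `t_ge`, `t_mono`; `q-1 >= s-1 >= 1`); by hypothesis and `t_mono`
`p > card l + 1`, so `p >= 2`, and `t (q-1) (s-1) ((q-1)*(p-1)) < a₀`. Put
`M i = β i a₀ + ν i a₀ + ∑_{x ∈ l} ν i x`, `b' = βe a₀ + νe a₀ + ∑ νe x`, `a₀' = M 0`, `l' = {M 1, ..., M (p-1)}`.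
Sum: `b' + ∑_{i<p} M i = P a₀ + a₀ + l.sum >= b + a₀ + l.sum`. `M` is antitone in `i`, `M (p-1) >= ν (p-1) a₀ >= 1`.
`Adm (q-1) s b' (M 0)`: if `s <= q-1`, `SClaim 1 (q-1) s` with `(νe a₀, βe a₀, l.map νe)` gives
`F 1 s (q-1) b' <= νe a₀ + F 1 (s-1) (q-2) (νe a₀) + ∑ F 1 (s-1) (q-2) (νe x) <= β 0 a₀ + ν 0 a₀ + ∑ ν 0 x`; if `s = q` all `βe, νe` vanish.
`M 0 <= νe a₀ + (card l + 1) * ν 0 a₀ <= t (q-2) (s-1) ((q-2)*p) + p * t (q-2) (s-2) ((q-2)*p) = t (q-1) (s-1) ((q-1)*p)` (`t_class`).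
Cost: `SClaim ε (q-1) (s-1)` for each `i < p` with `(ν i a₀, β i a₀, l.map (ν i))`, and the formulas for `F ε (s-1) (q-1) a₀`, `F ε (s-1) (q-1) x`
and `a₀ = β 0 a₀ + ∑_{i<p} ν i a₀`; it is an equality of sums, see the paper (II.3).
-/

set_option autoImplicit false

namespace FlagB

open Finset Polynomial

private theorem c2_msum (l : Multiset ℕ) (f g : ℕ → ℕ) (h : ℕ → ℕ → ℕ) (n : ℕ)
    (H : ∀ x ∈ l, f x = g x + ∑ i ∈ range n, h i x) :
    (l.map f).sum = (l.map g).sum + ∑ i ∈ range n, (l.map (h i)).sum := by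
  induction l using Multiset.induction_on with
  | empty => simp
  | cons a l IH =>
    have h1 := IH (fun x hx => H x (Multiset.mem_cons_of_mem hx))
    have h2 := H a (Multiset.mem_cons_self a l)
    simp only [Multiset.map_cons, Multiset.sum_cons]
    rw [Finset.sum_add_distrib, h1, h2]
    ring

private theorem c2_msum_le (l : Multiset ℕ) (f g : ℕ → ℕ) (H : ∀ x ∈ l, f x ≤ g x) :
    (l.map f).sum ≤ (l.map g).sum := by
  induction l using Multiset.induction_on with
  | empty => simp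
  | cons a l IH =>
    have h1 := IH (fun x hx => H x (Multiset.mem_cons_of_mem hx))
    have h2 := H a (Multiset.mem_cons_self a l)
    simp only [Multiset.map_cons, Multiset.sum_cons]
    omega

private theorem c2_msum_bd (l : Multiset ℕ) (f : ℕ → ℕ) (c : ℕ) (H : ∀ x ∈ l, f x ≤ c) :
    (l.map f).sum ≤ Multiset.card l * c := by
  induction l using Multiset.induction_on with
  | empty => simp
  | cons a l IH =>
    have h1 := IH (fun x hx => H x (Multiset.mem_cons_of_mem hx))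
    have h2 := H a (Multiset.mem_cons_self a l)
    simp only [Multiset.map_cons, Multiset.sum_cons, Multiset.card_cons, Nat.add_mul, Nat.one_mul]
    omega

private theorem c2_msum_mul (l : Multiset ℕ) (f g : ℕ → ℕ) (ε : ℕ) :
    (l.map (fun x => f x + ε * g x)).sum = (l.map f).sum + ε * (l.map g).sum := by
  induction l using Multiset.induction_on with
  | empty => simp
  | cons a l IH =>
    simp only [Multiset.map_cons, Multiset.sum_cons]
    rw [IH]
    ring

theorem caseII (ε q s : ℕ) (hs : 2 ≤ s) (hsq : s ≤ q) (h1 : SClaim ε (q - 1) (s - 1))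
    (h2 : s ≤ q - 1 → SClaim 1 (q - 1) s)
    (a₀ b : ℕ) (l : Multiset ℕ) (hadm : Adm (q - 1) s b a₀) (hl : ∀ x ∈ l, 1 ≤ x ∧ x ≤ a₀)
    (ha : t (q - 1) (s - 1) ((q - 1) * (Multiset.card l + 1)) < a₀) :
    ∃ (b' a₀' : ℕ) (l' : Multiset ℕ), Adm (q - 1) s b' a₀' ∧ (∀ x ∈ l', 1 ≤ x ∧ x ≤ a₀') ∧
      l' ≠ 0 ∧ a₀' ≤ t (q - 1) (s - 1) ((q - 1) * (Multiset.card l' + 1)) ∧
      b + a₀ + l.sum ≤ b' + a₀' + l'.sum ∧ cost ε q s a₀' l' ≤ cost ε q s a₀ l := by
  obtain ⟨ν, νe, β, βe, P, hν, hνm, hνem, hsp, hF, hadm1, hbd, hlast, hP, hPs, hβ, hadm2, hβ0,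
    hadm3⟩ := slices q s hs hsq
  obtain ⟨s, rfl⟩ : ∃ r, s = r + 2 := ⟨s - 2, by omega⟩
  obtain ⟨q, rfl⟩ : ∃ r, q = r + 2 := ⟨q - 2, by omega⟩
  have e1 : q + 2 - 1 = q + 1 := by omega
  have e2 : s + 2 - 1 = s + 1 := by omega
  have e3 : q + 2 - 2 = q := by omega
  have e4 : s + 2 - 2 = s := by omega
  simp only [e1, e2, e3, e4] at *
  -- the number of levels
  have hex : ∃ p, a₀ ≤ t (q + 1) (s + 1) ((q + 1) * p) := by
    refine ⟨s + 1 + a₀, ?_⟩
    have h3 := t_ge (q + 1) (s + 1) a₀ (by omega) (by omega)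
    have h4 : t (q + 1) (s + 1) (s + 1 + a₀) ≤ t (q + 1) (s + 1) ((q + 1) * (s + 1 + a₀)) := by
      apply t_mono
      exact Nat.le_mul_of_pos_left _ (by omega)
    omega
  classical
  have hfind := Nat.find_spec hex
  have hmin : ∀ n, n < Nat.find hex → ¬ a₀ ≤ t (q + 1) (s + 1) ((q + 1) * n) :=
    fun n hn => Nat.find_min hex hn
  generalize Nat.find hex = p at hfind hmin
  have hpl : Multiset.card l + 1 < p := by
    by_contra hcon
    have h3 : p ≤ Multiset.card l + 1 := by omega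
    have h4 := t_mono (q + 1) (s + 1) (Nat.mul_le_mul_left (q + 1) h3)
    omega
  obtain ⟨p, rfl⟩ : ∃ r, p = r + 1 := ⟨p - 1, by omega⟩
  have hple : ∀ x ∈ l, x ≤ t (q + 1) (s + 1) ((q + 1) * (p + 1)) := fun x hx =>
    le_trans (hl x hx).2 hfind
  have hlastp : 1 ≤ ν p a₀ := hlast p a₀ (not_le.mp (hmin p (by omega)))
  set M : ℕ → ℕ := fun i => β i a₀ + ν i a₀ + (l.map (ν i)).sum with hM
  have hMa : ∀ i, M (i + 1) ≤ M i := by
    intro i
    have h3 := hβ i a₀
    have h4 := hν i a₀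
    have h5 := c2_msum_le l (ν (i + 1)) (ν i) (fun x _ => hν i x)
    simp only [hM]
    omega
  have hManti : Antitone M := antitone_nat_of_succ_le hMa
  have hM1 : ∀ i, i ≤ p → 1 ≤ M i := by
    intro i hi
    have h3 := hManti hi
    have h4 : ν p a₀ ≤ M p := by simp only [hM]; omega
    omega
  -- sums
  have hsumx : l.sum = (l.map νe).sum + ∑ i ∈ range (p + 1), (l.map (ν i)).sum := by
    have := c2_msum l id νe ν (p + 1) (fun x hx => hsp (p + 1) x (hple x hx))
    rwa [Multiset.map_id] at this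
  have hsuma := hsp (p + 1) a₀ hfind
  have hsumP := hPs (p + 1) a₀ hfind
  have hlsum : ((Multiset.range p).map (fun i => M (i + 1))).sum = ∑ i ∈ range p, M (i + 1) := rfl
  have hMtot : ∑ i ∈ range (p + 1), M i =
      ∑ i ∈ range (p + 1), β i a₀ + ∑ i ∈ range (p + 1), ν i a₀ +
        ∑ i ∈ range (p + 1), (l.map (ν i)).sum := by
    simp only [hM]
    rw [Finset.sum_add_distrib, Finset.sum_add_distrib]
  have hMsucc : ∑ i ∈ range (p + 1), M i = ∑ i ∈ range p, M (i + 1) + M 0 :=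
    Finset.sum_range_succ' M p
  refine ⟨βe a₀ + νe a₀ + (l.map νe).sum, M 0, (Multiset.range p).map (fun i => M (i + 1)),
    ?_, ?_, ?_, ?_, ?_, ?_⟩
  · -- admissibility
    by_cases hsq' : s + 2 ≤ q + 1
    · right
      refine ⟨hsq', ?_⟩
      have h3 := h2 hsq' (νe a₀) (βe a₀) (l.map νe)
        (by simpa using hadm3 a₀)
        (by
          intro x hx
          obtain ⟨y, hy, rfl⟩ := Multiset.mem_map.mp hx
          exact hνem _ _ (hl y hy).2)
      refine le_trans h3 ?_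
      have hc1 : ∀ (a : ℕ) (m : Multiset ℕ), cost 1 (q + 1) (s + 2) a m =
          a + 1 * F 1 (s + 1) q a + (m.map (F 1 (s + 1) q)).sum := fun _ _ => rfl
      rw [hc1, Nat.one_mul]
      have h5 : ∀ a, F 1 (s + 1) q (νe a) ≤ ν 0 a := by
        intro a
        rcases hadm1 a with h | ⟨_, h⟩
        · rw [h, F_zero]; exact Nat.zero_le _
        · exact h
      have h6 := h5 a₀
      have h7 : ((l.map νe).map (F 1 (s + 1) q)).sum ≤ (l.map (ν 0)).sum := by
        rw [Multiset.map_map]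
        exact c2_msum_le l _ _ (fun x _ => h5 x)
      have h8 := hβ0 a₀
      simp only [hM]
      omega
    · left
      have h3 : ∀ a, νe a = 0 := by
        intro a
        rcases hadm1 a with h | ⟨h, _⟩
        · exact h
        · omega
      have h4 : βe a₀ = 0 := by
        rcases hadm3 a₀ with h | ⟨h, _⟩
        · exact h
        · omega
      have h5 : (l.map νe).sum ≤ Multiset.card l * 0 :=
        c2_msum_bd l νe 0 (fun x _ => by rw [h3 x])
      rw [h3, h4]
      omega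
  · intro x hx
    obtain ⟨i, hi, rfl⟩ := Multiset.mem_map.mp hx
    rw [Multiset.mem_range] at hi
    exact ⟨hM1 (i + 1) (by omega), hManti (Nat.zero_le _)⟩
  · intro h3
    have h4 := congrArg Multiset.card h3
    rw [Multiset.card_map, Multiset.card_range, Multiset.card_zero] at h4
    omega
  · rw [Multiset.card_map, Multiset.card_range]
    obtain ⟨h3, h4⟩ := hbd (p + 1) a₀ hfind
    have h5 := c2_msum_bd l (ν 0) (ν 0 a₀) (fun x hx => hνm 0 _ _ (hl x hx).2)
    have h6 := hβ0 a₀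
    have hcls := t_class (q + 1) s (q * (p + 1)) (p + 1) (by omega) (by omega)
      (by
        simp only [Nat.add_sub_cancel]
        exact Nat.mul_le_mul_left q (by omega))
      (by simp only [Nat.add_sub_cancel]; exact le_rfl)
    simp only [Nat.add_sub_cancel] at hcls
    have h7 : q * (p + 1) + (p + 1) = (q + 1) * (p + 1) := by ring
    rw [h7] at hcls
    rw [hcls]
    have h8 : (p + 1) * ν 0 a₀ ≤ (p + 1) * t q s (q * (p + 1)) := Nat.mul_le_mul_left _ h4
    have h9 : (Multiset.card l + 1) * ν 0 a₀ ≤ (p + 1) * ν 0 a₀ :=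
      Nat.mul_le_mul_right _ (by omega)
    rw [Nat.add_mul, Nat.one_mul] at h9
    simp only [hM]
    omega
  · rw [hlsum]
    have hbP : b ≤ P a₀ := (hP a₀ b).mp hadm
    omega
  · -- cost
    have hS : ∀ i, F ε (s + 1) (q + 1) (M i) ≤ ν i a₀ + ε * F ε s q (ν i a₀) +
        (l.map (fun x => F ε s q (ν i x))).sum := by
      intro i
      have h3 := h1 (ν i a₀) (β i a₀) (l.map (ν i))
        (by simpa using hadm2 i a₀)
        (by
          intro x hx
          obtain ⟨y, hy, rfl⟩ := Multiset.mem_map.mp hx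
          exact hνm i _ _ (hl y hy).2)
      refine le_trans h3 ?_
      unfold cost
      simp only [Nat.add_sub_cancel, Multiset.map_map]
      exact le_rfl
    have hFa := hF ε (p + 1) a₀ (by omega) hfind
    have hFl : (l.map (F ε (s + 1) (q + 1))).sum =
        (l.map (ν 0)).sum + ε * (l.map (fun x => F ε s q (ν 0 x))).sum +
          ∑ i ∈ range p, (l.map (fun x => F ε s q (ν (i + 1) x))).sum := by
      have h3 := c2_msum l (F ε (s + 1) (q + 1)) (fun x => ν 0 x + ε * F ε s q (ν 0 x))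
        (fun i x => F ε s q (ν (i + 1) x)) p (fun x hx => by
          have := hF ε (p + 1) x (by omega) (hple x hx)
          simpa using this)
      rw [h3, c2_msum_mul]
    simp only [Nat.add_sub_cancel] at hFa
    have hnu : ∑ i ∈ range (p + 1), ν i a₀ = ∑ i ∈ range p, ν (i + 1) a₀ + ν 0 a₀ :=
      Finset.sum_range_succ' (fun i => ν i a₀) p
    have hsumS : ∑ i ∈ range p, F ε (s + 1) (q + 1) (M (i + 1)) ≤
        ∑ i ∈ range p, ν (i + 1) a₀ + ε * ∑ i ∈ range p, F ε s q (ν (i + 1) a₀) +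
          ∑ i ∈ range p, (l.map (fun x => F ε s q (ν (i + 1) x))).sum := by
      rw [Finset.mul_sum, ← Finset.sum_add_distrib, ← Finset.sum_add_distrib]
      exact Finset.sum_le_sum (fun i _ => hS (i + 1))
    have hS0 := Nat.mul_le_mul_left ε (hS 0)
    have hβ00 := hβ0 a₀
    have hc2 : ∀ (a : ℕ) (m : Multiset ℕ), cost ε (q + 2) (s + 2) a m =
        a + ε * F ε (s + 1) (q + 1) a + (m.map (F ε (s + 1) (q + 1))).sum := fun _ _ => rfl
    rw [hc2, hc2, Multiset.map_map]
    have hl2 : ((Multiset.range p).map (F ε (s + 1) (q + 1) ∘ fun i => M (i + 1))).sum =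
        ∑ i ∈ range p, F ε (s + 1) (q + 1) (M (i + 1)) := rfl
    rw [hl2, hFl, hFa]
    have hM0 : M 0 = νe a₀ + ν 0 a₀ + (l.map (ν 0)).sum := by
      simp only [hM]; rw [hβ00]
    rw [hnu] at hsuma
    generalize ∑ i ∈ range p, F ε (s + 1) (q + 1) (M (i + 1)) = z1 at *
    generalize ∑ i ∈ range p, ν (i + 1) a₀ = z2 at *
    generalize ∑ i ∈ range p, F ε s q (ν (i + 1) a₀) = z3 at *
    generalize ∑ i ∈ range p, (l.map (fun x => F ε s q (ν (i + 1) x))).sum = z4 at *
    generalize F ε (s + 1) (q + 1) (M 0) = z5 at *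
    generalize (l.map (fun x => F ε s q (ν 0 x))).sum = z6 at *
    generalize (l.map (ν 0)).sum = z7 at *
    generalize F ε s q (ν 0 a₀) = z8 at *
    rw [hM0]
    have h9 : a₀ + ε * (ν 0 a₀ + ε * z8 + z3) + (z7 + ε * z6 + z4) =
        (νe a₀ + (z2 + ν 0 a₀)) + ε * (ν 0 a₀ + ε * z8 + z3) + (z7 + ε * z6 + z4) := by
      rw [← hsuma]
    rw [h9]
    nlinarith

end FlagB
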