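import Pool.Agent.Lib.MP_4a7d3d_co.FB.LkAv

/-!
# FB-ClSplit: cliques and vertices.
Unfold `cl`, `nb`, `lk`, `av`.
-/

set_option autoImplicit false

namespace FlagB

open Finset Polynomial

variable {V : Type*} [DecidableEq V]

theorem mem_cl {G : SimpleGraph V} {W : Finset V} {s : ℕ} {A : Finset V} :
    A ∈ cl G W s ↔ A ⊆ W ∧ A.card = s ∧ G.IsClique (A : Set V) := by
  classical
  unfold cl
  simp only [Finset.mem_filter, Finset.mem_powersetCard, and_assoc]

theorem mem_nb {G : SimpleGraph V} {W : Finset V} {v u : V} :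
    u ∈ nb G W v ↔ u ∈ W ∧ G.Adj v u := by
  classical
  unfold nb
  simp only [Finset.mem_filter]

theorem mem_av {v : V} {𝒜 : Finset (Finset V)} {A : Finset V} :
    A ∈ av v 𝒜 ↔ A ∈ 𝒜 ∧ v ∉ A := by
  unfold av
  rw [Finset.mem_filter]

theorem cl_zero (G : SimpleGraph V) (W : Finset V) : cl G W 0 = {∅} := by
  ext A
  rw [mem_cl, Finset.mem_singleton, Finset.card_eq_zero]
  constructor
  · rintro ⟨_, h, _⟩; exact h
  · rintro rfl
    refine ⟨Finset.empty_subset _, rfl, ?_⟩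
    rw [Finset.coe_empty]
    exact Set.pairwise_empty _

theorem cl_mono (G : SimpleGraph V) {W W' : Finset V} (h : W ⊆ W') (s : ℕ) :
    cl G W s ⊆ cl G W' s := by
  intro A hA
  rw [mem_cl] at hA ⊢
  exact ⟨hA.1.trans h, hA.2⟩

theorem isClique_insert_iff' {G : SimpleGraph V} {v : V} {A : Finset V} (hv : v ∉ A) :
    G.IsClique ((insert v A : Finset V) : Set V) ↔
      G.IsClique (A : Set V) ∧ ∀ u ∈ A, G.Adj v u := by
  rw [Finset.coe_insert, SimpleGraph.isClique_insert]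
  constructor
  · rintro ⟨h1, h2⟩
    refine ⟨h1, fun u hu => h2 u hu ?_⟩
    rintro rfl; exact hv hu
  · rintro ⟨h1, h2⟩
    exact ⟨h1, fun u hu _ => h2 u hu⟩

theorem lk_cl (G : SimpleGraph V) {W : Finset V} {v : V} (hv : v ∈ W) (s : ℕ) :
    lk v (cl G W (s + 1)) = cl G (nb G W v) s := by
  ext A
  rw [mem_lk, mem_cl, mem_cl]
  constructor
  · rintro ⟨hvA, hsub, hcard, hcl⟩
    rw [Finset.card_insert_of_notMem hvA] at hcard
    rw [isClique_insert_iff' hvA] at hcl
    refine ⟨fun u hu => ?_, Nat.succ_injective hcard, hcl.1⟩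
    rw [mem_nb]
    exact ⟨hsub (Finset.mem_insert_of_mem hu), hcl.2 u hu⟩
  · rintro ⟨hsub, hcard, hcl⟩
    have hadj : ∀ u ∈ A, G.Adj v u := fun u hu => (mem_nb.1 (hsub hu)).2
    have hvA : v ∉ A := fun h => G.loopless.irrefl v (hadj v h)
    refine ⟨hvA, ?_, ?_, ?_⟩
    · intro u hu
      rcases Finset.mem_insert.1 hu with rfl | hu
      · exact hv
      · exact (mem_nb.1 (hsub hu)).1
    · rw [Finset.card_insert_of_notMem hvA, hcard]
    · rw [isClique_insert_iff' hvA]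
      exact ⟨hcl, hadj⟩

theorem av_cl (G : SimpleGraph V) (W : Finset V) (v : V) (s : ℕ) :
    av v (cl G W s) = cl G (W.erase v) s := by
  ext A
  rw [mem_av, mem_cl, mem_cl]
  constructor
  · rintro ⟨⟨h1, h2, h3⟩, h4⟩
    refine ⟨fun u hu => Finset.mem_erase.2 ⟨?_, h1 hu⟩, h2, h3⟩
    rintro rfl; exact h4 hu
  · rintro ⟨h1, h2, h3⟩
    refine ⟨⟨h1.trans (Finset.erase_subset _ _), h2, h3⟩, fun h => ?_⟩
    exact Finset.notMem_erase v W (h1 h)

theorem card_cl_succ (G : SimpleGraph V) {W : Finset V} {v : V} (hv : v ∈ W) (s : ℕ) :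
    (cl G W (s + 1)).card = (cl G (W.erase v) (s + 1)).card + (cl G (nb G W v) s).card := by
  rw [card_split_vertex v (cl G W (s + 1)), av_cl, lk_cl G hv]

theorem cl_nb_empty (G : SimpleGraph V) {W : Finset V} {v : V} (hv : v ∈ W) {q : ℕ}
    (h : cl G W (q + 1) = ∅) : cl G (nb G W v) q = ∅ := by
  have h1 := card_cl_succ G hv q
  rw [h, Finset.card_empty] at h1
  exact Finset.card_eq_zero.1 (by omega)

end FlagB
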