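import Pool.Agent.Lib.MP_4a7d3d_co.FB.Defs

/-!
# FB-TRec (0.7 h): the two recursions of `t`.
Proof. For `q >= 2` write `n = q j + r` with `0 <= r < q`. The polynomial of `n + 1` is
`(1+(j+1)X)^(r+1) (1+jX)^(q-r-1)` (also if `r + 1 = q`: then it is `(1+(j+1)X)^q`, the polynomial of
`q (j+1)`). Hence the difference of the polynomials for `n+1` and `n` is
`X (1+(j+1)X)^r (1+jX)^(q-1-r)` and `n - n/q = (q-1) j + r` with `0 <= r <= q-1`, so that this is
`X` times the polynomial of `n - n/q` for `q - 1` colours (again `r = q-1` gives `(1+(j+1)X)^(q-1)`, consistent).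
For `q = 1`: `t 1 0 n = 1`, `t 1 1 n = n`, `t 1 s n = 0` for `s >= 2`.
`t_class`: `N = (q-1)(p-1) + r` with `0 <= r <= q-1`; the polynomial of `N` for `q-1` colours is
`(1+pX)^r (1+(p-1)X)^(q-1-r)`; `N + p = q (p-1) + r + 1` and its polynomial for `q` colours is
`(1+pX)^(r+1) (1+(p-1)X)^(q-1-r)`, i.e. `(1+pX)` times the former. Useful helper: for `r <= q`, `q >= 1`:
`t q s (q*j+r) = coeff s ((1+(j+1)X)^r (1+jX)^(q-r))` (including `r = q`).
-/

set_option autoImplicit false

namespace FlagB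

open Finset Polynomial

theorem t_formula (q s j r : ℕ) (hq : 1 ≤ q) (hr : r ≤ q) :
    t q s (q * j + r) = (((1 + Polynomial.C (j + 1) * X) ^ r *
      (1 + Polynomial.C j * X) ^ (q - r) : ℕ[X])).coeff s := by
  have hq0 : q ≠ 0 := by omega
  unfold t
  rw [if_neg hq0]
  rcases Nat.lt_or_ge r q with h | h
  · have h1 : (q * j + r) / q = j := by
      rw [Nat.mul_add_div (by omega), Nat.div_eq_of_lt h]; simp
    have h2 : (q * j + r) % q = r := by
      rw [Nat.mul_add_mod, Nat.mod_eq_of_lt h]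
    rw [h1, h2]
  · have hrq : r = q := le_antisymm hr h
    subst hrq
    have h1 : (r * j + r) / r = j + 1 := by
      rw [Nat.mul_add_div (by omega), Nat.div_self (by omega)]
    have h2 : (r * j + r) % r = 0 := by
      rw [Nat.mul_add_mod, Nat.mod_self]
    rw [h1, h2]
    simp

theorem t_succ (q s n : ℕ) (hq : 1 ≤ q) :
    t q (s + 1) (n + 1) = t q (s + 1) n + t (q - 1) s (n - n / q) := by
  rcases Nat.lt_or_ge 1 q with h2 | h2
  · obtain ⟨j, r, hr, hn⟩ : ∃ j r : ℕ, r < q ∧ n = q * j + r :=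
      ⟨n / q, n % q, Nat.mod_lt _ (by omega), (Nat.div_add_mod n q).symm⟩
    have hdiv : n / q = j := by
      rw [hn, Nat.mul_add_div (by omega), Nat.div_eq_of_lt hr]; simp
    have hsub : n - n / q = (q - 1) * j + r := by
      rw [hdiv, hn]
      obtain ⟨q', rfl⟩ : ∃ q', q = q' + 1 := ⟨q - 1, by omega⟩
      have e : (q' + 1) * j = q' * j + j := by ring
      rw [e, Nat.add_sub_cancel]
      omega
    rw [hsub]
    have e1 : n + 1 = q * j + (r + 1) := by rw [hn]; ring
    rw [e1, hn, t_formula q (s + 1) j (r + 1) hq (by omega), t_formula q (s + 1) j r hq (by omega),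
      t_formula (q - 1) s j r (by omega) (by omega)]
    have e2 : q - r = (q - 1 - r) + 1 := by omega
    have e3 : q - (r + 1) = q - 1 - r := by omega
    rw [e2, e3]
    have key : ((1 + Polynomial.C (j + 1) * X) ^ (r + 1) *
        (1 + Polynomial.C j * X) ^ (q - 1 - r) : ℕ[X]) =
        (1 + Polynomial.C (j + 1) * X) ^ r * (1 + Polynomial.C j * X) ^ (q - 1 - r + 1) +
        ((1 + Polynomial.C (j + 1) * X) ^ r * (1 + Polynomial.C j * X) ^ (q - 1 - r)) * X := by
      rw [pow_succ, pow_succ, Polynomial.C_add, Polynomial.C_1]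
      ring
    rw [key, Polynomial.coeff_add, Polynomial.coeff_mul_X]
  · have hq1 : q = 1 := by omega
    subst hq1
    have e1 : n + 1 = 1 * n + 1 := by ring
    have e0 : t 1 (s + 1) n = t 1 (s + 1) (1 * n + 0) := by rw [one_mul, add_zero]
    rw [e0, e1, t_formula 1 (s + 1) n 1 le_rfl le_rfl, t_formula 1 (s + 1) n 0 le_rfl (by omega)]
    have ez : n + 0 = n := rfl
    simp only [Nat.sub_self, Nat.sub_zero, pow_one, pow_zero, mul_one, one_mul]
    have : t 0 s (n - n / 1) = if s = 0 then 1 else 0 := by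
      unfold t; simp
    rw [Nat.div_one] at this
    rw [Nat.div_one, this]
    rcases Nat.eq_zero_or_pos s with h | h
    · subst h
      simp [Polynomial.coeff_one, Polynomial.coeff_C_mul]
    · have hs : s ≠ 0 := by omega
      have hX : (X : ℕ[X]).coeff (s + 1) = 0 := by
        rw [Polynomial.coeff_X]; simp; omega
      rw [Polynomial.coeff_add, Polynomial.coeff_add, Polynomial.coeff_C_mul,
        Polynomial.coeff_C_mul, hX, Polynomial.coeff_one]
      simp [hs]

theorem t_class (q s N p : ℕ) (hq : 1 ≤ q) (hp : 1 ≤ p) (h1 : (q - 1) * (p - 1) ≤ N)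
    (h2 : N ≤ (q - 1) * p) :
    t q (s + 1) (N + p) = t (q - 1) (s + 1) N + p * t (q - 1) s N := by
  obtain ⟨j, rfl⟩ : ∃ j, p = j + 1 := ⟨p - 1, by omega⟩
  obtain ⟨q', rfl⟩ : ∃ q', q = q' + 1 := ⟨q - 1, by omega⟩
  simp only [Nat.add_sub_cancel] at h1 h2 ⊢
  obtain ⟨r, hr⟩ : ∃ r, N = q' * j + r := ⟨N - q' * j, by omega⟩
  have hrq : r ≤ q' := by
    rw [hr] at h2
    have : q' * (j + 1) = q' * j + q' := by ring
    omega
  have e1 : N + (j + 1) = (q' + 1) * j + (r + 1) := by rw [hr]; ring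
  rw [e1, t_formula (q' + 1) (s + 1) j (r + 1) (by omega) (by omega)]
  have e3 : q' + 1 - (r + 1) = q' - r := by omega
  rw [e3]
  have key : ((1 + Polynomial.C (j + 1) * X) ^ (r + 1) *
        (1 + Polynomial.C j * X) ^ (q' - r) : ℕ[X]) =
        (1 + Polynomial.C (j + 1) * X) ^ r * (1 + Polynomial.C j * X) ^ (q' - r) +
        Polynomial.C (j + 1) *
        (((1 + Polynomial.C (j + 1) * X) ^ r * (1 + Polynomial.C j * X) ^ (q' - r)) * X) := by
      rw [pow_succ]
      ring
  rw [key, Polynomial.coeff_add, Polynomial.coeff_C_mul, Polynomial.coeff_mul_X]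
  rcases Nat.eq_zero_or_pos q' with h0 | h0
  · subst h0
    have hr0 : r = 0 := by omega
    subst hr0
    simp only [pow_zero, mul_one, Nat.sub_self, zero_mul, zero_add] at *
    unfold t
    simp [Polynomial.coeff_one]
  · rw [hr, t_formula q' (s + 1) j r h0 hrq, t_formula q' s j r h0 hrq]

end FlagB
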