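import Pool.Agent.Lib.MP_4a7d3d_co.FB.TBasic
import Pool.Agent.Lib.MP_4a7d3d_co.FB.TRec

/-!
# FB-CountAll (0.9 h): counting all rainbow sets below `u`.
`mem_allRb`: unfold. `ini_allRb`: if `B < A` in colex, then every element of `B` is below `u` too
(`Finset.Colex.forall_lt_mono`). `rC_eq`: the vertices below `u = Q*(u/Q) + u%Q` with colour in `C` are `C.card` in each full
block `[Qi, Qi+Q)` and `#{c in C, c < u%Q}` in the last one. `rC_erase`: for `u % Q ∈ C`, the number of `c ∈ C` with `c < u%Q` is
`< C.card`, so `rC / C.card = u / Q`; erasing the colour `u%Q` removes `u/Q` vertices.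
`card_allRb`: induction on `u` for all `C`, `s`: rainbow `(s+1)`-sets below `u+1` are those below `u` plus (if `u%Q ∈ C`) the
sets `insert u G`, `G` rainbow `s`-set for `C.erase (u%Q)` below `u`; use `rC_succ`, `rC_erase`, `t_succ`, `t_zero`, `t_lt`.
-/

set_option autoImplicit false

namespace FlagB

open Finset Polynomial

theorem mem_allRb {Q : ℕ} {C : Finset ℕ} {s u : ℕ} {A : Finset ℕ} :
    A ∈ allRb Q C s u ↔ Rb Q C s A ∧ ∀ v ∈ A, v < u := by
  classical
  unfold allRb
  rw [Finset.mem_filter, Finset.mem_powersetCard]
  constructor
  · rintro ⟨⟨h1, h2⟩, h3⟩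
    exact ⟨h3, fun v hv => Finset.mem_range.1 (h1 hv)⟩
  · rintro ⟨h1, h2⟩
    exact ⟨⟨fun v hv => Finset.mem_range.2 (h2 v hv), h1.1⟩, h1⟩

theorem ini_allRb (Q : ℕ) (C : Finset ℕ) (s u : ℕ) : Ini Q C s (allRb Q C s u) := by
  constructor
  · intro A hA
    exact (mem_allRb.1 hA).1
  · intro A hA B hB hlt
    rw [mem_allRb] at hA ⊢
    exact ⟨hB, Finset.Colex.forall_lt_mono hlt.le hA.2⟩

theorem rC_succ (Q : ℕ) (C : Finset ℕ) (u : ℕ) :
    rC Q C (u + 1) = rC Q C u + (if u % Q ∈ C then 1 else 0) := by
  unfold rC
  rw [Finset.range_add_one, Finset.filter_insert]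
  split_ifs with h
  · rw [Finset.card_insert_of_notMem]
    simp
  · rfl

private theorem rC_zero (Q : ℕ) (C : Finset ℕ) : rC Q C 0 = 0 := by
  simp [rC]

theorem rC_eq (Q : ℕ) (C : Finset ℕ) (hC : C ⊆ range Q) (u : ℕ) :
    rC Q C u = C.card * (u / Q) + (C.filter (fun c => c < u % Q)).card := by
  rcases Nat.eq_zero_or_pos Q with hQ | hQ
  · subst hQ
    have : C = ∅ := by simpa using hC
    subst this
    simp [rC]
  induction u with
  | zero => simp [rC_zero]
  | succ u ih =>
    rw [rC_succ, ih]
    have hlt := Nat.mod_lt u hQ
    by_cases hlast : u % Q + 1 = Q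
    · -- next block
      have h1 : (u + 1) / Q = u / Q + 1 := by
        have h2 : u + 1 = Q * (u / Q + 1) := by
          have := Nat.div_add_mod u Q
          calc u + 1 = Q * (u / Q) + u % Q + 1 := by rw [this]
            _ = Q * (u / Q) + (u % Q + 1) := by ring
            _ = Q * (u / Q + 1) := by rw [hlast]; ring
        rw [h2, Nat.mul_div_cancel_left _ hQ]
      have h3 : (u + 1) % Q = 0 := by
        have h2 : u + 1 = Q * (u / Q + 1) := by
          have := Nat.div_add_mod u Q
          calc u + 1 = Q * (u / Q) + u % Q + 1 := by rw [this]
            _ = Q * (u / Q) + (u % Q + 1) := by ring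
            _ = Q * (u / Q + 1) := by rw [hlast]; ring
        rw [h2, Nat.mul_mod_right]
      rw [h1, h3]
      have h4 : (C.filter (fun c => c < u % Q)).card + (if u % Q ∈ C then 1 else 0) = C.card := by
        have h5 : C = C.filter (fun c => c < u % Q) ∪ C.filter (fun c => c = u % Q) := by
          ext c
          simp only [Finset.mem_union, Finset.mem_filter]
          constructor
          · intro hc
            have := Finset.mem_range.1 (hC hc)
            rcases Nat.lt_or_ge c (u % Q) with h | h
            · exact Or.inl ⟨hc, h⟩
            · exact Or.inr ⟨hc, by omega⟩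
          · rintro (h | h)
            · exact h.1
            · exact h.1
        have h6 : C.card = (C.filter (fun c => c < u % Q)).card
            + (C.filter (fun c => c = u % Q)).card := by
          conv_lhs => rw [h5]
          apply Finset.card_union_of_disjoint
          rw [Finset.disjoint_left]
          intro c hc1 hc2
          simp only [Finset.mem_filter] at hc1 hc2
          omega
        have h7 : (C.filter (fun c => c = u % Q)).card = if u % Q ∈ C then 1 else 0 := by
          rw [Finset.filter_eq']
          split_ifs <;> simp
        rw [h6, h7]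
      have h8 : (C.filter (fun c => c < 0)).card = 0 := by simp
      rw [h8, add_assoc, h4]
      ring
    · have hlt2 : u % Q + 1 < Q := by omega
      have h1 : (u + 1) / Q = u / Q := by
        have := Nat.div_add_mod u Q
        have h2 : u + 1 = Q * (u / Q) + (u % Q + 1) := by omega
        rw [h2, Nat.mul_add_div hQ, Nat.div_eq_of_lt hlt2]
        rfl
      have h3 : (u + 1) % Q = u % Q + 1 := by
        have := Nat.div_add_mod u Q
        have h2 : u + 1 = Q * (u / Q) + (u % Q + 1) := by omega
        rw [h2, Nat.mul_add_mod, Nat.mod_eq_of_lt hlt2]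
      rw [h1, h3]
      have h4 : (C.filter (fun c => c < u % Q + 1)).card
          = (C.filter (fun c => c < u % Q)).card + (if u % Q ∈ C then 1 else 0) := by
        have h5 : C.filter (fun c => c < u % Q + 1)
            = C.filter (fun c => c < u % Q) ∪ C.filter (fun c => c = u % Q) := by
          ext c
          simp only [Finset.mem_union, Finset.mem_filter]
          constructor
          · rintro ⟨hc, h⟩
            rcases Nat.lt_or_ge c (u % Q) with h | h
            · exact Or.inl ⟨hc, h⟩
            · exact Or.inr ⟨hc, by omega⟩
          · rintro (h | h)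
            · exact ⟨h.1, by omega⟩
            · exact ⟨h.1, by omega⟩
        rw [h5, Finset.card_union_of_disjoint, Finset.filter_eq']
        · congr 1
          split_ifs <;> simp
        · rw [Finset.disjoint_left]
          intro c hc1 hc2
          simp only [Finset.mem_filter] at hc1 hc2
          omega
      rw [h4]
      ring

theorem rC_erase (Q : ℕ) (C : Finset ℕ) (hC : C ⊆ range Q) (u : ℕ) (hu : u % Q ∈ C) :
    rC Q (C.erase (u % Q)) u = rC Q C u - rC Q C u / C.card := by
  have hcpos : 0 < C.card := Finset.card_pos.2 ⟨_, hu⟩
  have hlt : (C.filter (fun c => c < u % Q)).card < C.card := by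
    apply Finset.card_lt_card
    rw [Finset.ssubset_iff_of_subset (Finset.filter_subset _ _)]
    exact ⟨u % Q, hu, by simp⟩
  have h1 : rC Q C u / C.card = u / Q := by
    rw [rC_eq Q C hC u, Nat.mul_add_div hcpos, Nat.div_eq_of_lt hlt]
    simp
  rw [h1, rC_eq Q C hC u, rC_eq Q (C.erase (u % Q)) ((Finset.erase_subset _ _).trans hC) u,
    Finset.card_erase_of_mem hu]
  have h2 : (C.erase (u % Q)).filter (fun c => c < u % Q) = C.filter (fun c => c < u % Q) := by
    ext c
    simp only [Finset.mem_filter, Finset.mem_erase]
    constructor
    · rintro ⟨⟨_, h⟩, h'⟩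
      exact ⟨h, h'⟩
    · rintro ⟨h, h'⟩
      exact ⟨⟨by omega, h⟩, h'⟩
  rw [h2]
  obtain ⟨k, hk⟩ : ∃ k, C.card = k + 1 := ⟨C.card - 1, by omega⟩
  rw [hk]
  simp only [Nat.add_sub_cancel]
  have : (k + 1) * (u / Q) = k * (u / Q) + u / Q := by ring
  omega

theorem rC_mul (Q : ℕ) (C : Finset ℕ) (hC : C ⊆ range Q) (p : ℕ) :
    rC Q C (p * Q) = p * C.card := by
  rcases Nat.eq_zero_or_pos Q with hQ | hQ
  · subst hQ
    have : C = ∅ := by simpa using hC
    subst this
    simp [rC]
  rw [rC_eq Q C hC, Nat.mul_div_cancel _ hQ, Nat.mul_mod_left]
  simp [mul_comm]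

private theorem rC_le_self (Q : ℕ) (C : Finset ℕ) (u : ℕ) : rC Q C u ≤ u := by
  unfold rC
  calc _ ≤ (range u).card := Finset.card_filter_le _ _
    _ = u := Finset.card_range u

theorem card_allRb (Q : ℕ) (C : Finset ℕ) (hC : C ⊆ range Q) (s u : ℕ) :
    (allRb Q C s u).card = t C.card s (rC Q C u) := by
  induction u generalizing C s with
  | zero =>
    rw [rC_zero]
    rcases Nat.eq_zero_or_pos s with hs | hs
    · subst hs
      rw [t_zero]
      rw [Finset.card_eq_one]
      refine ⟨∅, ?_⟩
      ext A
      rw [mem_allRb, Finset.mem_singleton]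
      constructor
      · rintro ⟨h, _⟩
        exact Finset.card_eq_zero.1 h.1
      · rintro rfl
        exact ⟨⟨by simp, by simp, by simp⟩, by simp⟩
    · rw [t_lt _ _ _ hs, Finset.card_eq_zero, Finset.eq_empty_iff_forall_notMem]
      intro A hA
      rw [mem_allRb] at hA
      have : A = ∅ := by
        rw [Finset.eq_empty_iff_forall_notMem]
        intro v hv
        exact absurd (hA.2 v hv) (by omega)
      have h2 := hA.1.1
      rw [this] at h2
      simp at h2
      omega
  | succ u ih =>
    cases s with
    | zero =>
      rw [t_zero]
      rw [Finset.card_eq_one]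
      refine ⟨∅, ?_⟩
      ext A
      rw [mem_allRb, Finset.mem_singleton]
      constructor
      · rintro ⟨h, _⟩
        exact Finset.card_eq_zero.1 h.1
      · rintro rfl
        exact ⟨⟨by simp, by simp, by simp⟩, by simp⟩
    | succ s =>
      rw [rC_succ]
      by_cases hu : u % Q ∈ C
      · rw [if_pos hu]
        have hcpos : 1 ≤ C.card := Finset.card_pos.2 ⟨_, hu⟩
        rw [t_succ _ _ _ hcpos, ← ih C hC (s + 1)]
        have h1 := ih (C.erase (u % Q)) ((Finset.erase_subset _ _).trans hC) s
        rw [rC_erase Q C hC u hu, Finset.card_erase_of_mem hu] at h1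
        rw [← h1]
        have hdec : allRb Q C (s + 1) (u + 1) = allRb Q C (s + 1) u
            ∪ (allRb Q (C.erase (u % Q)) s u).image (insert u) := by
          ext A
          rw [Finset.mem_union, Finset.mem_image, mem_allRb, mem_allRb]
          constructor
          · rintro ⟨h1, h2⟩
            by_cases huA : u ∈ A
            · right
              refine ⟨A.erase u, ?_, Finset.insert_erase huA⟩
              rw [mem_allRb]
              refine ⟨⟨?_, ?_, ?_⟩, ?_⟩
              · rw [Finset.card_erase_of_mem huA, h1.1]; rfl
              · intro v hv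
                rw [Finset.mem_erase] at hv
                rw [Finset.mem_erase]
                refine ⟨?_, h1.2.1 v hv.2⟩
                intro hcon
                exact hv.1 (h1.2.2 v hv.2 u huA hcon)
              · intro v hv v' hv' hvv
                exact h1.2.2 v (Finset.mem_of_mem_erase hv) v' (Finset.mem_of_mem_erase hv') hvv
              · intro v hv
                rw [Finset.mem_erase] at hv
                have := h2 v hv.2
                omega
            · left
              refine ⟨h1, fun v hv => ?_⟩
              have := h2 v hv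
              have : v ≠ u := fun h => huA (h ▸ hv)
              omega
          · rintro (⟨h1, h2⟩ | ⟨G, hG, rfl⟩)
            · exact ⟨h1, fun v hv => by have := h2 v hv; omega⟩
            · rw [mem_allRb] at hG
              obtain ⟨hG1, hG2⟩ := hG
              have huG : u ∉ G := fun h => absurd (hG2 u h) (lt_irrefl _)
              have hcol : ∀ v ∈ G, v % Q ≠ u % Q := by
                intro v hv
                exact (Finset.mem_erase.1 (hG1.2.1 v hv)).1
              refine ⟨⟨?_, ?_, ?_⟩, ?_⟩
              · rw [Finset.card_insert_of_notMem huG, hG1.1]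
              · intro v hv
                rcases Finset.mem_insert.1 hv with rfl | hv
                · exact hu
                · exact Finset.mem_of_mem_erase (hG1.2.1 v hv)
              · intro v hv v' hv' hvv
                rcases Finset.mem_insert.1 hv with hvu | hv1
                · rcases Finset.mem_insert.1 hv' with hvu' | hv1'
                  · rw [hvu, hvu']
                  · exact absurd (hvv.symm.trans (by rw [hvu])) (hcol v' hv1')
                · rcases Finset.mem_insert.1 hv' with hvu' | hv1'
                  · exact absurd (hvv.trans (by rw [hvu'])) (hcol v hv1)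
                  · exact hG1.2.2 v hv1 v' hv1' hvv
              · intro v hv
                rcases Finset.mem_insert.1 hv with rfl | hv
                · omega
                · have := hG2 v hv
                  omega
        rw [hdec, Finset.card_union_of_disjoint, Finset.card_image_of_injOn]
        · intro G hG G' hG' hGG
          rw [Finset.mem_coe, mem_allRb] at hG hG'
          have huG : u ∉ G := fun h => absurd (hG.2 u h) (lt_irrefl _)
          have huG' : u ∉ G' := fun h => absurd (hG'.2 u h) (lt_irrefl _)
          have : (insert u G).erase u = (insert u G').erase u := by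
            have h3 : insert u G = insert u G' := hGG
            rw [h3]
          rwa [Finset.erase_insert huG, Finset.erase_insert huG'] at this
        · rw [Finset.disjoint_left]
          intro A hA hA'
          rw [mem_allRb] at hA
          rw [Finset.mem_image] at hA'
          obtain ⟨G, _, rfl⟩ := hA'
          exact absurd (hA.2 u (Finset.mem_insert_self _ _)) (lt_irrefl _)
      · rw [if_neg hu, add_zero, ← ih C hC (s + 1)]
        congr 1
        ext A
        rw [mem_allRb, mem_allRb]
        constructor
        · rintro ⟨h1, h2⟩
          refine ⟨h1, fun v hv => ?_⟩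
          have := h2 v hv
          have : v ≠ u := fun h => hu (h ▸ h1.2.1 v hv)
          omega
        · rintro ⟨h1, h2⟩
          exact ⟨h1, fun v hv => by have := h2 v hv; omega⟩

end FlagB
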