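import Pool.Agent.Lib.MP_4a7d3d_co.FB.CDefs

/-!
# FB: definitions for MP_4a7d3d_co

`(f, beta)`-vectors of flag complexes are `(f, beta)`-vectors of balanced complexes.

The colour of the vertex `v : ℕ` is `v % Q`; the colour set `C` is a subset of `range Q`; the
vertex `c < Q` is the first vertex of colour `c`.
-/

set_option autoImplicit false

namespace FlagB

open Finset Polynomial

/-! ### Numbers -/

/-- Number of rainbow `s`-sets in `n` vertices coloured cyclically with `q` colours. -/
noncomputable def t (q s n : ℕ) : ℕ :=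
  if q = 0 then (if s = 0 then 1 else 0)
  else (((1 + Polynomial.C (n / q + 1) * X) ^ (n % q) *
    (1 + Polynomial.C (n / q) * X) ^ (q - n % q) : ℕ[X])).coeff s

/-- Number of rainbow `s`-sets whose last vertex is the vertex number `n` (counted from `0`). -/
noncomputable def D (q s n : ℕ) : ℕ := t (q - 1) (s - 1) (n - n / q)

/-- The weight of a set with `k` marked vertices (`ε = 1`: the number `k` itself; `ε = 0`: the
indicator of `k ≥ 1`). -/
def w (ε : ℕ) : ℕ → ℕ
  | 0 => 0
  | (k + 1) => 1 + ε * w ε k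

/-- `F ε s q m`: the total weight of the first `m` rainbow `s`-sets with `q` colours
(`ε = 1`: size of the shadow; `ε = 0`: rank of the boundary map). -/
noncomputable def F (ε : ℕ) : ℕ → ℕ → ℕ → ℕ
  | 0, _, _ => 0
  | (s + 1), q, m => (if m = 0 then 0 else w ε (s + 1)) +
      ∑ i ∈ range m, F ε s (q - 1) (min (m - t q (s + 1) (i + s + 1)) (D q (s + 1) (i + s + 1)))

/-- `b` sets of size `s` with `q` colours may have a shadow of size at most `a`. -/
def Adm (q s b a : ℕ) : Prop := b = 0 ∨ (s ≤ q ∧ F 1 s q b ≤ a)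

/-- The cost of the structure with first row `a₀` and other rows `l`. -/
noncomputable def cost (ε q s a₀ : ℕ) (l : Multiset ℕ) : ℕ :=
  a₀ + ε * F ε (s - 1) (q - 1) a₀ + (l.map (F ε (s - 1) (q - 1))).sum

/-- The main numerical inequality. -/
def SClaim (ε q s : ℕ) : Prop :=
  ∀ (a₀ b : ℕ) (l : Multiset ℕ), Adm (q - 1) s b a₀ → (∀ x ∈ l, x ≤ a₀) →
    F ε s q (b + a₀ + l.sum) ≤ cost ε q s a₀ l

/-! ### Rainbow sets -/

/-- rainbow `s`-sets with colours in `C`. -/
def Rb (Q : ℕ) (C : Finset ℕ) (s : ℕ) (A : Finset ℕ) : Prop :=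
  A.card = s ∧ (∀ v ∈ A, v % Q ∈ C) ∧ (∀ u ∈ A, ∀ v ∈ A, u % Q = v % Q → u = v)

/-- initial family of rainbow `s`-sets (for the colex order). -/
def Ini (Q : ℕ) (C : Finset ℕ) (s : ℕ) (𝒜 : Finset (Finset ℕ)) : Prop :=
  (∀ A ∈ 𝒜, Rb Q C s A) ∧
    ∀ A ∈ 𝒜, ∀ B, Rb Q C s B → toColex B < toColex A → B ∈ 𝒜

/-- the link of `y`. -/
def lk {V : Type*} [DecidableEq V] (y : V) (𝒜 : Finset (Finset V)) : Finset (Finset V) :=
  (𝒜.filter (fun A => y ∈ A)).image (fun A => A.erase y)

/-- the sets avoiding the vertex `y`. -/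
def av {V : Type*} [DecidableEq V] (y : V) (𝒜 : Finset (Finset V)) : Finset (Finset V) :=
  𝒜.filter (fun A => y ∉ A)

/-- the sets avoiding the colour `c`. -/
def avc (Q c : ℕ) (𝒜 : Finset (Finset ℕ)) : Finset (Finset ℕ) :=
  𝒜.filter (fun A => ∀ v ∈ A, v % Q ≠ c)

/-- the set of all rainbow `s`-sets inside `{0, ..., u - 1}`. -/
noncomputable def allRb (Q : ℕ) (C : Finset ℕ) (s u : ℕ) : Finset (Finset ℕ) := by
  classical
  exact ((range u).powersetCard s).filter (fun A => Rb Q C s A)

/-- number of vertices below `u` with colour in `C`. -/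
def rC (Q : ℕ) (C : Finset ℕ) (u : ℕ) : ℕ := ((range u).filter (fun v => v % Q ∈ C)).card

/-- the marked vertices of `A`: the first vertices `c ∈ A` of a colour `c ∈ C` such that all
smaller colours of `C` are present in `A`. -/
def mk (Q : ℕ) (C A : Finset ℕ) : Finset ℕ :=
  C.filter (fun c => c ∈ A ∧ ∀ c' ∈ C, c' < c → ∃ v ∈ A, v % Q = c')

/-- number of marked vertices. -/
def mu (Q : ℕ) (C A : Finset ℕ) : ℕ := (mk Q C A).card

/-- the colours of `C` missing in `A`. -/
def miss (Q : ℕ) (C A : Finset ℕ) : Finset ℕ := C.filter (fun c => ∀ v ∈ A, v % Q ≠ c)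

/-- the smallest missing colour (`0` if there is none). -/
def c0 (Q : ℕ) (C A : Finset ℕ) : ℕ := if h : (miss Q C A).Nonempty then (miss Q C A).min' h else 0

/-- add the first vertex of the smallest missing colour. -/
def kap (Q : ℕ) (C A : Finset ℕ) : Finset ℕ := insert (c0 Q C A) A

/-- the sets all of whose facets are in `𝒜`. -/
noncomputable def BaseOf (Q : ℕ) (C : Finset ℕ) (s : ℕ) (𝒜 : Finset (Finset ℕ)) : Finset (Finset ℕ) := by
  classical
  exact ((𝒜.sup id).powersetCard s).filter (fun A => Rb Q C s A ∧ ∀ z ∈ A, A.erase z ∈ 𝒜)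

/-! ### Chains, continued -/

section chains2

variable (k : Type*) [Field k] {V : Type*} [LinearOrder V]

/-- insertion of the vertex `v` (with sign). -/
noncomputable def ins (v : V) : (Finset V →₀ k) →ₗ[k] (Finset V →₀ k) :=
  Finsupp.linearCombination k
    (fun A : Finset V => if v ∈ A then 0 else Finsupp.single (insert v A) (sg k v A))

/-- the span of the boundaries of the members of a family. -/
noncomputable def bdSpan (𝒜 : Finset (Finset V)) : Submodule k (Finset V →₀ k) :=
  Submodule.span k ((fun A : Finset V => bd k (Finsupp.single A 1)) '' (𝒜 : Set (Finset V)))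

/-- the rank of the boundary map on a family. -/
noncomputable def rk (𝒜 : Finset (Finset V)) : ℕ := Module.finrank k (bdSpan k 𝒜)

end chains2

/-! ### Cliques -/

section cliques

variable {V : Type*} [DecidableEq V]

/-- the cliques with `s` vertices inside `W`. -/
noncomputable def cl (G : SimpleGraph V) (W : Finset V) (s : ℕ) : Finset (Finset V) := by
  classical
  exact (W.powersetCard s).filter (fun A => G.IsClique (A : Set V))

/-- neighbours of `v` in `W`. -/
noncomputable def nb (G : SimpleGraph V) (W : Finset V) (v : V) : Finset V := by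
  classical
  exact W.filter (fun u => G.Adj v u)

end cliques

end FlagB
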