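import Pool.Agent.Lib.MP_4a7d3d_co.FB.FBlock

/-!
# FB-EIneq (0.9 h): exchange inequality. See the paper, Lemma (E).
Proof. Induction on `s` (all `q, n`); `s = 0`: `F = 0`. For `s >= 1` let `h = F ε (s-1) (q-1)`, `T = t q s n`.
Strong induction on `min x y`; by symmetry let `x <= y`. If `x = 0` or `y = T` both sides agree
(`F_zero`). Otherwise write `x = t k + x'` with `1 <= x' <= D k`, `y = t l + y'` with
`0 <= y' < D l` (`l < n`), `k <= l` (all for `q, s`). Put `δ = min x' (D l - y') >= 1`. Then by (E) for `s-1` with the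
block end `D q s l = t (q-1) (s-1) (l - l/q)` (note `x' <= D k <= D l`)
`h x' + h y' >= h (min (x'+y') (D l)) + h (x'+y' - D l)`, and this gives
`F x + F y >= F (x - δ) + F (y + δ)`:
if `x' + y' <= D l`: `F (x - x') = F (t k)`, `F (y + x') = F(t l) + h (x'+y')`; otherwise `F (x - δ) = F (t k) + h (x'+y'-D l)` and
`F (y+δ) = F (t l) + h (D l)`. Here `F (t l + z) = F (t l) + h z` for `z <= D l` holds by `F_block` if `l >= s`; `l < s`
is impossible unless `y = 0` (then `x = 0`); for `x` use `F_block_le` for `F x >= F (t k) + h x'` and `F_block` for the other one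
(if `k < s` then `k = s-1`, `x = x' = 1`, `x - δ = 0`). Apply the induction hypothesis to `(x - δ, y + δ)`.
-/

set_option autoImplicit false

namespace FlagB

open Finset Polynomial

private theorem EI_find1 (f : ℕ → ℕ) (n y : ℕ) (h0 : f 0 ≤ y) (h : y < f n) :
    ∃ l, l < n ∧ f l ≤ y ∧ y < f (l + 1) := by
  induction n with
  | zero => omega
  | succ n ih =>
    rcases Nat.lt_or_ge y (f n) with h1 | h1
    · obtain ⟨l, hl, h2, h3⟩ := ih h1
      exact ⟨l, by omega, h2, h3⟩
    · exact ⟨n, by omega, h1, h⟩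

private theorem EI_find2 (f : ℕ → ℕ) (n x : ℕ) (h0 : f 0 < x) (h : x ≤ f n) :
    ∃ k, k < n ∧ f k < x ∧ x ≤ f (k + 1) := by
  induction n with
  | zero => omega
  | succ n ih =>
    rcases Nat.lt_or_ge (f n) x with h1 | h1
    · exact ⟨n, by omega, h1, h⟩
    · obtain ⟨l, hl, h2, h3⟩ := ih h1
      exact ⟨l, by omega, h2, h3⟩

/-- one exchange step -/
private theorem EI_step (ε s q n : ℕ) (hs : 1 ≤ s) (hsq : s ≤ q)
    (ih : ∀ m x y : ℕ, x ≤ t (q - 1) (s - 1) m → y ≤ t (q - 1) (s - 1) m →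
      F ε (s - 1) (q - 1) (min (x + y) (t (q - 1) (s - 1) m)) +
        F ε (s - 1) (q - 1) (x + y - t (q - 1) (s - 1) m) ≤
      F ε (s - 1) (q - 1) x + F ε (s - 1) (q - 1) y)
    (x y : ℕ) (hx1 : 1 ≤ x) (hxy : x ≤ y) (hy : y < t q s n) :
    ∃ δ, 1 ≤ δ ∧ δ ≤ x ∧ y + δ ≤ t q s n ∧
      F ε s q (x - δ) + F ε s q (y + δ) ≤ F ε s q x + F ε s q y := by
  have ht0 : t q s 0 = 0 := t_lt q s 0 (by omega)
  obtain ⟨l, hln, hl1, hl2⟩ := EI_find1 (t q s) n y (by rw [ht0]; exact Nat.zero_le _) hy
  obtain ⟨k, hkn, hk1, hk2⟩ := EI_find2 (t q s) n x (by rw [ht0]; omega) (by omega)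
  have hkl : k ≤ l := by
    by_contra hlt
    have h1 : l + 1 ≤ k := by omega
    have h2 := t_mono q s h1
    omega
  have hsl : s ≤ l := by
    by_contra hlt
    have h1 : l + 1 ≤ s := by omega
    have h2 := t_mono q s h1
    rw [t_self q s hsq] at h2
    omega
  have hDk := t_add_D q s k hs (by omega)
  have hDl := t_add_D q s l hs (by omega)
  have hDkl := D_mono q s hkl
  obtain ⟨x', hx'⟩ : ∃ x', x = t q s k + x' := ⟨x - t q s k, by omega⟩
  obtain ⟨y', hy'⟩ : ∃ y', y = t q s l + y' := ⟨y - t q s l, by omega⟩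
  have hx'1 : 1 ≤ x' := by omega
  have hx'D : x' ≤ D q s k := by omega
  have hy'D : y' < D q s l := by omega
  have hln' : t q s (l + 1) ≤ t q s n := t_mono q s (by omega)
  have hih := ih (l - l / q) x' y' (by
      have : D q s l = t (q - 1) (s - 1) (l - l / q) := rfl
      omega) (by
      have : D q s l = t (q - 1) (s - 1) (l - l / q) := rfl
      omega)
  have hDdef : t (q - 1) (s - 1) (l - l / q) = D q s l := rfl
  rw [hDdef] at hih
  have hFy : F ε s q y = F ε s q (t q s l) + F ε (s - 1) (q - 1) y' := by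
    rw [hy']; exact F_block ε s q l y' hs hsq hsl hy'D.le
  have hFx : F ε s q (t q s k) + F ε (s - 1) (q - 1) x' ≤ F ε s q x := by
    rw [hx']; exact F_block_le ε s q k x' hs hsq hx'D
  rcases Nat.lt_or_ge (D q s l) (x' + y') with hcase | hcase
  · -- the new second block is full
    have hsk : s ≤ k := by
      by_contra hlt
      have h1 : k + 1 ≤ s := by omega
      have h2 := t_mono q s h1
      rw [t_self q s hsq] at h2
      omega
    refine ⟨D q s l - y', by omega, by omega, by omega, ?_⟩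
    have e1 : x - (D q s l - y') = t q s k + (x' + y' - D q s l) := by omega
    have e2 : y + (D q s l - y') = t q s l + D q s l := by omega
    rw [e1, e2, F_block ε s q k _ hs hsq hsk (by omega), F_block ε s q l _ hs hsq hsl le_rfl]
    rw [min_eq_right hcase.le] at hih
    omega
  · refine ⟨x', by omega, by omega, by omega, ?_⟩
    have e1 : x - x' = t q s k := by omega
    have e2 : y + x' = t q s l + (x' + y') := by omega
    rw [e1, e2, F_block ε s q l _ hs hsq hsl hcase]
    rw [min_eq_left hcase] at hih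
    omega

private theorem EI_main (ε s q n : ℕ) (hs : 1 ≤ s) (hsq : s ≤ q)
    (ih : ∀ m x y : ℕ, x ≤ t (q - 1) (s - 1) m → y ≤ t (q - 1) (s - 1) m →
      F ε (s - 1) (q - 1) (min (x + y) (t (q - 1) (s - 1) m)) +
        F ε (s - 1) (q - 1) (x + y - t (q - 1) (s - 1) m) ≤
      F ε (s - 1) (q - 1) x + F ε (s - 1) (q - 1) y) (x : ℕ) :
    ∀ y : ℕ, x ≤ y → y ≤ t q s n →
      F ε s q (min (x + y) (t q s n)) + F ε s q (x + y - t q s n) ≤ F ε s q x + F ε s q y := by
  induction x using Nat.strong_induction_on with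
  | _ x ihx =>
    intro y hxy hy
    rcases Nat.eq_zero_or_pos x with h0 | h0
    · subst h0
      rw [zero_add, min_eq_left hy, Nat.sub_eq_zero_of_le hy, F_zero]
      omega
    rcases Nat.eq_or_lt_of_le hy with h1 | h1
    · rw [← h1, Nat.add_sub_cancel, min_eq_right (by omega)]
      omega
    obtain ⟨δ, hδ1, hδx, hδy, hF⟩ := EI_step ε s q n hs hsq ih x y h0 hxy h1
    have h2 := ihx (x - δ) (by omega) (y + δ) (by omega) hδy
    have e : x - δ + (y + δ) = x + y := by omega
    rw [e] at h2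
    exact h2.trans hF

theorem E_ineq (ε s q n x y : ℕ) (hsq : s ≤ q) (hx : x ≤ t q s n) (hy : y ≤ t q s n) :
    F ε s q (min (x + y) (t q s n)) + F ε s q (x + y - t q s n) ≤ F ε s q x + F ε s q y := by
  induction s generalizing q n x y with
  | zero => simp [F]
  | succ s ih =>
    have hih : ∀ m x y : ℕ, x ≤ t (q - 1) (s + 1 - 1) m → y ≤ t (q - 1) (s + 1 - 1) m →
      F ε (s + 1 - 1) (q - 1) (min (x + y) (t (q - 1) (s + 1 - 1) m)) +
        F ε (s + 1 - 1) (q - 1) (x + y - t (q - 1) (s + 1 - 1) m) ≤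
      F ε (s + 1 - 1) (q - 1) x + F ε (s + 1 - 1) (q - 1) y := by
      intro m x y hx hy
      exact ih (q - 1) m x y (by omega) hx hy
    rcases Nat.le_total x y with h | h
    · exact EI_main ε (s + 1) q n (by omega) hsq hih x y h hy
    · have := EI_main ε (s + 1) q n (by omega) hsq hih y x h hx
      rw [add_comm y x] at this
      omega

end FlagB
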