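import Pool.Agent.Lib.MP_4a7d3d_co.FB.TMono

/-!
# FB-FBasic (0.4 h): simple facts on `w` and `F`, by unfolding (induction on `s`).
`F_mono`: each summand is monotone in `m` and the range grows. `F_one`: `t q (s+1) (s+1) = 1`, so the single
summand is `F ε s (q-1) 0 = 0`. `F_pos`: the first term is `w ε (s+1) >= 1`.
-/

set_option autoImplicit false

namespace FlagB

open Finset Polynomial

theorem w_one (j : ℕ) : w 1 j = j := by
  induction j with
  | zero => rfl
  | succ k ih => simp only [w, ih]; omega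

theorem w_null (j : ℕ) : w 0 j = if j = 0 then 0 else 1 := by
  cases j with
  | zero => rfl
  | succ k => simp [w]

theorem w_le_succ (ε j : ℕ) : w ε j ≤ w ε (j + 1) := by
  induction j with
  | zero => simp [w]
  | succ k ih =>
    have h : ε * w ε k ≤ ε * w ε (k + 1) := Nat.mul_le_mul_left ε ih
    show 1 + ε * w ε k ≤ 1 + ε * w ε (k + 1)
    omega

theorem F_zero (ε s q : ℕ) : F ε s q 0 = 0 := by
  cases s with
  | zero => rfl
  | succ k => simp [F]

theorem F_first (ε q m : ℕ) : F ε 1 q m = if m = 0 then 0 else 1 := by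
  by_cases h : m = 0
  · simp [F, h]
  · simp [F, h, w]

theorem F_one (ε s q : ℕ) (hs : 1 ≤ s) (hsq : s ≤ q) : F ε s q 1 = w ε s := by
  obtain ⟨k, rfl⟩ : ∃ k, s = k + 1 := ⟨s - 1, by omega⟩
  have h1 : t q (k + 1) (0 + k + 1) = 1 := by
    rw [Nat.zero_add]; exact t_self q (k + 1) hsq
  simp only [F, Finset.sum_range_one, h1, Nat.sub_self, Nat.zero_min, F_zero]
  simp

theorem F_mono (ε s q : ℕ) {m n : ℕ} (h : m ≤ n) : F ε s q m ≤ F ε s q n := by
  induction s generalizing q m n with
  | zero => simp [F]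
  | succ k ih =>
    simp only [F]
    apply Nat.add_le_add
    · by_cases hm : m = 0
      · simp [hm]
      · have hn : n ≠ 0 := by omega
        simp [hm, hn]
    · calc ∑ i ∈ range m, F ε k (q - 1) (min (m - t q (k + 1) (i + k + 1)) (D q (k + 1) (i + k + 1)))
          ≤ ∑ i ∈ range m, F ε k (q - 1) (min (n - t q (k + 1) (i + k + 1)) (D q (k + 1) (i + k + 1))) := by
            apply Finset.sum_le_sum
            intro i _
            apply ih
            omega
        _ ≤ ∑ i ∈ range n, F ε k (q - 1) (min (n - t q (k + 1) (i + k + 1)) (D q (k + 1) (i + k + 1))) := by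
            apply Finset.sum_le_sum_of_subset
            intro x hx
            rw [Finset.mem_range] at hx ⊢
            omega

theorem F_pos (ε s q m : ℕ) (hs : 1 ≤ s) (hm : 1 ≤ m) : 1 ≤ F ε s q m := by
  obtain ⟨k, rfl⟩ : ∃ k, s = k + 1 := ⟨s - 1, by omega⟩
  have hm' : m ≠ 0 := by omega
  have h1 : 1 ≤ w ε (k + 1) := by
    show 1 ≤ 1 + ε * w ε k
    omega
  simp only [F, if_neg hm']
  omega

end FlagB
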