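import Pool.Agent.Lib.MP_4a7d3d_co.FB.FBasic

/-!
# FB-FBlock (0.6 h): the block recursion of `F`.
Proof of `F_block`. In the definition of `F ε s q m` (`s = s'+1`) the summand with index `i` (block
`n' = i + s`) is `F ε s' (q-1) (min (m - t n') (D n'))`. For `m >= t(n'+1) = t n' + D n'` it is
`F ε s' (q-1) (D n')`; for `m = t n + a`, `n' = n`, it is `F .. (min a (D n)) = F .. a`; for `n' > n` it is
`F .. 0 = 0` because `m <= t(n+1) <= t n'`. For `m = t n` the block `n' = n` gives `0`. All summands with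
`i >= m` vanish because `t q s (i + s) >= i + 1 > m` (`t_ge`), so both sums may be taken over a common large range.
The first term is `w ε s` for both since `t q s n >= 1` for `n >= s`.
`F_block_le`: for `n >= s` equality; for `n = s-1`: `t = 0`, `D = 1`, `a <= 1`:
`F ε (s-1) (q-1) 1 <= w ε (s-1) <= w ε s = F ε s q 1` (for `s = 1` the left side is 0); for `n < s-1`: `a = 0`.
-/

set_option autoImplicit false

namespace FlagB

open Finset Polynomial

private theorem FBlock_ext (ε s q m M : ℕ) (hsq : s + 1 ≤ q) (hM : m ≤ M) :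
    F ε (s + 1) q m = (if m = 0 then 0 else w ε (s + 1)) +
      ∑ i ∈ range M, F ε s (q - 1) (min (m - t q (s + 1) (i + s + 1)) (D q (s + 1) (i + s + 1))) := by
  rw [F]
  congr 1
  refine Finset.sum_subset (Finset.range_mono hM) fun i _ hi => ?_
  rw [Finset.mem_range, not_lt] at hi
  have h := t_ge q (s + 1) i (by omega) hsq
  have h1 : s + 1 + i = i + s + 1 := by ring
  rw [h1] at h
  have h2 : m - t q (s + 1) (i + s + 1) = 0 := by omega
  rw [h2, Nat.zero_min, F_zero]

theorem F_block (ε s q n a : ℕ) (hs : 1 ≤ s) (hsq : s ≤ q) (hn : s ≤ n) (ha : a ≤ D q s n) :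
    F ε s q (t q s n + a) = F ε s q (t q s n) + F ε (s - 1) (q - 1) a := by
  obtain ⟨s', rfl⟩ : ∃ s', s = s' + 1 := ⟨s - 1, by omega⟩
  obtain ⟨i0, rfl⟩ : ∃ i0, n = s' + 1 + i0 := ⟨n - (s' + 1), by omega⟩
  have hq : 1 ≤ q := by omega
  have hge := t_ge q (s' + 1) i0 hs hsq
  set T := t q (s' + 1) (s' + 1 + i0) with hT
  have hTD : ∀ n, t q (s' + 1) (n + 1) = t q (s' + 1) n + D q (s' + 1) n := fun n =>
    t_add_D q (s' + 1) n hs hq
  rw [FBlock_ext ε s' q (T + a) (T + a) hsq le_rfl, FBlock_ext ε s' q T (T + a) hsq (by omega),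
    if_neg (by omega), if_neg (by omega), add_assoc]
  congr 1
  have hsub : s' + 1 - 1 = s' := by omega
  rw [hsub]
  have hi0 : i0 ∈ range (T + a) := by
    rw [Finset.mem_range]; omega
  rw [← Finset.add_sum_erase _ _ hi0, ← Finset.add_sum_erase _ _ hi0]
  have h1 : i0 + s' + 1 = s' + 1 + i0 := by ring
  rw [h1, ← hT, Nat.add_sub_cancel_left, Nat.sub_self, Nat.zero_min, F_zero, zero_add,
    min_eq_left ha, add_comm]
  congr 1
  refine Finset.sum_congr rfl fun i hi => ?_
  rw [Finset.mem_erase] at hi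
  rcases Nat.lt_or_gt_of_ne hi.1 with h | h
  · have h2 : t q (s' + 1) (i + s' + 1 + 1) ≤ T := t_mono q (s' + 1) (by omega)
    have h3 := hTD (i + s' + 1)
    rw [min_eq_right (by omega), min_eq_right (by omega)]
  · have h2 : t q (s' + 1) (s' + 1 + i0 + 1) ≤ t q (s' + 1) (i + s' + 1) :=
      t_mono q (s' + 1) (by omega)
    have h3 := hTD (s' + 1 + i0)
    have h4 : T + a - t q (s' + 1) (i + s' + 1) = 0 := by omega
    have h5 : T - t q (s' + 1) (i + s' + 1) = 0 := by omega
    rw [h4, h5]

theorem F_block_le (ε s q n a : ℕ) (hs : 1 ≤ s) (hsq : s ≤ q) (ha : a ≤ D q s n) :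
    F ε s q (t q s n) + F ε (s - 1) (q - 1) a ≤ F ε s q (t q s n + a) := by
  rcases Nat.lt_or_ge n s with hn | hn
  · rw [t_lt q s n hn, F_zero, zero_add, zero_add]
    rcases Nat.lt_or_ge (n + 1) s with h1 | h1
    · rw [D_zero q s n h1] at ha
      have ha0 : a = 0 := by omega
      rw [ha0, F_zero, F_zero]
    · have hns : n = s - 1 := by omega
      have hD : D q s n = 1 := by
        unfold D
        rw [hns, Nat.div_eq_of_lt (by omega), Nat.sub_zero]
        exact t_self (q - 1) (s - 1) (by omega)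
      rw [hD] at ha
      rcases Nat.eq_zero_or_pos a with h0 | h0
      · rw [h0, F_zero, F_zero]
      · have ha1 : a = 1 := by omega
        rw [ha1, F_one ε s q hs hsq]
        rcases Nat.eq_zero_or_pos (s - 1) with h2 | h2
        · rw [h2, F]
          exact Nat.zero_le _
        · rw [F_one ε (s - 1) (q - 1) h2 (by omega)]
          have h3 := w_le_succ ε (s - 1)
          rwa [Nat.sub_add_cancel hs] at h3
  · exact (F_block ε s q n a hs hsq hn ha).ge

end FlagB
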