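import Pool.Agent.Lib.MP_4a7d3d_co.FB.TBasic
import Pool.Agent.Lib.MP_4a7d3d_co.FB.TRec

/-!
# FB-TMono (0.4 h): monotonicity of `t`, consequences of `t_succ`.
Proof. `sub_div_mono`: `n - n/q` increases by 0 or 1 with `n` (for `q >= 1`; for `q = 0`, `n / 0 = 0`).
`t_mono` from `t_succ`. `D_pos`: `t (q-1) (s-1) (n - n/q) >= t (q-1) (s-1) (s-1) = 1`, as `n - n/q >= s-1`
when `n >= s-1` and `s <= q` (`n = s-1 < q`: `n/q = 0`; use `sub_div_mono`). `t_lt_succ`, `t_ge` follow.
-/

set_option autoImplicit false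

namespace FlagB

open Finset Polynomial

theorem sub_div_mono (q : ℕ) {n m : ℕ} (h : n ≤ m) : n - n / q ≤ m - m / q := by
  have key : ∀ n : ℕ, n - n / q ≤ (n + 1) - (n + 1) / q := by
    intro n
    have h1 : (n + 1) / q ≤ n / q + 1 := by
      rw [Nat.succ_div]
      split_ifs <;> omega
    have h2 : n / q ≤ n := Nat.div_le_self n q
    omega
  exact monotone_nat_of_le_succ key h

theorem t_mono (q s : ℕ) {n m : ℕ} (h : n ≤ m) : t q s n ≤ t q s m := by
  rcases Nat.eq_zero_or_pos q with hq | hq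
  · subst hq
    unfold t
    simp
  · cases s with
    | zero => rw [t_zero, t_zero]
    | succ s =>
      refine monotone_nat_of_le_succ (f := fun n => t q (s + 1) n) (fun n => ?_) h
      show t q (s + 1) n ≤ t q (s + 1) (n + 1)
      rw [t_succ q s n hq]
      exact Nat.le_add_right _ _

theorem D_mono (q s : ℕ) {n m : ℕ} (h : n ≤ m) : D q s n ≤ D q s m := by
  unfold D
  exact t_mono _ _ (sub_div_mono q h)

theorem t_add_D (q s n : ℕ) (hs : 1 ≤ s) (hq : 1 ≤ q) : t q s (n + 1) = t q s n + D q s n := by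
  obtain ⟨s', rfl⟩ : ∃ s', s = s' + 1 := ⟨s - 1, by omega⟩
  rw [t_succ q s' n hq]
  rfl

theorem D_pos (q s n : ℕ) (hs : 1 ≤ s) (hsq : s ≤ q) (h : s ≤ n + 1) : 1 ≤ D q s n := by
  unfold D
  have h1 : s - 1 ≤ n - n / q := by
    have h2 := sub_div_mono q (show s - 1 ≤ n by omega)
    rw [Nat.div_eq_of_lt (show s - 1 < q by omega)] at h2
    omega
  have h3 := t_mono (q - 1) (s - 1) h1
  rw [t_self (q - 1) (s - 1) (by omega)] at h3
  exact h3

theorem D_zero (q s n : ℕ) (h : n + 1 < s) : D q s n = 0 := by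
  unfold D
  apply t_lt
  have : n - n / q ≤ n := Nat.sub_le _ _
  omega

theorem t_lt_succ (q s n : ℕ) (hs : 1 ≤ s) (hsq : s ≤ q) (h : s ≤ n + 1) :
    t q s n < t q s (n + 1) := by
  have h1 := D_pos q s n hs hsq h
  rw [t_add_D q s n hs (by omega)]
  omega

theorem t_ge (q s i : ℕ) (hs : 1 ≤ s) (hsq : s ≤ q) : i + 1 ≤ t q s (s + i) := by
  induction i with
  | zero =>
    show 0 + 1 ≤ t q s s
    rw [t_self q s hsq]
  | succ i ih =>
    have h1 := t_lt_succ q s (s + i) hs hsq (by omega)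
    rw [← Nat.add_assoc]
    omega

end FlagB
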