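import Pool.Agent.Lib.MP_4a7d3d_co.FB.IniBasic
import Pool.Agent.Lib.MP_4a7d3d_co.FB.CountAll
import Pool.Agent.Lib.MP_4a7d3d_co.FB.TMono

/-!
# FB-IniExists (0.4 h).
`ini_exists`: take `u = p * Q` with `p` large; `allRb` is an initial family with `t C.card s (p * C.card) >= m` members
(`t_ge`, `t_mono`, `rC_mul`); use `ini_exists_sub`.
`ini_lt_of_card_le`: if `𝒜.card <= t C.card s (C.card * p)` then `𝒜 ⊆ allRb Q C s (p*Q)` (`Ini.subset_of_card_le`).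
`ini_full_of_lt_card`: if `t C.card s (C.card * p) < 𝒜.card` then some member of `𝒜` has an element `>= p * Q`.
-/

set_option autoImplicit false

namespace FlagB

open Finset Polynomial

theorem ini_exists (Q : ℕ) (C : Finset ℕ) (hC : C ⊆ range Q) (s : ℕ) (hs : 1 ≤ s)
    (hsC : s ≤ C.card) (m : ℕ) : ∃ 𝒜, Ini Q C s 𝒜 ∧ 𝒜.card = m := by
  have h1 : m ≤ (allRb Q C s ((s + m) * Q)).card := by
    rw [card_allRb Q C hC, rC_mul Q C hC]
    have h2 := t_ge C.card s m hs hsC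
    have h3 : s + m ≤ (s + m) * C.card := Nat.le_mul_of_pos_right _ (by omega)
    have h4 := t_mono C.card s h3
    omega
  obtain ⟨𝒜, _, h, hc⟩ := ini_exists_sub (ini_allRb Q C s ((s + m) * Q)) m h1
  exact ⟨𝒜, h, hc⟩

theorem ini_lt_of_card_le {Q : ℕ} {C : Finset ℕ} (hC : C ⊆ range Q) {s : ℕ}
    {𝒜 : Finset (Finset ℕ)} (h : Ini Q C s 𝒜) (p : ℕ)
    (hc : 𝒜.card ≤ t C.card s (C.card * p)) : ∀ A ∈ 𝒜, ∀ v ∈ A, v < p * Q := by
  have h1 : 𝒜 ⊆ allRb Q C s (p * Q) := by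
    apply h.subset_of_card_le (ini_allRb Q C s (p * Q))
    rw [card_allRb Q C hC, rC_mul Q C hC, mul_comm p]
    exact hc
  intro A hA
  exact (mem_allRb.1 (h1 hA)).2

theorem ini_card_le_of_lt {Q : ℕ} {C : Finset ℕ} (hC : C ⊆ range Q) {s : ℕ}
    {𝒜 : Finset (Finset ℕ)} (h : ∀ A ∈ 𝒜, Rb Q C s A) (p : ℕ)
    (hc : ∀ A ∈ 𝒜, ∀ v ∈ A, v < p * Q) : 𝒜.card ≤ t C.card s (C.card * p) := by
  rw [mul_comm C.card, ← rC_mul Q C hC, ← card_allRb Q C hC]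
  apply Finset.card_le_card
  intro A hA
  exact mem_allRb.2 ⟨h A hA, hc A hA⟩

theorem ini_exists_ge {Q : ℕ} {C : Finset ℕ} (hC : C ⊆ range Q) {s : ℕ}
    {𝒜 : Finset (Finset ℕ)} (h : Ini Q C s 𝒜) (p : ℕ)
    (hc : t C.card s (C.card * p) < 𝒜.card) : ∃ A ∈ 𝒜, ∃ v ∈ A, p * Q ≤ v := by
  by_contra hcon
  push Not at hcon
  exact absurd (ini_card_le_of_lt hC h.1 p hcon) (by omega)

end FlagB
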