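import Pool.Agent.Lib.MP_4a7d3d_co.FB.Pos
import Pool.Agent.Lib.MP_4a7d3d_co.FB.IniExists

/-!
# FB-Fam (0.9 h): the families `P s` (positive `s`-sets of the new complex) and `P' s`.
Proof. For `1 <= s <= q` let `ℐ s` be the initial family of `f s` rainbow `s`-sets (`ini_exists`), `ℐ 0 = {∅}`. The number of negative members
is `F 0 s q (f s) <= ρ s` (`sum_w` with `ε = 0`, `w_null`), so there are at least `f s - ρ s` positive ones; `P s` = the first `f s - ρ s` of them
(`exists_first`), for `s = 0` `P 0 = {∅}`; `P' s` = the first `ρ (s+1)` members of `P s`; for `s > q` both empty. Both are initial among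
all positive rainbow sets because `ℐ s` is initial. `(iv)`: let `A ∈ P (s+1)`, `z ∈ A`, `H` positive rainbow `s`-set,
`H <= A.erase z`. Then `kap H <= kap (A.erase z) <= A` (`kap_mono`, `kap_le`), so `kap H` is a negative member of `ℐ (s+1)`. The set `∇` of
all such `H` is initial among positives, finite, and `kap` is injective on it (`kap_inj_pos`), so `∇.card <= F 0 (s+1) q (f (s+1)) <= ρ (s+1) = (P' s).card`;
two families initial among positives are comparable, so `∇ ⊆ P' s`.
-/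

set_option autoImplicit false

namespace FlagB

open Finset Polynomial

private theorem Fam_ini_le {Q : ℕ} {C : Finset ℕ} {s : ℕ} {𝒜 : Finset (Finset ℕ)} (h : Ini Q C s 𝒜)
    {A B : Finset ℕ} (hA : A ∈ 𝒜) (hB : Rb Q C s B) (hle : toColex B ≤ toColex A) : B ∈ 𝒜 := by
  rcases hle.lt_or_eq with hlt | heq
  · exact h.2 A hA B hB hlt
  · have : B = A := toColex_inj.1 heq
    rw [this]
    exact hA

private theorem Fam_ini (q : ℕ) (f : ℕ → ℕ) (f0 : f 0 = 1) (h3 : ∀ s, q < s → f s = 0) (s : ℕ) :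
    ∃ 𝒜, Ini q (range q) s 𝒜 ∧ 𝒜.card = f s := by
  rcases Nat.eq_zero_or_pos s with hs | hs
  · subst hs
    refine ⟨{∅}, ⟨?_, ?_⟩, by rw [f0]; simp⟩
    · intro A hA
      rw [Finset.mem_singleton.1 hA]
      exact ⟨rfl, by simp, by simp⟩
    · intro A _ B hB _
      rw [Finset.mem_singleton]
      exact Finset.card_eq_zero.1 hB.1
  · rcases le_or_gt s q with hsq | hsq
    · exact ini_exists q (range q) (Finset.Subset.refl _) s hs (by simpa using hsq) (f s)
    · exact ⟨∅, ⟨by simp, by simp⟩, by rw [h3 s hsq]; simp⟩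

private theorem Fam_neg (q : ℕ) (f ρ : ℕ → ℕ) (h3 : ∀ s, q < s → f s = 0)
    (h4 : ∀ s, 1 ≤ s → s ≤ q → F 0 s q (f s) ≤ ρ s) (s : ℕ) {𝒜 : Finset (Finset ℕ)}
    (h : Ini q (range q) s 𝒜) (hc : 𝒜.card = f s) :
    (𝒜.filter (fun A => mu q (range q) A ≠ 0)).card ≤ ρ s := by
  rcases le_or_gt s q with hsq | hsq
  · have h5 := sum_w 0 (Finset.Subset.refl (range q)) (s := s) (by simpa using hsq) h
    rw [Finset.card_range, hc] at h5
    have h6 : (𝒜.filter (fun A => mu q (range q) A ≠ 0)).card = ∑ A ∈ 𝒜, w 0 (mu q (range q) A) := by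
      rw [Finset.card_filter]
      refine Finset.sum_congr rfl fun A _ => ?_
      rw [w_null]
      by_cases hA : mu q (range q) A = 0
      · simp [hA]
      · simp [hA]
    rw [h6, h5]
    rcases Nat.eq_zero_or_pos s with hs | hs
    · subst hs
      exact Nat.zero_le _
    · exact h4 s hs hsq
  · have h5 : 𝒜 = ∅ := Finset.card_eq_zero.1 (by rw [hc, h3 s hsq])
    rw [h5]
    simp

private theorem Fam_erase_rb {q s : ℕ} {A : Finset ℕ} (hA : Rb q (range q) (s + 1) A) {z : ℕ}
    (hz : z ∈ A) : Rb q (range q) s (A.erase z) := by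
  refine ⟨?_, fun v hv => hA.2.1 v (Finset.mem_of_mem_erase hv), fun u hu v hv h =>
    hA.2.2 u (Finset.mem_of_mem_erase hu) v (Finset.mem_of_mem_erase hv) h⟩
  rw [Finset.card_erase_of_mem hz, hA.1]
  rfl

theorem exists_fam (q : ℕ) (hq : 1 ≤ q) (f ρ : ℕ → ℕ) (f0 : f 0 = 1) (ρ0 : ρ 0 = 0)
    (h1 : ∀ s, ρ s ≤ f s) (h2 : ∀ s, ρ (s + 1) ≤ f s - ρ s) (h3 : ∀ s, q < s → f s = 0)
    (h4 : ∀ s, 1 ≤ s → s ≤ q → F 0 s q (f s) ≤ ρ s) :
    ∃ P P' : ℕ → Finset (Finset ℕ),
      (∀ s, ∀ A ∈ P s, Rb q (range q) s A ∧ mu q (range q) A = 0) ∧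
      (∀ s, (P s).card = f s - ρ s) ∧
      (∀ s, P' s ⊆ P s) ∧
      (∀ s, (P' s).card = ρ (s + 1)) ∧
      (∀ s, ∀ A ∈ P s, ∀ H, Rb q (range q) s H → mu q (range q) H = 0 →
        toColex H ≤ toColex A → H ∈ P s) ∧
      (∀ s, ∀ A ∈ P' s, ∀ H, Rb q (range q) s H → mu q (range q) H = 0 →
        toColex H ≤ toColex A → H ∈ P' s) ∧
      (∀ s, ∀ A ∈ P (s + 1), ∀ z ∈ A, ∀ H, Rb q (range q) s H → mu q (range q) H = 0 →
        toColex H ≤ toColex (A.erase z) → H ∈ P' s) := by
  classical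
  choose I hI hIc using Fam_ini q f f0 h3
  have hneg : ∀ s, ((I s).filter (fun A => mu q (range q) A ≠ 0)).card ≤ ρ s := fun s =>
    Fam_neg q f ρ h3 h4 s (hI s) (hIc s)
  have hpos : ∀ s, f s - ρ s ≤ ((I s).filter (fun A => mu q (range q) A = 0)).card := by
    intro s
    have h5 := Finset.card_filter_add_card_filter_not (s := I s) (fun A => mu q (range q) A = 0)
    have h6 := hneg s
    rw [hIc] at h5
    have h7 : ((I s).filter (fun A => ¬ mu q (range q) A = 0)).card =
      ((I s).filter (fun A => mu q (range q) A ≠ 0)).card := rfl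
    omega
  choose P hP1 hP2 hP3 using fun s => exists_first _ _ (hpos s)
  choose P' hQ1 hQ2 hQ3 using fun s => exists_first (P s) (ρ (s + 1)) (by rw [hP2]; exact h2 s)
  have p1 : ∀ s, ∀ A ∈ P s, Rb q (range q) s A ∧ mu q (range q) A = 0 := by
    intro s A hA
    have h5 := Finset.mem_filter.1 (hP1 s hA)
    exact ⟨(hI s).1 A h5.1, h5.2⟩
  have p5 : ∀ s, ∀ A ∈ P s, ∀ H, Rb q (range q) s H → mu q (range q) H = 0 →
        toColex H ≤ toColex A → H ∈ P s := by
    intro s A hA H hH hm hle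
    rcases hle.lt_or_eq with hlt | heq
    · have h5 := Finset.mem_filter.1 (hP1 s hA)
      exact hP3 s A hA H (Finset.mem_filter.2 ⟨(hI s).2 A h5.1 H hH hlt, hm⟩) hlt
    · rw [toColex_inj.1 heq]
      exact hA
  have p6 : ∀ s, ∀ A ∈ P' s, ∀ H, Rb q (range q) s H → mu q (range q) H = 0 →
        toColex H ≤ toColex A → H ∈ P' s := by
    intro s A hA H hH hm hle
    rcases hle.lt_or_eq with hlt | heq
    · exact hQ3 s A hA H (p5 s A (hQ1 s hA) H hH hm hle) hlt
    · rw [toColex_inj.1 heq]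
      exact hA
  refine ⟨P, P', p1, hP2, hQ1, hQ2, p5, p6, ?_⟩
  intro s A hA z hz H hH hm hle
  have hAI : A ∈ I (s + 1) := (Finset.mem_filter.1 (hP1 _ hA)).1
  have hAr := (p1 _ A hA).1
  have hsq : s < q := by
    by_contra hn
    have h5 := h3 (s + 1) (by omega)
    rw [← hIc, Finset.card_eq_zero] at h5
    rw [h5] at hAI
    simp at hAI
  have hcard : s < (range q).card := by simpa using hsq
  have hkr : ∀ {B : Finset ℕ}, Rb q (range q) s B → Rb q (range q) (s + 1) (kap q (range q) B) :=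
    fun hB => (kap_rb (Finset.Subset.refl _) hB hcard).2
  have hkm : ∀ {B B' : Finset ℕ}, Rb q (range q) s B → Rb q (range q) s B' → toColex B ≤ toColex B' →
      toColex (kap q (range q) B) ≤ toColex (kap q (range q) B') := fun hB hB' h =>
    kap_mono (Finset.Subset.refl _) hB hB' hcard h
  have hHI : kap q (range q) H ∈ I (s + 1) := by
    refine Fam_ini_le (hI (s + 1)) hAI (hkr hH) ((hkm hH (Fam_erase_rb hAr hz) hle).trans ?_)
    have h5 := kap_le (Q := q) (C := range q) (Finset.Subset.refl _) (s := s) (B := A.erase z) (z := z)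
      (by simp) (by rw [Finset.insert_erase hz]; exact hAr)
    rwa [Finset.insert_erase hz] at h5
  by_contra hHP
  have hN : ((insert H (P' s)).image (kap q (range q))) ⊆
      (I (s + 1)).filter (fun A => mu q (range q) A ≠ 0) := by
    intro K hK
    obtain ⟨B, hB, rfl⟩ := Finset.mem_image.1 hK
    rcases Finset.mem_insert.1 hB with rfl | hB
    · exact Finset.mem_filter.2 ⟨hHI, kap_neg hH hsq⟩
    · obtain ⟨hBr, hBm⟩ := p1 s B (hQ1 s hB)
      refine Finset.mem_filter.2 ⟨?_, kap_neg hBr hsq⟩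
      refine Fam_ini_le (hI (s + 1)) hHI (hkr hBr) (hkm hBr hH ?_)
      rcases le_total (toColex B) (toColex H) with h | h
      · exact h
      · exact absurd (p6 s B hB H hH hm h) hHP
  have h5 := Finset.card_le_card hN
  rw [Finset.card_image_of_injOn, Finset.card_insert_of_notMem hHP, hQ2] at h5
  · have := hneg (s + 1)
    omega
  · intro B hB B' hB' h
    have key : ∀ B, B ∈ (↑(insert H (P' s)) : Set (Finset ℕ)) → Rb q (range q) s B ∧ mu q (range q) B = 0 := by
      intro B hB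
      rcases Finset.mem_insert.1 (Finset.mem_coe.1 hB) with rfl | hB
      · exact ⟨hH, hm⟩
      · exact p1 s B (hQ1 s hB)
    exact kap_inj_pos (key B hB).1 (key B' hB').1 hsq (key B hB).2 (key B' hB').2 h

end FlagB
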