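import Pool.Agent.Lib.MP_4a7d3d_co.FB.Defs

/-!
# FB-LkAv (0.7 h): links and colour-avoiding parts of initial families.
`ini_lk`: if `B` is rainbow in `C.erase c` and `B < A.erase y`, `y ∈ A ∈ 𝒜`, then `insert y B` is rainbow in `C` and
`insert y B < A` (`Finset.Colex` : `toColex_sdiff_lt_toColex_sdiff` or unfold `toColex_lt_toColex_iff_exists_forall_lt`).
`sum_split`: a rainbow set has either no vertex of colour `c` or exactly one, `i*Q + c` with `i < p`.
-/

set_option autoImplicit false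

namespace FlagB

open Finset Polynomial

theorem mem_lk {V : Type*} [DecidableEq V] {y : V} {𝒜 : Finset (Finset V)} {B : Finset V} :
    B ∈ lk y 𝒜 ↔ y ∉ B ∧ insert y B ∈ 𝒜 := by
  unfold lk
  rw [mem_image]
  constructor
  · rintro ⟨A, hA, rfl⟩
    rw [mem_filter] at hA
    refine ⟨notMem_erase y A, ?_⟩
    rw [insert_erase hA.2]
    exact hA.1
  · rintro ⟨h1, h2⟩
    exact ⟨insert y B, mem_filter.mpr ⟨h2, mem_insert_self y B⟩, erase_insert h1⟩

private theorem LkAv_sum_lk {V : Type*} [DecidableEq V] (y : V) (𝒜 : Finset (Finset V))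
    (f : Finset V → ℕ) :
    ∑ G ∈ lk y 𝒜, f (insert y G) = ∑ A ∈ 𝒜.filter (fun A => y ∈ A), f A := by
  unfold lk
  rw [sum_image]
  · refine sum_congr rfl fun A hA => ?_
    rw [insert_erase (mem_filter.mp hA).2]
  · intro A hA B hB hAB
    have h1 := (mem_filter.mp (Finset.mem_coe.mp hA)).2
    have h2 := (mem_filter.mp (Finset.mem_coe.mp hB)).2
    have h3 : A.erase y = B.erase y := hAB
    rw [← insert_erase h1, ← insert_erase h2, h3]

theorem card_split_vertex {V : Type*} [DecidableEq V] (y : V) (𝒜 : Finset (Finset V)) :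
    𝒜.card = (av y 𝒜).card + (lk y 𝒜).card := by
  have h1 := LkAv_sum_lk y 𝒜 (fun _ => 1)
  simp only [sum_const, smul_eq_mul, mul_one] at h1
  rw [h1]
  unfold av
  have h2 := Finset.card_filter_add_card_filter_not (s := 𝒜) (fun A => y ∈ A)
  omega

private theorem LkAv_lt {y : ℕ} {A B : Finset ℕ} (hA : y ∉ A) (hB : y ∉ B)
    (h : toColex B < toColex A) : toColex (insert y B) < toColex (insert y A) := by
  have h1 := Finset.Colex.toColex_sdiff_lt_toColex_sdiff (s := insert y B) (t := insert y A)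
    (u := {y}) (by simp) (by simp)
  rw [sdiff_singleton_eq_erase, sdiff_singleton_eq_erase, erase_insert hA, erase_insert hB] at h1
  exact h1.mp h

theorem ini_lk {Q : ℕ} {C : Finset ℕ} {s : ℕ} {𝒜 : Finset (Finset ℕ)} (h : Ini Q C (s + 1) 𝒜)
    (y : ℕ) (hy : y % Q ∈ C) : Ini Q (C.erase (y % Q)) s (lk y 𝒜) := by
  obtain ⟨h1, h2⟩ := h
  refine ⟨?_, ?_⟩
  · intro B hB
    rw [mem_lk] at hB
    obtain ⟨hB1, hB2⟩ := hB
    obtain ⟨c1, c2, c3⟩ := h1 _ hB2
    refine ⟨?_, ?_, ?_⟩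
    · rw [card_insert_of_notMem hB1] at c1
      omega
    · intro v hv
      refine mem_erase.mpr ⟨?_, c2 v (mem_insert_of_mem hv)⟩
      intro hvy
      have := c3 v (mem_insert_of_mem hv) y (mem_insert_self y B) hvy
      exact hB1 (this ▸ hv)
    · intro u hu v hv huv
      exact c3 u (mem_insert_of_mem hu) v (mem_insert_of_mem hv) huv
  · intro A hA B hB hlt
    rw [mem_lk] at hA ⊢
    obtain ⟨hA1, hA2⟩ := hA
    obtain ⟨c1, c2, c3⟩ := hB
    have hyB : y ∉ B := fun hyB => (mem_erase.mp (c2 y hyB)).1 rfl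
    refine ⟨hyB, ?_⟩
    refine h2 _ hA2 _ ⟨?_, ?_, ?_⟩ (LkAv_lt hA1 hyB hlt)
    · rw [card_insert_of_notMem hyB, c1]
    · intro v hv
      rcases mem_insert.mp hv with rfl | hv
      · exact hy
      · exact (mem_erase.mp (c2 v hv)).2
    · intro u hu v hv huv
      rcases mem_insert.mp hu with hu' | hu'
      · rcases mem_insert.mp hv with hv' | hv'
        · rw [hu', hv']
        · rw [hu'] at huv
          exact absurd huv.symm (mem_erase.mp (c2 v hv')).1
      · rcases mem_insert.mp hv with hv' | hv'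
        · rw [hv'] at huv
          exact absurd huv (mem_erase.mp (c2 u hu')).1
        · exact c3 u hu' v hv' huv

theorem ini_avc {Q : ℕ} {C : Finset ℕ} {s : ℕ} {𝒜 : Finset (Finset ℕ)} (h : Ini Q C s 𝒜)
    (c : ℕ) : Ini Q (C.erase c) s (avc Q c 𝒜) := by
  obtain ⟨h1, h2⟩ := h
  unfold avc
  refine ⟨?_, ?_⟩
  · intro A hA
    rw [mem_filter] at hA
    obtain ⟨c1, c2, c3⟩ := h1 A hA.1
    exact ⟨c1, fun v hv => mem_erase.mpr ⟨hA.2 v hv, c2 v hv⟩, c3⟩
  · intro A hA B hB hlt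
    rw [mem_filter] at hA ⊢
    obtain ⟨c1, c2, c3⟩ := hB
    exact ⟨h2 A hA.1 B ⟨c1, fun v hv => (mem_erase.mp (c2 v hv)).2, c3⟩ hlt,
      fun v hv => (mem_erase.mp (c2 v hv)).1⟩

theorem sum_split {Q : ℕ} {C : Finset ℕ} {s : ℕ} {𝒜 : Finset (Finset ℕ)}
    (h : ∀ A ∈ 𝒜, Rb Q C s A) (c : ℕ) (hc : c < Q) (p : ℕ)
    (hp : ∀ A ∈ 𝒜, ∀ v ∈ A, v < p * Q) (f : Finset ℕ → ℕ) :
    ∑ A ∈ 𝒜, f A = ∑ A ∈ avc Q c 𝒜, f A +
      ∑ i ∈ range p, ∑ G ∈ lk (i * Q + c) 𝒜, f (insert (i * Q + c) G) := by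
  have e1 : ∀ i ∈ range p, ∑ G ∈ lk (i * Q + c) 𝒜, f (insert (i * Q + c) G) =
      ∑ A ∈ 𝒜, if i * Q + c ∈ A then f A else 0 := by
    intro i _
    rw [LkAv_sum_lk, sum_filter]
  rw [sum_congr rfl e1, sum_comm]
  unfold avc
  rw [sum_filter, ← sum_add_distrib]
  refine sum_congr rfl fun A hA => ?_
  obtain ⟨_, _, c3⟩ := h A hA
  by_cases hav : ∀ v ∈ A, v % Q ≠ c
  · rw [if_pos hav, sum_eq_zero, add_zero]
    intro i _
    rw [if_neg]
    intro hi
    apply hav _ hi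
    rw [Nat.mul_comm, Nat.mul_add_mod, Nat.mod_eq_of_lt hc]
  · rw [if_neg hav, zero_add]
    push Not at hav
    obtain ⟨v, hv, hvc⟩ := hav
    have hQ : 0 < Q := by omega
    have hvi : v = v / Q * Q + c := by
      have := Nat.div_add_mod v Q
      rw [hvc, Nat.mul_comm] at this
      exact this.symm
    rw [sum_eq_single (v / Q)]
    · rw [if_pos (hvi ▸ hv)]
    · intro i _ hi
      rw [if_neg]
      intro hm
      apply hi
      have h3 := c3 _ hm v hv (by
        rw [hvc, Nat.mul_comm, Nat.mul_add_mod, Nat.mod_eq_of_lt hc])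
      rw [← h3, Nat.mul_comm, Nat.mul_add_div hQ, Nat.div_eq_of_lt hc, add_zero]
    · intro hn
      exfalso
      apply hn
      rw [mem_range]
      exact (Nat.div_lt_iff_lt_mul hQ).mpr (hp A hA v hv)

theorem card_split {Q : ℕ} {C : Finset ℕ} {s : ℕ} {𝒜 : Finset (Finset ℕ)}
    (h : ∀ A ∈ 𝒜, Rb Q C s A) (c : ℕ) (hc : c < Q) (p : ℕ)
    (hp : ∀ A ∈ 𝒜, ∀ v ∈ A, v < p * Q) :
    𝒜.card = (avc Q c 𝒜).card + ∑ i ∈ range p, (lk (i * Q + c) 𝒜).card := by
  have h1 := sum_split h c hc p hp (fun _ => 1)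
  simpa using h1

end FlagB
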