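import Pool.Agent.Lib.MP_4a7d3d_co.FB.BdBasic
import Pool.Agent.Lib.MP_4a7d3d_co.FB.LkAv

/-!
# FB-RkSplit: lower bounds for the rank.
`rk_split`: let `S = bdSpan 𝒜` (finite-dimensional) and `π : (Finset V →₀ k) → (Finset V →₀ k)` the linear map
`single B 1 ↦ (sg v B) • single (B.erase v)` if `v ∈ B`, `0` otherwise. For `A ∈ 𝒜`, `v ∉ A`: `π (bd A) = 0`. For `A = insert v G`: `π (bd A) = ± bd G`
(apply `bd_ins_add` : `bd (ins v G) = G - ins v (bd G)`, `π G = 0`, `π (ins v y) = y` for `y` supported on sets avoiding `v`). So `π` maps `S` onto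
a space containing `bdSpan (lk v 𝒜)` and its kernel in `S` contains `bdSpan (av v 𝒜)`; rank-nullity (`LinearMap.finrank_range_add_finrank_ker`).
`rk_cone`: the coefficient functional: project `bd (insert v G)` to the sets avoiding `v`: it is `± single G`; so the images
of the `bd (insert v G)`, `G ∈ lk v 𝒜`, are linearly independent.
-/

set_option autoImplicit false

namespace FlagB

open Finset Polynomial

variable (k : Type*) [Field k] {V : Type*} [LinearOrder V]

instance bdSpan_finite (𝒜 : Finset (Finset V)) : Module.Finite k (bdSpan k 𝒜) := by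
  unfold bdSpan
  exact Module.Finite.span_of_finite k (𝒜.finite_toSet.image _)

theorem bd_mem_bdSpan {𝒜 : Finset (Finset V)} {A : Finset V} (h : A ∈ 𝒜) :
    bd k (Finsupp.single A 1) ∈ bdSpan k 𝒜 :=
  Submodule.subset_span ⟨A, h, rfl⟩

theorem bdSpan_le {𝒜 : Finset (Finset V)} {S : Submodule k (Finset V →₀ k)}
    (h : ∀ A ∈ 𝒜, bd k (Finsupp.single A 1) ∈ S) : bdSpan k 𝒜 ≤ S := by
  unfold bdSpan
  rw [Submodule.span_le]
  rintro _ ⟨A, hA, rfl⟩
  exact h A hA

theorem rk_mono {𝒜 ℬ : Finset (Finset V)} (h : 𝒜 ⊆ ℬ) : rk k 𝒜 ≤ rk k ℬ :=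
  Submodule.finrank_mono (bdSpan_le k fun _ hA => bd_mem_bdSpan k (h hA))

theorem rk_le_card (𝒜 : Finset (Finset V)) : rk k 𝒜 ≤ 𝒜.card := by
  classical
  have h1 : bdSpan k 𝒜 = Submodule.span k
      ((𝒜.image fun A : Finset V => bd k (Finsupp.single A 1) : Finset (Finset V →₀ k)) :
        Set (Finset V →₀ k)) := by
    unfold bdSpan
    rw [Finset.coe_image]
  unfold rk
  rw [h1]
  exact (finrank_span_finset_le_card _).trans Finset.card_image_le

/-- removal of `v` (with sign) -/
noncomputable def remv (v : V) : (Finset V →₀ k) →ₗ[k] (Finset V →₀ k) :=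
  Finsupp.linearCombination k
    (fun B : Finset V => if v ∈ B then Finsupp.single (B.erase v) (sg k v B) else 0)

/-- projection to the sets avoiding `v` -/
noncomputable def avp (v : V) : (Finset V →₀ k) →ₗ[k] (Finset V →₀ k) :=
  Finsupp.linearCombination k (fun B : Finset V => if v ∈ B then 0 else Finsupp.single B 1)

theorem rem_single_of_mem {v : V} {A : Finset V} (h : v ∈ A) :
    remv k v (Finsupp.single A 1) = Finsupp.single (A.erase v) (sg k v A) := by
  unfold remv
  rw [Finsupp.linearCombination_single, one_smul, if_pos h]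

theorem rem_single_of_notMem {v : V} {A : Finset V} (h : v ∉ A) :
    remv k v (Finsupp.single A 1) = 0 := by
  unfold remv
  rw [Finsupp.linearCombination_single, one_smul, if_neg h]

theorem avp_single_of_mem {v : V} {A : Finset V} (h : v ∈ A) :
    avp k v (Finsupp.single A 1) = 0 := by
  unfold avp
  rw [Finsupp.linearCombination_single, one_smul, if_pos h]

theorem avp_single_of_notMem {v : V} {A : Finset V} (h : v ∉ A) :
    avp k v (Finsupp.single A 1) = Finsupp.single A 1 := by
  unfold avp
  rw [Finsupp.linearCombination_single, one_smul, if_neg h]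

theorem rem_bd_of_notMem {v : V} {A : Finset V} (h : v ∉ A) :
    remv k v (bd k (Finsupp.single A 1)) = 0 := by
  rw [bd_single, map_sum]
  refine Finset.sum_eq_zero fun u _ => ?_
  rw [single_eq_smul, map_smul, rem_single_of_notMem k, smul_zero]
  exact fun h' => h (Finset.mem_of_mem_erase h')

theorem rem_ins_single {v : V} {A : Finset V} (h : v ∉ A) :
    remv k v (ins k v (Finsupp.single A 1)) = Finsupp.single A 1 := by
  rw [ins_single_of_notMem k h, single_eq_smul, map_smul,
    rem_single_of_mem k (Finset.mem_insert_self v A), Finset.erase_insert h, sg_insert_self,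
    Finsupp.smul_single, smul_eq_mul, sg_mul_self]

theorem rem_ins_bd {v : V} {A : Finset V} (h : v ∉ A) :
    remv k v (ins k v (bd k (Finsupp.single A 1))) = bd k (Finsupp.single A 1) := by
  rw [bd_single, map_sum, map_sum]
  refine Finset.sum_congr rfl fun u _ => ?_
  have h' : v ∉ A.erase u := fun h' => h (Finset.mem_of_mem_erase h')
  rw [single_eq_smul, map_smul, map_smul, rem_ins_single k h']

theorem rem_bd_insert {v : V} {A : Finset V} (h : v ∉ A) :
    remv k v (bd k (Finsupp.single (insert v A) 1)) = (- sg k v A) • bd k (Finsupp.single A 1) := by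
  rw [single_insert k h, map_smul, map_smul, bd_ins, map_sub, rem_single_of_notMem k h,
    rem_ins_bd k h, zero_sub, smul_neg, neg_smul]

theorem avp_ins (v : V) (x : Finset V →₀ k) : avp k v (ins k v x) = 0 := by
  have h : (avp k (V := V) v) ∘ₗ (ins k v) = 0 := by
    refine hom_eq_of_single k fun A => ?_
    rw [LinearMap.comp_apply, LinearMap.zero_apply]
    by_cases hv : v ∈ A
    · rw [ins_single_of_mem k hv, map_zero]
    · rw [ins_single_of_notMem k hv, single_eq_smul, map_smul,
        avp_single_of_mem k (Finset.mem_insert_self v A), smul_zero]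
  exact LinearMap.congr_fun h x

theorem avp_bd_insert {v : V} {A : Finset V} (h : v ∉ A) :
    avp k v (bd k (Finsupp.single (insert v A) 1)) = sg k v A • Finsupp.single A 1 := by
  rw [single_insert k h, map_smul, map_smul, bd_ins, map_sub, avp_ins, sub_zero,
    avp_single_of_notMem k h]

theorem rk_split (v : V) (𝒜 : Finset (Finset V)) :
    rk k (av v 𝒜) + rk k (lk v 𝒜) ≤ rk k 𝒜 := by
  set S := bdSpan k 𝒜 with hS
  have h1 : bdSpan k (lk v 𝒜) ≤ S.map (remv k v) := by
    refine bdSpan_le k fun G hG => ?_
    rw [mem_lk] at hG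
    have h2 := rem_bd_insert k hG.1
    have h3 : bd k (Finsupp.single G 1) =
        remv k v ((- sg k v G) • bd k (Finsupp.single (insert v G) 1)) := by
      rw [map_smul, h2, smul_smul]
      have : - sg k v G * - sg k v G = 1 := by rw [neg_mul_neg, sg_mul_self]
      rw [this, one_smul]
    rw [h3]
    exact Submodule.mem_map_of_mem (Submodule.smul_mem _ _ (bd_mem_bdSpan k hG.2))
  have h2 : bdSpan k (av v 𝒜) ≤ S ⊓ LinearMap.ker (remv k v) := by
    refine bdSpan_le k fun A hA => ?_
    unfold av at hA
    rw [Finset.mem_filter] at hA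
    exact ⟨bd_mem_bdSpan k hA.1, rem_bd_of_notMem k hA.2⟩
  have h3 := LinearMap.finrank_range_add_finrank_ker (K := k) (V := S) (V₂ := Finset V →₀ k)
    ((remv k v).domRestrict S)
  have h4 : LinearMap.range ((remv k v).domRestrict S) = S.map (remv k v) :=
    LinearMap.range_domRestrict S (remv k v)
  have h5 : Module.finrank k (LinearMap.ker ((remv k v).domRestrict S)) =
      Module.finrank k (S ⊓ LinearMap.ker (remv k v) : Submodule k (Finset V →₀ k)) := by
    have h6 : LinearMap.ker ((remv k v).domRestrict S) =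
        (LinearMap.ker (remv k v)).comap S.subtype := by
      ext x; rfl
    rw [h6]
    have h7 := LinearEquiv.finrank_eq
      (Submodule.equivMapOfInjective S.subtype S.injective_subtype
        ((LinearMap.ker (remv k v)).comap S.subtype))
    rw [h7, Submodule.map_comap_subtype]
  have h8 : rk k (lk v 𝒜) ≤ Module.finrank k (S.map (remv k v)) := Submodule.finrank_mono h1
  have h9 : rk k (av v 𝒜) ≤
      Module.finrank k (S ⊓ LinearMap.ker (remv k v) : Submodule k (Finset V →₀ k)) := by
    have : Module.Finite k (S ⊓ LinearMap.ker (remv k v) : Submodule k (Finset V →₀ k)) :=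
      Submodule.finiteDimensional_inf_left S _
    exact Submodule.finrank_mono h2
  rw [h4, h5] at h3
  have h10 : rk k 𝒜 = Module.finrank k S := rfl
  omega

theorem rk_cone (v : V) (𝒜 : Finset (Finset V)) : (lk v 𝒜).card ≤ rk k 𝒜 := by
  classical
  set S := bdSpan k 𝒜 with hS
  have h1 : Submodule.span k (Set.range fun G : lk v 𝒜 =>
      (Finsupp.single (G : Finset V) (1 : k) : Finset V →₀ k)) ≤ S.map (avp k v) := by
    rw [Submodule.span_le]
    rintro _ ⟨⟨G, hG⟩, rfl⟩
    rw [mem_lk] at hG
    have h2 := avp_bd_insert k hG.1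
    have h3 : (Finsupp.single G (1 : k) : Finset V →₀ k) =
        avp k v (sg k v G • bd k (Finsupp.single (insert v G) 1)) := by
      rw [map_smul, h2, smul_smul, sg_mul_self, one_smul]
    show (Finsupp.single G (1 : k) : Finset V →₀ k) ∈ S.map (avp k v)
    rw [h3]
    exact Submodule.mem_map_of_mem (Submodule.smul_mem _ _ (bd_mem_bdSpan k hG.2))
  have hli : LinearIndependent k (fun G : lk v 𝒜 =>
      (Finsupp.single (G : Finset V) (1 : k) : Finset V →₀ k)) :=
    (Finsupp.linearIndependent_single_one k (Finset V)).comp _ Subtype.val_injective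
  have hcard := finrank_span_eq_card (R := k) hli
  rw [Fintype.card_coe] at hcard
  have h2 : Module.finrank k (S.map (avp k v)) ≤ Module.finrank k S :=
    Submodule.finrank_map_le _ _
  have h3 := Submodule.finrank_mono h1
  rw [hcard] at h3
  exact h3.trans h2

end FlagB
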