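import Pool.Agent.Lib.MP_4a7d3d_co.FB.Base

/-!
# FB-KOne (0.9 h): one row, one level (the uncoloured Kruskal-Katona cone).
Proof. `q >= s >= 2`. Let `Q = q`, `C = {1, ..., q-1} = (range q).erase 0`, `C⁺ = range q`; `𝒜` = initial family for `C` of `(s-1)`-sets with
`a` members. `a <= t (q-1) (s-1) (q-1) = t (q-1) (s-1) ((q-1)*1)`, so all vertices are `< q` (`ini_lt_of_card_le` with `p = 1`), i.e. in `C`.
`ℳ = BaseOf 𝒜 ∪ {insert 0 G : G ∈ 𝒜}` (disjoint). Claim: `Ini q (range q) s ℳ`. Let `A ∈ ℳ`, `B < A` rainbow of size `s`; all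
elements of `A`, hence of `B`, are `< q`. If `B ∌ 0`: `B.erase (min B) <= A.erase (min A) ∈ 𝒜` (if `0 ∈ A`, `A.erase (min A) = G`), so by
`mem_baseOf_of_min` `B ∈ BaseOf`. If `0 ∈ B`: `B.erase 0 <= A.erase (min A) ∈ 𝒜`, so `B ∈ ℳ`. Then by `sum_w`
`F ε s q (b+a) <= F ε s q ℳ.card = ∑_{A ∈ ℳ} w ε (mu A) = 0 + ∑_{G ∈ 𝒜} w ε (1 + mu G) = a + ε * F ε (s-1) (q-1) a`
(`mu_none`, `mu_first` with `c = 0`; `(range q).erase 0 = C`, `adm_iff_baseOf` for `b <= BaseOf.card`; `F_mono`).
-/

set_option autoImplicit false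

namespace FlagB

open Finset Polynomial

theorem kOne (ε q s a b : ℕ) (hs : 2 ≤ s) (hsq : s ≤ q) (ha : a ≤ t (q - 1) (s - 1) (q - 1))
    (hadm : Adm (q - 1) s b a) :
    F ε s q (b + a) ≤ a + ε * F ε (s - 1) (q - 1) a := by
  classical
  obtain ⟨s', rfl⟩ : ∃ s', s = s' + 1 := ⟨s - 1, by omega⟩
  have hs' : 1 ≤ s' := by omega
  rw [Nat.add_sub_cancel] at ha ⊢
  have hq : 0 < q := by omega
  have hC : (range q).erase 0 ⊆ range q := erase_subset _ _
  have hCc : ((range q).erase 0).card = q - 1 := by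
    rw [card_erase_of_mem (mem_range.2 hq), card_range]
  obtain ⟨C, hCdef⟩ : ∃ C, C = (range q).erase 0 := ⟨_, rfl⟩
  rw [← hCdef] at hC hCc
  have h0C : 0 ∉ C := by rw [hCdef]; exact notMem_erase _ _
  have hmemC : ∀ v, v ∈ C ↔ v ≠ 0 ∧ v < q := by
    intro v
    rw [hCdef, mem_erase, mem_range]
  obtain ⟨𝒜, hI, hcard⟩ := ini_exists q C hC s' hs' (by omega) a
  have hlt := ini_lt_of_card_le hC hI 1 (by rw [hcard, hCc, mul_one]; exact ha)
  simp only [one_mul] at hlt
  have h0A : ∀ G ∈ 𝒜, 0 ∉ G := by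
    intro G hG h0
    have := (hI.1 G hG).2.1 0 h0
    rw [Nat.zero_mod] at this
    exact h0C this
  have hb : b ≤ (BaseOf q C (s' + 1) 𝒜).card := by
    rw [← adm_iff_baseOf hC hs' hI b, hCc, hcard]
    exact hadm
  -- members of the base
  have hbase : ∀ A ∈ BaseOf q C (s' + 1) 𝒜, Rb q C (s' + 1) A ∧ ∀ z ∈ A, A.erase z ∈ 𝒜 :=
    fun A hA => (mem_baseOf hs').1 hA
  have hbaselt : ∀ A ∈ BaseOf q C (s' + 1) 𝒜, ∀ v ∈ A, v < q := by
    intro A hA v hv
    obtain ⟨h1, h2⟩ := hbase A hA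
    have h3 : 1 < A.card := by rw [h1.1]; omega
    obtain ⟨z, hz, hzv⟩ := exists_mem_ne h3 v
    exact hlt _ (h2 z hz) v (mem_erase.2 ⟨hzv.symm, hv⟩)
  obtain ⟨ℳ, hℳ⟩ : ∃ ℳ, ℳ = BaseOf q C (s' + 1) 𝒜 ∪ 𝒜.image (fun G => insert 0 G) := ⟨_, rfl⟩
  have hdisj : Disjoint (BaseOf q C (s' + 1) 𝒜) (𝒜.image (fun G => insert 0 G)) := by
    rw [disjoint_left]
    intro A hA hA'
    obtain ⟨G, -, rfl⟩ := mem_image.1 hA'
    have := (hbase _ hA).1.2.1 0 (mem_insert_self _ _)
    rw [Nat.zero_mod] at this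
    exact h0C this
  have hinj : Set.InjOn (fun G : Finset ℕ => insert 0 G) (𝒜 : Set (Finset ℕ)) := by
    intro G hG G' hG' e
    have e' : (insert 0 G).erase 0 = (insert 0 G').erase 0 := by
      simp only at e
      rw [e]
    rwa [erase_insert (h0A G hG), erase_insert (h0A G' hG')] at e'
  -- the family is initial
  have hInit : Ini q (range q) (s' + 1) ℳ := by
    have hRbins : ∀ G ∈ 𝒜, Rb q (range q) (s' + 1) (insert 0 G) := by
      intro G hG
      obtain ⟨h1, h2, h3⟩ := hI.1 G hG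
      have hG0 : ∀ v ∈ G, v % q ≠ 0 := by
        intro v hv e
        exact h0C (e ▸ h2 v hv)
      refine ⟨by rw [card_insert_of_notMem (h0A G hG), h1], ?_, ?_⟩
      · intro v _
        exact mem_range.2 (Nat.mod_lt _ hq)
      · intro u hu v hv huv
        rcases mem_insert.1 hu with h4 | h4
        · rcases mem_insert.1 hv with h5 | h5
          · rw [h4, h5]
          · rw [h4, Nat.zero_mod] at huv
            exact absurd huv.symm (hG0 v h5)
        · rcases mem_insert.1 hv with h5 | h5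
          · rw [h5, Nat.zero_mod] at huv
            exact absurd huv (hG0 u h4)
          · exact h3 u h4 v h5 huv
    have hmem : ∀ A ∈ ℳ, (∀ v ∈ A, v < q) ∧ A.card = s' + 1 ∧
        ∀ hne : A.Nonempty, A.erase (A.min' hne) ∈ 𝒜 := by
      intro A hA
      rw [hℳ, mem_union] at hA
      rcases hA with hA | hA
      · exact ⟨hbaselt A hA, (hbase A hA).1.1, fun hne => (hbase A hA).2 _ (min'_mem _ _)⟩
      · obtain ⟨G, hG, rfl⟩ := mem_image.1 hA
        refine ⟨?_, (hRbins G hG).1, fun hne => ?_⟩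
        · intro v hv
          rcases mem_insert.1 hv with rfl | hv
          · exact hq
          · exact hlt G hG v hv
        · have hmin : (insert 0 G).min' hne = 0 :=
            Nat.le_zero.1 (min'_le _ _ (mem_insert_self _ _))
          rw [hmin, erase_insert (h0A G hG)]
          exact hG
    have hdown : ∀ B ∈ 𝒜, ∀ A, Rb q C s' A → toColex A ≤ toColex B → A ∈ 𝒜 := by
      intro B hB A hA hle
      rcases hle.lt_or_eq with h | h
      · exact hI.2 B hB A hA h
      · have : A = B := by simpa using h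
        rw [this]
        exact hB
    refine ⟨?_, ?_⟩
    · intro A hA
      rw [hℳ, mem_union] at hA
      rcases hA with hA | hA
      · obtain ⟨h1, h2, h3⟩ := (hbase A hA).1
        exact ⟨h1, fun v hv => hC (h2 v hv), h3⟩
      · obtain ⟨G, hG, rfl⟩ := mem_image.1 hA
        exact hRbins G hG
    · intro A hA B hB hBA
      obtain ⟨h1, h2, h3⟩ := hmem A hA
      have hAne : A.Nonempty := card_pos.1 (by omega)
      have hBne : B.Nonempty := card_pos.1 (by rw [hB.1]; omega)
      have hBlt : ∀ v ∈ B, v < q := Finset.Colex.forall_lt_mono hBA.le h1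
      have hcle : B.card ≤ A.card := by rw [hB.1, h2]
      rw [hℳ, mem_union]
      by_cases h0 : 0 ∈ B
      · right
        have h4 := Finset.Colex.erase_le_erase_min' hBA.le hcle h0
        have h5 : B.erase 0 ∈ 𝒜 := by
          refine hdown _ (h3 hAne) _ ⟨?_, ?_, ?_⟩ h4
          · rw [card_erase_of_mem h0, hB.1, Nat.add_sub_cancel]
          · intro v hv
            have hv' := mem_erase.1 hv
            rw [Nat.mod_eq_of_lt (hBlt v hv'.2), hmemC]
            exact ⟨hv'.1, hBlt v hv'.2⟩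
          · intro u hu v hv
            exact hB.2.2 u (mem_of_mem_erase hu) v (mem_of_mem_erase hv)
        refine mem_image.2 ⟨_, h5, ?_⟩
        exact insert_erase h0
      · left
        have hRB : Rb q C (s' + 1) B := by
          refine ⟨hB.1, ?_, hB.2.2⟩
          intro v hv
          rw [Nat.mod_eq_of_lt (hBlt v hv), hmemC]
          exact ⟨fun e => h0 (e ▸ hv), hBlt v hv⟩
        refine mem_baseOf_of_min hs' hI hRB hBne ?_
        have h4 := Finset.Colex.erase_le_erase_min' hBA.le hcle (min'_mem B hBne)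
        refine hdown _ (h3 hAne) _ ⟨?_, ?_, ?_⟩ h4
        · rw [card_erase_of_mem (min'_mem _ _), hB.1, Nat.add_sub_cancel]
        · intro v hv
          exact hRB.2.1 v (mem_of_mem_erase hv)
        · intro u hu v hv
          exact hB.2.2 u (mem_of_mem_erase hu) v (mem_of_mem_erase hv)
  -- the weights
  have h0r : 0 ∈ range q := mem_range.2 hq
  have hw := sum_w ε (le_refl (range q)) (s := s' + 1) (by rw [card_range]; exact hsq) hInit
  have hw2 := sum_w ε hC (s := s') (by omega) hI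
  rw [card_range] at hw
  have hMc : ℳ.card = (BaseOf q C (s' + 1) 𝒜).card + a := by
    rw [hℳ, card_union_of_disjoint hdisj, card_image_of_injOn hinj, hcard]
  have hsum : ∑ A ∈ ℳ, w ε (mu q (range q) A) = a + ε * F ε s' (q - 1) a := by
    rw [hℳ, sum_union hdisj, sum_image hinj]
    have e1 : ∑ A ∈ BaseOf q C (s' + 1) 𝒜, w ε (mu q (range q) A) = 0 := by
      refine sum_eq_zero fun A hA => ?_
      rw [mu_none (le_refl (range q)) h0r (fun _ _ => Nat.zero_le _)]
      · rfl
      · intro v hv e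
        exact h0C (e ▸ (hbase A hA).1.2.1 v hv)
    have e2 : ∀ G ∈ 𝒜, w ε (mu q (range q) (insert 0 G)) = 1 + ε * w ε (mu q C G) := by
      intro G hG
      rw [mu_first (le_refl (range q)) h0r (fun _ _ => Nat.zero_le _) (s := s')
        (by rw [← hCdef]; exact hI.1 G hG), ← hCdef, add_comm 1 (mu q C G)]
      rfl
    rw [e1, zero_add, sum_congr rfl e2, sum_add_distrib, sum_const, smul_eq_mul, mul_one,
      ← mul_sum, hw2, hcard, hCc]
  calc F ε (s' + 1) q (b + a) ≤ F ε (s' + 1) q ℳ.card := F_mono _ _ _ (by omega)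
    _ = _ := by rw [← hw, hsum]

end FlagB
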