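import Pool.Agent.Lib.MP_4a7d3d_co.FB.SOne
import Pool.Agent.Lib.MP_4a7d3d_co.FB.CaseI
import Pool.Agent.Lib.MP_4a7d3d_co.FB.CaseII
import Pool.Agent.Lib.MP_4a7d3d_co.FB.KOne

/-!
# FB-SMain (0.4 h): the main claim for all `q`, `s`.
Proof. Induction on `q` (for all `ε`, `s` with `1 <= s <= q`). `s = 1`: `SClaim_one`. `s >= 2`: strong induction on the cost `c`. Remove the
zeros of `l` (`F ε _ _ 0 = 0`). If `l = 0` and `a₀ <= t (q-1) (s-1) (q-1)`: `kOne`. If `l ≠ 0` and
`a₀ <= t (q-1) (s-1) ((q-1)*(card l + 1))`: `caseI`. Otherwise `caseII`, then `caseI` for the new data (the cost is `<= c`), `F_mono`.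
-/

set_option autoImplicit false

namespace FlagB

open Finset Polynomial

private theorem smain_filter_sum (l : Multiset ℕ) (f : ℕ → ℕ) (hf : f 0 = 0) :
    ((l.filter (fun x => x ≠ 0)).map f).sum = (l.map f).sum := by
  induction l using Multiset.induction_on with
  | empty => simp
  | cons a l IH =>
    by_cases h : a = 0
    · subst h
      rw [Multiset.filter_cons_of_neg _ (by simp), IH, Multiset.map_cons, Multiset.sum_cons, hf]
      simp
    · rw [Multiset.filter_cons_of_pos (p := fun x : ℕ => x ≠ 0) l h, Multiset.map_cons,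
        Multiset.sum_cons, IH, Multiset.map_cons, Multiset.sum_cons]

private theorem smain_step (ε q s : ℕ) (hs : 2 ≤ s) (hsq : s ≤ q)
    (h1 : SClaim ε (q - 1) (s - 1)) (h2 : s ≤ q - 1 → SClaim 1 (q - 1) s) : SClaim ε q s := by
  have key : ∀ c : ℕ, ∀ (a₀ b : ℕ) (l : Multiset ℕ), Adm (q - 1) s b a₀ → (∀ x ∈ l, x ≤ a₀) →
      cost ε q s a₀ l = c → F ε s q (b + a₀ + l.sum) ≤ cost ε q s a₀ l := by
    intro c
    induction c using Nat.strong_induction_on with
    | _ c IH =>
      intro a₀ b l hadm hl hc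
      -- remove zeros
      have hsum : (l.filter (fun x => x ≠ 0)).sum = l.sum := by
        have := smain_filter_sum l id rfl
        rwa [Multiset.map_id, Multiset.map_id] at this
      have hcost : cost ε q s a₀ (l.filter (fun x => x ≠ 0)) = cost ε q s a₀ l := by
        unfold cost
        rw [smain_filter_sum l _ (F_zero ε (s - 1) (q - 1))]
      have hl' : ∀ x ∈ l.filter (fun x => x ≠ 0), 1 ≤ x ∧ x ≤ a₀ := by
        intro x hx
        rw [Multiset.mem_filter] at hx
        exact ⟨by omega, hl x hx.1⟩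
      rw [← hsum, ← hcost]
      rw [← hcost] at hc
      generalize l.filter (fun x => x ≠ 0) = m at hl' hc
      have IH' : ∀ (a₀ b : ℕ) (l : Multiset ℕ), Adm (q - 1) s b a₀ → (∀ x ∈ l, x ≤ a₀) →
          cost ε q s a₀ l < c → F ε s q (b + a₀ + l.sum) ≤ cost ε q s a₀ l :=
        fun a₀ b l h3 h4 h5 => IH _ h5 a₀ b l h3 h4 rfl
      by_cases hcase : a₀ ≤ t (q - 1) (s - 1) ((q - 1) * (Multiset.card m + 1))
      · by_cases hm : m = 0
        · subst hm
          have h3 := kOne ε q s a₀ b hs hsq (by simpa using hcase) hadm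
          unfold cost
          simpa using h3
        · exact caseI ε q s c hs hsq IH' a₀ b m hadm hl' hm hcase (le_of_eq hc)
      · obtain ⟨b', a₀', l', h3, h4, h5, h6, h7, h8⟩ :=
          caseII ε q s hs hsq h1 h2 a₀ b m hadm hl' (by omega)
        have h9 := caseI ε q s c hs hsq IH' a₀' b' l' h3 h4 h5 h6 (by omega)
        have h10 := F_mono ε s q h7
        omega
  intro a₀ b l hadm hl
  exact key _ a₀ b l hadm hl rfl

theorem SClaim_all (ε q s : ℕ) (hs : 1 ≤ s) (hsq : s ≤ q) : SClaim ε q s := by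
  induction q generalizing ε s with
  | zero => omega
  | succ q IH =>
    by_cases h : s = 1
    · subst h; exact SClaim_one ε (q + 1)
    · apply smain_step ε (q + 1) s (by omega) hsq
      · exact IH ε (s - 1) (by omega) (by omega)
      · intro h2
        exact IH 1 s hs (by simpa using h2)

end FlagB
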