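import Pool.Agent.Lib.MP_4a7d3d_co.FB.ClSplit
import Pool.Agent.Lib.MP_4a7d3d_co.FB.RkSplit
import Pool.Agent.Lib.MP_4a7d3d_co.FB.SMain

/-!
# FB-Graph (1.2 h): the graph step.
Proof. Induction on `q`. `s = 1`: `F ε 1 q _ <= 1`, `cl G W 0 = {∅}`; if `W ≠ ∅`, `rk >= 1` by `rk_cone`.
`s >= 2`, `W ≠ ∅` (else the card is 0): choose `v₀ ∈ W` maximising `(cl G (nb G W v) (s-1)).card`, `N₀ = nb G W v₀`,
`a₀ = (cl G N₀ (s-1)).card`, `b = (cl G N₀ s).card`. `Adm (q-1) s b a₀` by induction (`cl G N₀ q = ∅`). Claim for every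
`U ⊆ W \ (insert v₀ N₀)`, with `W_U = insert v₀ N₀ ∪ U`: there is a multiset `l` with all members `<= a₀`,
`(cl G W_U s).card = b + a₀ + l.sum`, `a₀ + F 1 (s-1) (q-1) a₀ + ∑_l F 1 (s-1) (q-1) <= (cl G W_U (s-1)).card`,
`a₀ + ∑_l F 0 (s-1) (q-1) <= rk k (cl G W_U s)`. Induction on `U`: `U = ∅`: `card_cl_succ` at `v₀` (its neighbours in `insert v₀ N₀` are
`N₀`), induction hypothesis for `N₀`, `q-1`, `s-1`; `rk_cone`. Adding `w`: `x = (cl G (nb G _ w) (s-1)).card <= a₀` by the choice of `v₀` and `cl_mono`;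
`card_cl_succ` for `s` and `s-1`, `rk_split`, `lk_cl`, `av_cl`, induction hypothesis for the neighbourhood. Finally `U = W \ ..` and `SClaim_all 1 q s`,
`SClaim_all 0 q s` (`cost 1 q s = a₀ + F .. a₀ + ∑`, `cost 0 q s = a₀ + ∑`).
-/

set_option autoImplicit false

namespace FlagB

open Finset Polynomial

private theorem G_nb_mono {V : Type*} [LinearOrder V] (G : SimpleGraph V) {W W' : Finset V}
    (h : W ⊆ W') (v : V) : nb G W v ⊆ nb G W' v := by
  intro u hu
  rw [mem_nb] at hu ⊢
  exact ⟨h hu.1, hu.2⟩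

private theorem G_one (k : Type*) [Field k] {V : Type*} [LinearOrder V] (G : SimpleGraph V)
    (q : ℕ) (W : Finset V) :
    F 1 1 q (cl G W 1).card ≤ (cl G W 0).card ∧ F 0 1 q (cl G W 1).card ≤ rk k (cl G W 1) := by
  rw [F_first, F_first, cl_zero, Finset.card_singleton]
  constructor
  · split_ifs <;> omega
  · split_ifs with h
    · exact Nat.zero_le _
    · obtain ⟨A, hA⟩ := Finset.card_pos.mp (Nat.pos_of_ne_zero h)
      obtain ⟨h1, h2, h3⟩ := mem_cl.mp hA
      obtain ⟨v, rfl⟩ := Finset.card_eq_one.mp h2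
      have hv : v ∈ W := h1 (Finset.mem_singleton_self v)
      have h4 := rk_cone k v (cl G W 1)
      have h5 : lk v (cl G W (0 + 1)) = cl G (nb G W v) 0 := lk_cl G hv 0
      rw [zero_add] at h5
      rw [h5, cl_zero, Finset.card_singleton] at h4
      exact h4

/-- the induction over the remaining vertices -/
private theorem G_build (k : Type*) [Field k] {V : Type*} [LinearOrder V] (G : SimpleGraph V)
    (q r : ℕ)
    (ih1 : ∀ M : Finset V, cl G M (q + 1) = ∅ →
      F 1 (r + 1) q (cl G M (r + 1)).card ≤ (cl G M r).card ∧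
      F 0 (r + 1) q (cl G M (r + 1)).card ≤ rk k (cl G M (r + 1)))
    (W : Finset V) (v₀ : V) (hv₀ : v₀ ∈ W) (hW : cl G W (q + 1 + 1) = ∅)
    (hmax : ∀ v ∈ W, (cl G (nb G W v) (r + 1)).card ≤ (cl G (nb G W v₀) (r + 1)).card)
    (U : Finset V) (hU : U ⊆ W \ insert v₀ (nb G W v₀)) :
    ∃ l : Multiset ℕ, (∀ x ∈ l, x ≤ (cl G (nb G W v₀) (r + 1)).card) ∧
      (cl G (insert v₀ (nb G W v₀) ∪ U) (r + 1 + 1)).card =
        (cl G (nb G W v₀) (r + 1 + 1)).card + (cl G (nb G W v₀) (r + 1)).card + l.sum ∧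
      (cl G (nb G W v₀) (r + 1)).card + F 1 (r + 1) q (cl G (nb G W v₀) (r + 1)).card +
        (l.map (F 1 (r + 1) q)).sum ≤ (cl G (insert v₀ (nb G W v₀) ∪ U) (r + 1)).card ∧
      (cl G (nb G W v₀) (r + 1)).card + (l.map (F 0 (r + 1) q)).sum ≤
        rk k (cl G (insert v₀ (nb G W v₀) ∪ U) (r + 1 + 1)) := by
  have hvN : v₀ ∉ nb G W v₀ := by
    rw [mem_nb]
    rintro ⟨-, h⟩
    exact G.loopless.irrefl _ h
  have hNW : nb G W v₀ ⊆ W := fun u hu => (mem_nb.mp hu).1
  have hNe : cl G (nb G W v₀) (q + 1) = ∅ := cl_nb_empty G hv₀ hW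
  induction U using Finset.induction_on with
  | empty =>
    refine ⟨0, by simp, ?_, ?_, ?_⟩
    all_goals rw [Finset.union_empty]
    · have h1 := card_cl_succ G (W := insert v₀ (nb G W v₀)) (v := v₀)
        (Finset.mem_insert_self _ _) (r + 1)
      have h2 : nb G (insert v₀ (nb G W v₀)) v₀ = nb G W v₀ := by
        ext u
        rw [mem_nb, Finset.mem_insert]
        constructor
        · rintro ⟨h | h, h'⟩
          · subst h; exact absurd h' (G.loopless.irrefl _)
          · exact h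
        · intro h
          exact ⟨Or.inr h, (mem_nb.mp h).2⟩
      rw [Finset.erase_insert hvN, h2] at h1
      rw [h1]; simp
    · have h1 := card_cl_succ G (W := insert v₀ (nb G W v₀)) (v := v₀)
        (Finset.mem_insert_self _ _) r
      have h2 : nb G (insert v₀ (nb G W v₀)) v₀ = nb G W v₀ := by
        ext u
        rw [mem_nb, Finset.mem_insert]
        constructor
        · rintro ⟨h | h, h'⟩
          · subst h; exact absurd h' (G.loopless.irrefl _)
          · exact h
        · intro h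
          exact ⟨Or.inr h, (mem_nb.mp h).2⟩
      rw [Finset.erase_insert hvN, h2] at h1
      rw [h1]
      have h3 := (ih1 _ hNe).1
      simp only [Multiset.map_zero, Multiset.sum_zero]
      omega
    · have h2 : nb G (insert v₀ (nb G W v₀)) v₀ = nb G W v₀ := by
        ext u
        rw [mem_nb, Finset.mem_insert]
        constructor
        · rintro ⟨h | h, h'⟩
          · subst h; exact absurd h' (G.loopless.irrefl _)
          · exact h
        · intro h
          exact ⟨Or.inr h, (mem_nb.mp h).2⟩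
      have h3 := rk_cone k v₀ (cl G (insert v₀ (nb G W v₀)) (r + 1 + 1))
      rw [lk_cl G (Finset.mem_insert_self _ _) (r + 1), h2] at h3
      simpa using h3
  | insert w U hw ihU =>
    have hU' : U ⊆ W \ insert v₀ (nb G W v₀) := fun u hu => hU (Finset.mem_insert_of_mem hu)
    obtain ⟨l, hl1, hl2, hl3, hl4⟩ := ihU hU'
    have hwW := hU (Finset.mem_insert_self w U)
    rw [Finset.mem_sdiff] at hwW
    obtain ⟨hwW, hwN⟩ := hwW
    obtain ⟨B, hB⟩ : ∃ B, B = insert v₀ (nb G W v₀) ∪ U := ⟨_, rfl⟩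
    have hwB : w ∉ B := by
      rw [hB, Finset.mem_union, not_or]; exact ⟨hwN, hw⟩
    have hB' : insert v₀ (nb G W v₀) ∪ insert w U = insert w B := by
      rw [hB, Finset.union_insert]
    have hBW : insert w B ⊆ W := by
      intro u hu
      rw [Finset.mem_insert] at hu
      rcases hu with rfl | hu
      · exact hwW
      · rw [hB, Finset.mem_union, Finset.mem_insert] at hu
        rcases hu with (rfl | hu) | hu
        · exact hv₀
        · exact hNW hu
        · exact (Finset.mem_sdiff.mp (hU' hu)).1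
    rw [← hB] at hl2 hl3 hl4
    rw [hB']
    obtain ⟨M, hM⟩ : ∃ M, M = nb G (insert w B) w := ⟨_, rfl⟩
    have hMW : M ⊆ nb G W w := by rw [hM]; exact G_nb_mono G hBW w
    have hMe : cl G M (q + 1) = ∅ := by
      have h1 : cl G (nb G W w) (q + 1) = ∅ := cl_nb_empty G hwW hW
      have h2 := cl_mono G hMW (q + 1)
      rw [h1] at h2
      exact Finset.subset_empty.mp h2
    obtain ⟨i1, i2⟩ := ih1 M hMe
    have c1 := card_cl_succ G (W := insert w B) (v := w) (Finset.mem_insert_self _ _) (r + 1)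
    have c2 := card_cl_succ G (W := insert w B) (v := w) (Finset.mem_insert_self _ _) r
    rw [Finset.erase_insert hwB, ← hM] at c1 c2
    have c3 := rk_split k w (cl G (insert w B) (r + 1 + 1))
    rw [av_cl, lk_cl G (Finset.mem_insert_self _ _) (r + 1), Finset.erase_insert hwB, ← hM] at c3
    refine ⟨(cl G M (r + 1)).card ::ₘ l, ?_, ?_, ?_, ?_⟩
    · intro x hx
      rw [Multiset.mem_cons] at hx
      rcases hx with rfl | hx
      · exact (Finset.card_le_card (cl_mono G hMW (r + 1))).trans (hmax w hwW)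
      · exact hl1 x hx
    · rw [c1, hl2, Multiset.sum_cons]; ring
    · rw [c2, Multiset.map_cons, Multiset.sum_cons]; omega
    · rw [Multiset.map_cons, Multiset.sum_cons]; omega

theorem graph_ineq (k : Type*) [Field k] {V : Type*} [LinearOrder V] (G : SimpleGraph V) (q : ℕ)
    (W : Finset V) (hq : cl G W (q + 1) = ∅) (s : ℕ) (hs : 1 ≤ s) (hsq : s ≤ q) :
    F 1 s q (cl G W s).card ≤ (cl G W (s - 1)).card ∧
    F 0 s q (cl G W s).card ≤ rk k (cl G W s) := by
  induction q generalizing W s with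
  | zero => omega
  | succ q ih =>
    rcases Nat.eq_or_lt_of_le hs with h1 | h1
    · subst h1
      exact G_one k G (q + 1) W
    obtain ⟨r, rfl⟩ : ∃ r, s = r + 1 + 1 := ⟨s - 2, by omega⟩
    rw [Nat.add_sub_cancel]
    rcases W.eq_empty_or_nonempty with hW | hW
    · have h2 : (cl G W (r + 1 + 1)).card = 0 := by
        rw [Finset.card_eq_zero, Finset.eq_empty_iff_forall_notMem]
        intro A hA
        obtain ⟨h3, h4, -⟩ := mem_cl.mp hA
        rw [hW, Finset.subset_empty] at h3
        rw [h3, Finset.card_empty] at h4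
        omega
      rw [h2, F_zero, F_zero]
      exact ⟨Nat.zero_le _, Nat.zero_le _⟩
    obtain ⟨v₀, hv₀, hmax⟩ := Finset.exists_max_image W
      (fun v => (cl G (nb G W v) (r + 1)).card) hW
    have hNe : cl G (nb G W v₀) (q + 1) = ∅ := cl_nb_empty G hv₀ hq
    have hNW : nb G W v₀ ⊆ W := fun u hu => (mem_nb.mp hu).1
    have hadm : Adm (q + 1 - 1) (r + 1 + 1) (cl G (nb G W v₀) (r + 1 + 1)).card
        (cl G (nb G W v₀) (r + 1)).card := by
      rw [Nat.add_sub_cancel]
      rcases Nat.lt_or_ge q (r + 1 + 1) with h2 | h2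
      · left
        have h3 : r + 1 + 1 = q + 1 := by omega
        rw [h3, hNe, Finset.card_empty]
      · right
        exact ⟨h2, (ih (nb G W v₀) hNe (r + 1 + 1) (by omega) h2).1⟩
    obtain ⟨l, hl1, hl2, hl3, hl4⟩ := G_build k G q r
      (fun M hM => ih M hM (r + 1) (by omega) (by omega)) W v₀ hv₀ hq hmax
      (W \ insert v₀ (nb G W v₀)) (Finset.Subset.refl _)
    have hWU : insert v₀ (nb G W v₀) ∪ (W \ insert v₀ (nb G W v₀)) = W := by
      apply Finset.union_sdiff_of_subset
      intro u hu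
      rw [Finset.mem_insert] at hu
      rcases hu with rfl | hu
      · exact hv₀
      · exact hNW hu
    rw [hWU] at hl2 hl3 hl4
    have s1 := SClaim_all 1 (q + 1) (r + 1 + 1) (by omega) hsq _ _ l hadm hl1
    have s0 := SClaim_all 0 (q + 1) (r + 1 + 1) (by omega) hsq _ _ l hadm hl1
    rw [← hl2] at s1 s0
    unfold cost at s1 s0
    rw [Nat.add_sub_cancel, Nat.add_sub_cancel] at s1 s0
    constructor
    · refine s1.trans (le_trans (le_of_eq ?_) hl3)
      ring
    · refine s0.trans (le_trans (le_of_eq ?_) hl4)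
      ring

end FlagB
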