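import Pool.Agent.Lib.MP_4a7d3d_co.FB.BdBasic
import Pool.Agent.Lib.MP_4a7d3d_co.FB.RkSplit

/-!
# FB-Homol (0.9 h): Betti numbers from the numbers of faces and the ranks.
`boundaries s = span of bd (faces with s+1 vertices)`, `finrank = rk (faces_{s+1})`. `cycles s` = kernel of `bd` on `chains s`
(`finrank (chains s) = fnum s`), so by rank-nullity `finrank cycles = fnum s - rk (faces_s)`. `boundaries s ≤ cycles s` (`bd_bd`; facets of faces are
faces), so `betti s = finrank cycles - finrank boundaries` (`Submodule.finrank_quotient_add_finrank`, and the comap of `B` under the inclusion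
of `Z ≥ B` has the dimension of `B`).
-/

set_option autoImplicit false

namespace FlagB

open Finset Polynomial

variable (k : Type*) [Field k] {V : Type*} [LinearOrder V]

private theorem homol_chains (K : Cplx V) (s : ℕ) :
    K.chains k s = Submodule.span k ((fun A : Finset V => (Finsupp.single A 1 : Finset V →₀ k)) ''
      ((K.faces.filter (fun A => A.card = s) : Finset (Finset V)) : Set (Finset V))) := by
  unfold Cplx.chains
  rw [Finsupp.supported_eq_span_single]
  congr 2
  ext A
  simp

private theorem homol_map (K : Cplx V) (s : ℕ) :
    (K.chains k s).map (bd k) = bdSpan k (K.faces.filter (fun A => A.card = s)) := by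
  rw [homol_chains, Submodule.map_span, bdSpan, ← Set.image_comp]
  rfl

private instance homol_fin (K : Cplx V) (s : ℕ) : FiniteDimensional k (K.chains k s) := by
  rw [homol_chains]
  exact FiniteDimensional.span_of_finite k ((Finset.finite_toSet _).image _)

private theorem homol_finrank_chains (K : Cplx V) (s : ℕ) :
    Module.finrank k (K.chains k s) = K.fnum s := by
  have h1 : LinearIndependent k
      (fun A : ((K.faces.filter (fun A => A.card = s) : Finset (Finset V)) : Set (Finset V)) =>
        (Finsupp.single (A : Finset V) 1 : Finset V →₀ k)) :=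
    (Finsupp.linearIndependent_single_one k (Finset V)).comp _ Subtype.val_injective
  have h2 := finrank_span_eq_card h1
  rw [homol_chains]
  have h3 : (fun A : Finset V => (Finsupp.single A 1 : Finset V →₀ k)) ''
      ((K.faces.filter (fun A => A.card = s) : Finset (Finset V)) : Set (Finset V)) =
      Set.range (fun A : ((K.faces.filter (fun A => A.card = s) : Finset (Finset V)) :
        Set (Finset V)) => (Finsupp.single (A : Finset V) 1 : Finset V →₀ k)) := by
    ext x
    simp
  rw [h3, h2]
  unfold Cplx.fnum
  simp

private theorem homol_cycles (K : Cplx V) (s : ℕ) :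
    Module.finrank k (K.cycles k s) + rk k (K.faces.filter (fun A => A.card = s)) =
      K.fnum s := by
  have h1 := LinearMap.finrank_range_add_finrank_ker (K := k) (V := ↥(K.chains k s))
    (V₂ := Finset V →₀ k) ((bd k).domRestrict (K.chains k s))
  have h2 : LinearMap.range ((bd k).domRestrict (K.chains k s)) =
      bdSpan k (K.faces.filter (fun A => A.card = s)) := by
    rw [← homol_map, LinearMap.range_domRestrict]
  have h3 : Module.finrank k (LinearMap.ker ((bd k).domRestrict (K.chains k s))) =
      Module.finrank k (K.cycles k s) := by
    have h4 : LinearMap.ker ((bd k).domRestrict (K.chains k s)) =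
        (LinearMap.ker (bd k)).comap (K.chains k s).subtype := by
      ext x
      simp
    have h5 : (LinearMap.ker ((bd k).domRestrict (K.chains k s))).map (K.chains k s).subtype =
        K.cycles k s := by
      rw [h4, Submodule.map_comap_subtype]
      rfl
    rw [← Submodule.finrank_map_subtype_eq, h5]
  rw [h2, h3, homol_finrank_chains] at h1
  unfold rk
  omega

private theorem homol_le (K : Cplx V) (s : ℕ) : K.boundaries k s ≤ K.cycles k s := by
  unfold Cplx.boundaries Cplx.cycles
  rw [homol_map, bdSpan, Submodule.span_le]
  rintro _ ⟨A, hA, rfl⟩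
  rw [Finset.mem_coe, Finset.mem_filter] at hA
  refine ⟨?_, ?_⟩
  · rw [SetLike.mem_coe]
    change bd k (Finsupp.single A 1) ∈ K.chains k s
    rw [bd_single]
    refine Submodule.sum_mem _ fun v hv => ?_
    refine Finsupp.single_mem_supported k _ ?_
    refine ⟨K.down A hA.1 _ (Finset.erase_subset _ _), ?_⟩
    rw [Finset.card_erase_of_mem hv, hA.2]
    rfl
  · exact bd_bd k _

private instance homol_fin2 (K : Cplx V) (s : ℕ) : FiniteDimensional k (K.cycles k s) := by
  unfold Cplx.cycles
  exact Submodule.finiteDimensional_inf_left _ _

private theorem homol_bd (K : Cplx V) (s : ℕ) :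
    Module.finrank k (K.boundaries k s) = rk k (K.faces.filter (fun A => A.card = s + 1)) := by
  unfold Cplx.boundaries
  rw [homol_map]
  rfl

private theorem homol_quot (K : Cplx V) (s : ℕ) :
    K.betti k s + rk k (K.faces.filter (fun A => A.card = s + 1)) =
      Module.finrank k (K.cycles k s) := by
  have h1 := Submodule.finrank_quotient_add_finrank (R := k) (M := ↥(K.cycles k s))
    (Submodule.comap (Submodule.subtype (K.cycles k s)) (K.boundaries k s))
  have h2 : Module.finrank k ((K.boundaries k s).comap (K.cycles k s).subtype) =
      Module.finrank k (K.boundaries k s) := by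
    rw [← Submodule.finrank_map_subtype_eq, Submodule.map_comap_subtype,
      inf_eq_right.2 (homol_le k K s)]
  rw [h2, homol_bd] at h1
  exact h1

theorem Cplx.betti_eq (K : Cplx V) (s : ℕ) :
    K.betti k s = K.fnum s - rk k (K.faces.filter (fun A => A.card = s)) -
      rk k (K.faces.filter (fun A => A.card = s + 1)) := by
  have h1 := homol_quot k K s
  have h2 := homol_cycles k K s
  omega

theorem Cplx.rk_succ_le (K : Cplx V) (s : ℕ) :
    rk k (K.faces.filter (fun A => A.card = s + 1)) ≤
      K.fnum s - rk k (K.faces.filter (fun A => A.card = s)) := by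
  have h1 := homol_quot k K s
  have h2 := homol_cycles k K s
  omega

end FlagB
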