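import Pool.Agent.Lib.MP_4a7d3d_co.FB.Build
import Pool.Agent.Lib.MP_4a7d3d_co.FB.Homol
import Pool.Agent.Lib.MP_4a7d3d_co.FB.Graph

/-!
# FB-Final (0.6 h): the theorem.
Proof. `W` = vertices of `Δ` (`Δ.faces.sup id`), `G.Adj u v := u ≠ v ∧ {u, v} ∈ Δ.faces`; flagness: the faces with `s` vertices are `cl G W s`.
`q = Δ.rank`. If `q = 0`, `Δ = {∅}` and `Γ = {∅}` works (`betti_eq`, the numbers agree, `bd ∅ = 0`). `q >= 1`: `cl G W (q+1) = ∅`, `f s = Δ.fnum s`,
`ρ s = rk (faces_s)`; `graph_ineq` gives `h4`; `rk_le_card`, `Cplx.rk_succ_le` give `h1`, `h2`; `build`; then `betti_eq` for both.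
-/

set_option autoImplicit false

namespace FlagB

open Finset Polynomial

private theorem rk_sub_empty (k : Type*) [Field k] {V : Type*} [LinearOrder V] {𝒜 : Finset (Finset V)}
    (h : ∀ A ∈ 𝒜, A = ∅) : rk k 𝒜 = 0 := by
  have h1 : bdSpan k 𝒜 = ⊥ := by
    unfold bdSpan
    rw [Submodule.span_eq_bot]
    rintro x ⟨A, hA, rfl⟩
    have hA' := h A (Finset.mem_coe.1 hA)
    subst hA'
    change bd k (Finsupp.single ∅ 1) = 0
    rw [bd_single, Finset.sum_empty]
  unfold rk
  rw [h1, finrank_bot]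

private theorem card_le_rank {V : Type*} [DecidableEq V] (Δ : Cplx V) {A : Finset V} (hA : A ∈ Δ.faces) :
    A.card ≤ Δ.rank := Finset.le_sup (f := Finset.card) hA

private theorem fnum_zero {V : Type*} [DecidableEq V] (Δ : Cplx V) : Δ.fnum 0 = 1 := by
  unfold Cplx.fnum
  have : Δ.faces.filter (fun A => A.card = 0) = {∅} := by
    ext A
    rw [Finset.mem_filter, Finset.mem_singleton, Finset.card_eq_zero]
    exact ⟨fun h => h.2, fun h => ⟨by rw [h]; exact Δ.empty_mem, h⟩⟩
  rw [this, Finset.card_singleton]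

private theorem fnum_gt {V : Type*} [DecidableEq V] (Δ : Cplx V) {s : ℕ} (h : Δ.rank < s) : Δ.fnum s = 0 := by
  unfold Cplx.fnum
  rw [Finset.card_eq_zero, Finset.filter_eq_empty_iff]
  intro A hA hc
  have := card_le_rank Δ hA
  omega

private theorem cl_eq {V : Type*} [LinearOrder V] (Δ : Cplx V) (hflag : Δ.IsFlag) (G : SimpleGraph V)
    (hG : ∀ u v, G.Adj u v ↔ u ≠ v ∧ ({u, v} : Finset V) ∈ Δ.faces) (s : ℕ) :
    cl G (Δ.faces.sup id) s = Δ.faces.filter (fun A => A.card = s) := by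
  classical
  ext A
  unfold cl
  rw [Finset.mem_filter, Finset.mem_powersetCard, Finset.mem_filter]
  constructor
  · rintro ⟨⟨hAW, hAc⟩, hcl⟩
    refine ⟨hflag A (fun u hu v hv => ?_), hAc⟩
    by_cases huv : u = v
    · subst huv
      have hu' := hAW hu
      rw [Finset.mem_sup] at hu'
      obtain ⟨B, hB, huB⟩ := hu'
      refine Δ.down B hB _ ?_
      intro x hx
      have : x = u := by simpa using hx
      rw [this]
      exact huB
    · exact ((hG u v).1 (hcl (Finset.mem_coe.2 hu) (Finset.mem_coe.2 hv) huv)).2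
  · rintro ⟨hA, hAc⟩
    refine ⟨⟨fun x hx => ?_, hAc⟩, ?_⟩
    · rw [Finset.mem_sup]
      exact ⟨A, hA, hx⟩
    · intro u hu v hv huv
      refine (hG u v).2 ⟨huv, Δ.down A hA _ ?_⟩
      intro x hx
      rw [Finset.mem_insert, Finset.mem_singleton] at hx
      rcases hx with rfl | rfl
      · exact hu
      · exact hv

theorem main_theorem (k : Type*) [Field k] {V : Type*} [LinearOrder V] (Δ : Cplx V)
    (hflag : Δ.IsFlag) :
    ∃ Γ : Cplx ℕ, Γ.IsBalanced ∧ (∀ s, Γ.fnum s = Δ.fnum s) ∧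
      (∀ s, Γ.betti k s = Δ.betti k s) := by
  have hρ0 : rk k (Δ.faces.filter (fun A => A.card = 0)) = 0 := by
    refine rk_sub_empty k (fun A hA => ?_)
    exact Finset.card_eq_zero.1 (Finset.mem_filter.1 hA).2
  rcases Nat.eq_zero_or_pos Δ.rank with h0 | h0
  · have hΔ : ∀ A ∈ Δ.faces, A = ∅ := by
      intro A hA
      have := card_le_rank Δ hA
      exact Finset.card_eq_zero.1 (by omega)
    let Γ : Cplx ℕ := ⟨{∅}, Finset.mem_singleton_self _, fun A hA B hB => by
      rw [Finset.mem_singleton] at hA ⊢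
      subst hA
      exact Finset.subset_empty.1 hB⟩
    have hΓ : ∀ A ∈ Γ.faces, A = ∅ := fun A hA => Finset.mem_singleton.1 hA
    have hfn : ∀ s, Γ.fnum s = Δ.fnum s := by
      intro s
      rcases Nat.eq_zero_or_pos s with hs | hs
      · subst hs
        rw [fnum_zero, fnum_zero]
      · have hΓr : Γ.rank = 0 := by
          unfold Cplx.rank
          rw [← Nat.le_zero]
          refine Finset.sup_le (fun A hA => ?_)
          rw [hΓ A hA]
          simp
        rw [fnum_gt Γ (by omega), fnum_gt Δ (by omega)]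
    refine ⟨Γ, ⟨fun _ => 0, fun v hv => ?_, fun A hA u hu => ?_⟩, hfn, fun s => ?_⟩
    · have := hΓ _ hv
      simp at this
    · rw [hΓ A hA] at hu
      exact absurd hu (Finset.notMem_empty _)
    · have e1 : ∀ r, rk k (Γ.faces.filter (fun A => A.card = r)) = 0 := fun r =>
        rk_sub_empty k (fun A hA => hΓ A (Finset.mem_filter.1 hA).1)
      have e2 : ∀ r, rk k (Δ.faces.filter (fun A => A.card = r)) = 0 := fun r =>
        rk_sub_empty k (fun A hA => hΔ A (Finset.mem_filter.1 hA).1)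
      rw [Cplx.betti_eq, Cplx.betti_eq, e1, e1, e2, e2, hfn]
  · let G : SimpleGraph V := {
      Adj := fun u v => u ≠ v ∧ ({u, v} : Finset V) ∈ Δ.faces
      symm := ⟨fun u v h => ⟨h.1.symm, by rw [Finset.pair_comm]; exact h.2⟩⟩
      loopless := ⟨fun u h => h.1 rfl⟩ }
    have hcl : ∀ s, cl G (Δ.faces.sup id) s = Δ.faces.filter (fun A => A.card = s) :=
      cl_eq Δ hflag G (fun u v => Iff.rfl)
    obtain ⟨Γ, hbal, hfn, hrk⟩ := build k Δ.rank h0 (fun s => Δ.fnum s)
      (fun s => rk k (Δ.faces.filter (fun A => A.card = s))) (fnum_zero Δ) hρ0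
      (fun s => rk_le_card k _) (fun s => Cplx.rk_succ_le k Δ s) (fun s hs => fnum_gt Δ hs)
      (by
        obtain ⟨A, hA, hA2⟩ := Finset.exists_mem_eq_sup Δ.faces ⟨∅, Δ.empty_mem⟩ Finset.card
        refine Finset.card_pos.2 ⟨A, Finset.mem_filter.2 ⟨hA, ?_⟩⟩
        exact hA2.symm)
      (by
        intro s hs hsq
        have h1 := (graph_ineq k G Δ.rank (Δ.faces.sup id) (by
          rw [hcl, Finset.filter_eq_empty_iff]
          intro A hA hc
          have := card_le_rank Δ hA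
          omega) s hs hsq).2
        rw [hcl] at h1
        exact h1)
    refine ⟨Γ, hbal, hfn, fun s => ?_⟩
    rw [Cplx.betti_eq, Cplx.betti_eq, hrk, hrk, hfn]

end FlagB
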