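import Pool.Agent.Lib.MP_4a7d3d_co.FB.Defs

/-!
# FB-IniBasic (0.6 h): initial families.
`Ini.total`: as in Mathlib's `Finset.Colex.IsInitSeg.total` (colex is a linear order on finite sets).
`exists_first`: remove the colex-largest member repeatedly (induction on `ℬ.card`), or sort.
`ini_exists_sub`: from `exists_first`.
-/

set_option autoImplicit false

namespace FlagB

open Finset Polynomial

theorem Ini.total {Q : ℕ} {C : Finset ℕ} {s : ℕ} {𝒜 ℬ : Finset (Finset ℕ)}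
    (hA : Ini Q C s 𝒜) (hB : Ini Q C s ℬ) : 𝒜 ⊆ ℬ ∨ ℬ ⊆ 𝒜 := by
  by_contra hcon
  push Not at hcon
  obtain ⟨h1, h2⟩ := hcon
  rw [Finset.not_subset] at h1 h2
  obtain ⟨A, hA1, hA2⟩ := h1
  obtain ⟨B, hB1, hB2⟩ := h2
  rcases lt_trichotomy (toColex A) (toColex B) with h | h | h
  · exact hA2 (hB.2 B hB1 A (hA.1 A hA1) h)
  · have : A = B := by simpa using h
    subst this
    exact hA2 hB1
  · exact hB2 (hA.2 A hA1 B (hB.1 B hB1) h)

theorem Ini.subset_of_card_le {Q : ℕ} {C : Finset ℕ} {s : ℕ} {𝒜 ℬ : Finset (Finset ℕ)}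
    (hA : Ini Q C s 𝒜) (hB : Ini Q C s ℬ) (h : 𝒜.card ≤ ℬ.card) : 𝒜 ⊆ ℬ := by
  rcases hA.total hB with h1 | h1
  · exact h1
  · exact (Finset.eq_of_subset_of_card_le h1 h).symm.subset

theorem exists_first (ℬ : Finset (Finset ℕ)) (m : ℕ) (hm : m ≤ ℬ.card) :
    ∃ 𝒜 ⊆ ℬ, 𝒜.card = m ∧ ∀ A ∈ 𝒜, ∀ B ∈ ℬ, toColex B < toColex A → B ∈ 𝒜 := by
  induction m with
  | zero => exact ⟨∅, by simp, by simp, by simp⟩
  | succ m ih =>
    obtain ⟨𝒜, hs, hc, hi⟩ := ih (by omega)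
    have hne : (ℬ \ 𝒜).Nonempty := by
      rw [← Finset.card_pos, Finset.card_sdiff_of_subset hs]
      omega
    obtain ⟨M, hM, hMin⟩ := Finset.exists_min_image (ℬ \ 𝒜) (fun A => toColex A) hne
    rw [Finset.mem_sdiff] at hM
    refine ⟨insert M 𝒜, ?_, ?_, ?_⟩
    · intro A hA
      rcases Finset.mem_insert.1 hA with rfl | h
      · exact hM.1
      · exact hs h
    · rw [Finset.card_insert_of_notMem hM.2, hc]
    · intro A hA B hB hlt
      rcases Finset.mem_insert.1 hA with rfl | h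
      · by_contra hcon
        have hB' : B ∈ ℬ \ 𝒜 := by
          rw [Finset.mem_sdiff]
          exact ⟨hB, fun h => hcon (Finset.mem_insert_of_mem h)⟩
        exact absurd hlt (not_lt.2 (hMin B hB'))
      · exact Finset.mem_insert_of_mem (hi A h B hB hlt)

theorem ini_exists_sub {Q : ℕ} {C : Finset ℕ} {s : ℕ} {ℬ : Finset (Finset ℕ)}
    (hB : Ini Q C s ℬ) (m : ℕ) (hm : m ≤ ℬ.card) : ∃ 𝒜 ⊆ ℬ, Ini Q C s 𝒜 ∧ 𝒜.card = m := by
  obtain ⟨𝒜, hs, hc, hi⟩ := exists_first ℬ m hm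
  refine ⟨𝒜, hs, ⟨fun A hA => hB.1 A (hs hA), ?_⟩, hc⟩
  intro A hA B hRB hlt
  exact hi A hA B (hB.2 A (hs hA) B hRB hlt) hlt

end FlagB
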