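import Pool.Agent.Lib.MP_4a7d3d_co.FB.Defs

/-!
# FB-Kap (1.0 h): adding the first vertex of the smallest missing colour.
`kap_mono`: see the paper, Lemma (K). Let `A < B`, `g` the largest element of the symmetric difference, `g ∈ B`, `g ∉ A`,
`c' = c0 A`, `c = c0 B` (vertices `< Q`, not in `A` resp. `B`). `c' = c`: clear. `c' > c`: colour `c` is present in `A`, by `x ∈ A`,
`x < g` (above `g` the sets agree and `B` has no vertex of colour `c`). If `c' > g`: then `g < Q`, all colours of `C` below `c'` are
present in `A`, in particular `g`, by a vertex `g + l Q > g` which is then in `B` too, contradiction with `B` rainbow. If `c' = g`: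
all elements below `g` are `< Q`; the colours of `C` below `g` are all present in `A`, so the elements of `A` below `g` are exactly the
`e ∈ C`, `e < g`, whose colour is not among the colours of the common part above `g`; the elements of `insert c B` below `g` are among
them and both are equally many, so `kap A = kap B`. If `c' < g`: `g` is the largest element of the symmetric difference of `kap A`, `kap B`.
`c' < c`: if `c < g`: `c' < g` and `g` decides. If `c > g`: `c ∈ kap B`, `c ∉ kap A` decides.
`kap_le`: `c0 B <= z % Q <= z` since the colour of `z` is missing in `B`.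
-/

set_option autoImplicit false

namespace FlagB

open Finset Polynomial

theorem c0_mem {Q : ℕ} {C : Finset ℕ} {s : ℕ} {A : Finset ℕ} (hA : Rb Q C s A)
    (hs : s < C.card) : c0 Q C A ∈ miss Q C A := by
  have hne : (miss Q C A).Nonempty := by
    have h1 : (A.image (fun v => v % Q)).card < C.card := by
      refine lt_of_le_of_lt Finset.card_image_le ?_
      rw [hA.1]
      exact hs
    obtain ⟨c, hc, hc'⟩ := Finset.exists_mem_notMem_of_card_lt_card h1
    refine ⟨c, ?_⟩
    unfold miss
    rw [Finset.mem_filter]
    refine ⟨hc, fun v hv hvc => hc' ?_⟩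
    rw [Finset.mem_image]
    exact ⟨v, hv, hvc⟩
  unfold c0
  rw [dif_pos hne]
  exact Finset.min'_mem _ hne

theorem c0_le {Q : ℕ} {C : Finset ℕ} {A : Finset ℕ} {c : ℕ} (hc : c ∈ miss Q C A) :
    c0 Q C A ≤ c := by
  unfold c0
  rw [dif_pos ⟨c, hc⟩]
  exact Finset.min'_le _ _ hc

private theorem c0_props {Q : ℕ} {C : Finset ℕ} (hC : C ⊆ range Q) {s : ℕ} {A : Finset ℕ}
    (hA : Rb Q C s A) (hs : s < C.card) :
    c0 Q C A ∈ C ∧ c0 Q C A < Q ∧ (∀ v ∈ A, v % Q ≠ c0 Q C A) ∧ c0 Q C A ∉ A := by
  have h := c0_mem hA hs
  unfold miss at h
  rw [Finset.mem_filter] at h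
  have hQ : c0 Q C A < Q := Finset.mem_range.mp (hC h.1)
  refine ⟨h.1, hQ, h.2, fun hmem => h.2 _ hmem (Nat.mod_eq_of_lt hQ)⟩

theorem kap_rb {Q : ℕ} {C : Finset ℕ} (hC : C ⊆ range Q) {s : ℕ} {A : Finset ℕ}
    (hA : Rb Q C s A) (hs : s < C.card) : c0 Q C A ∉ A ∧ Rb Q C (s + 1) (kap Q C A) := by
  obtain ⟨h1, h2, h3, h4⟩ := c0_props hC hA hs
  refine ⟨h4, ?_, ?_, ?_⟩
  · unfold kap
    rw [Finset.card_insert_of_notMem h4, hA.1]
  · intro v hv
    unfold kap at hv
    rw [Finset.mem_insert] at hv
    rcases hv with rfl | hv
    · rw [Nat.mod_eq_of_lt h2]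
      exact h1
    · exact hA.2.1 v hv
  · intro u hu v hv huv
    unfold kap at hu hv
    rw [Finset.mem_insert] at hu hv
    rcases hu with hu | hu
    · rcases hv with hv | hv
      · rw [hu, hv]
      · exfalso
        rw [hu, Nat.mod_eq_of_lt h2] at huv
        exact h3 v hv huv.symm
    · rcases hv with hv | hv
      · exfalso
        rw [hv, Nat.mod_eq_of_lt h2] at huv
        exact h3 u hu huv
      · exact hA.2.2 u hu v hv huv

theorem kap_mono {Q : ℕ} {C : Finset ℕ} (hC : C ⊆ range Q) {s : ℕ} {A B : Finset ℕ}
    (hA : Rb Q C s A) (hB : Rb Q C s B) (hs : s < C.card) (h : toColex A ≤ toColex B) :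
    toColex (kap Q C A) ≤ toColex (kap Q C B) := by
  classical
  rcases eq_or_lt_of_le h with heq | hlt
  · have : A = B := by simpa using heq
    rw [this]
  · obtain ⟨a1, a2, a3, a4⟩ := c0_props hC hA hs
    obtain ⟨b1, b2, b3, b4⟩ := c0_props hC hB hs
    have hcA : ∀ c ∈ C, c < c0 Q C A → ∃ v ∈ A, v % Q = c := by
      intro c hc hlt'
      by_contra hcon
      push Not at hcon
      have : c ∈ miss Q C A := by
        unfold miss
        rw [Finset.mem_filter]
        exact ⟨hc, hcon⟩
      have := c0_le this
      omega
    rw [Finset.Colex.toColex_lt_toColex_iff_exists_forall_lt] at hlt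
    obtain ⟨g0, hg0B, hg0A, hg0⟩ := hlt
    have hne : (B \ A).Nonempty := ⟨g0, Finset.mem_sdiff.mpr ⟨hg0B, hg0A⟩⟩
    obtain ⟨g, hg, hgmax⟩ : ∃ g ∈ B \ A, ∀ v ∈ B \ A, v ≤ g :=
      ⟨(B \ A).max' hne, Finset.max'_mem _ hne, fun v hv => Finset.le_max' _ v hv⟩
    rw [Finset.mem_sdiff] at hg
    obtain ⟨hgB, hgA⟩ := hg
    have hg0g : g0 ≤ g := hgmax g0 (Finset.mem_sdiff.mpr ⟨hg0B, hg0A⟩)
    have hlow : ∀ v ∈ A, v ∉ B → v < g := fun v hv hv' => lt_of_lt_of_le (hg0 v hv hv') hg0g
    have hup1 : ∀ v ∈ A, g < v → v ∈ B := by
      intro v hv hgv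
      by_contra hvB
      have := hlow v hv hvB
      omega
    have hup2 : ∀ v ∈ B, g < v → v ∈ A := by
      intro v hv hgv
      by_contra hvA
      have := hgmax v (Finset.mem_sdiff.mpr ⟨hv, hvA⟩)
      omega
    rcases eq_or_ne (c0 Q C A) (c0 Q C B) with hcc | hcc
    · rw [← hcc] at b4
      have hgc : g ≠ c0 Q C A := fun he => b4 (he ▸ hgB)
      rw [Finset.Colex.toColex_le_toColex]
      intro a ha haB
      unfold kap at ha haB
      rw [← hcc] at haB
      rw [Finset.mem_insert] at ha
      rw [Finset.mem_insert, not_or] at haB
      refine ⟨g, Finset.mem_insert_of_mem hgB, ?_, ?_⟩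
      · unfold kap
        rw [Finset.mem_insert, not_or]
        exact ⟨hgc, hgA⟩
      · rcases ha with ha | ha
        · exact absurd ha haB.1
        · exact (hlow a ha haB.2).le
    · by_cases hcg : c0 Q C A < g
      · rw [Finset.Colex.toColex_le_toColex]
        intro a ha haB
        refine ⟨g, Finset.mem_insert_of_mem hgB, ?_, ?_⟩
        · unfold kap
          rw [Finset.mem_insert, not_or]
          exact ⟨by omega, hgA⟩
        · unfold kap at ha haB
          rw [Finset.mem_insert] at ha
          rw [Finset.mem_insert, not_or] at haB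
          rcases ha with ha | ha
          · omega
          · exact (hlow a ha haB.2).le
      · rcases lt_or_gt_of_ne hcc with hlt' | hgt
        · rw [Finset.Colex.toColex_le_toColex]
          intro a ha haB
          refine ⟨c0 Q C B, Finset.mem_insert_self _ _, ?_, ?_⟩
          · unfold kap
            rw [Finset.mem_insert, not_or]
            refine ⟨by omega, fun hmem => b4 (hup1 _ hmem (by omega))⟩
          · unfold kap at ha haB
            rw [Finset.mem_insert] at ha
            rw [Finset.mem_insert, not_or] at haB
            rcases ha with ha | ha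
            · omega
            · have := hlow a ha haB.2
              omega
        · rcases Nat.lt_or_ge g (c0 Q C A) with hg1 | hg1
          · exfalso
            have hgQ : g < Q := by omega
            have hgC : g ∈ C := by
              have := hB.2.1 g hgB
              rwa [Nat.mod_eq_of_lt hgQ] at this
            obtain ⟨v, hvA, hv⟩ := hcA g hgC hg1
            have hvg : v ≠ g := fun he => hgA (he ▸ hvA)
            have hle : g ≤ v := by
              rw [← hv]
              exact Nat.mod_le v Q
            have hvB : v ∈ B := hup1 v hvA (by omega)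
            have := hB.2.2 v hvB g hgB (by rw [hv, Nat.mod_eq_of_lt hgQ])
            exact hvg this
          · have hgc : c0 Q C A = g := by omega
            have hsub : kap Q C B ⊆ kap Q C A := by
              intro e he
              unfold kap at he ⊢
              rw [Finset.mem_insert] at he ⊢
              rcases lt_trichotomy e g with heg | heg | heg
              · right
                have heQ : e < Q := by omega
                have heC : e ∈ C := by
                  rcases he with he | he
                  · rw [he]
                    exact b1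
                  · have := hB.2.1 e he
                    rwa [Nat.mod_eq_of_lt heQ] at this
                obtain ⟨v, hvA, hv⟩ := hcA e heC (by omega)
                by_cases hve : v = e
                · rw [← hve]
                  exact hvA
                · exfalso
                  have hvQ : Q ≤ v := by
                    by_contra hcon
                    rw [Nat.mod_eq_of_lt (by omega)] at hv
                    exact hve hv
                  have hvB : v ∈ B := hup1 v hvA (by omega)
                  rcases he with he | he
                  · exact b3 v hvB (by rw [hv, he])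
                  · exact hve (hB.2.2 v hvB e he (by rw [hv, Nat.mod_eq_of_lt heQ]))
              · left
                omega
              · right
                rcases he with he | he
                · omega
                · exact hup2 e he heg
            have hcard : (kap Q C A).card ≤ (kap Q C B).card := by
              rw [(kap_rb hC hA hs).2.1, (kap_rb hC hB hs).2.1]
            rw [Finset.eq_of_subset_of_card_le hsub hcard]

theorem kap_le {Q : ℕ} {C : Finset ℕ} (hC : C ⊆ range Q) {s : ℕ} {B : Finset ℕ} {z : ℕ}
    (hz : z ∉ B) (hB : Rb Q C (s + 1) (insert z B)) :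
    toColex (kap Q C B) ≤ toColex (insert z B) := by
  have hmiss : z % Q ∈ miss Q C B := by
    unfold miss
    rw [Finset.mem_filter]
    refine ⟨hB.2.1 z (Finset.mem_insert_self _ _), fun v hv hvz => hz ?_⟩
    have := hB.2.2 v (Finset.mem_insert_of_mem hv) z (Finset.mem_insert_self _ _) hvz
    rw [← this]
    exact hv
  have hle : c0 Q C B ≤ z := (c0_le hmiss).trans (Nat.mod_le z Q)
  unfold kap
  by_cases hcz : c0 Q C B = z
  · rw [hcz]
  · rw [Finset.Colex.toColex_le_toColex]
    intro a ha ha'
    rw [Finset.mem_insert] at ha
    rw [Finset.mem_insert, not_or] at ha'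
    refine ⟨z, Finset.mem_insert_self _ _, ?_, ?_⟩
    · rw [Finset.mem_insert, not_or]
      exact ⟨fun he => hcz he.symm, hz⟩
    · rcases ha with ha | ha
      · rw [ha]
        exact hle
      · exact absurd ha ha'.2

end FlagB
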