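import Pool.Agent.Lib.MP_4a7d3d_co.FB.IniExists
import Pool.Agent.Lib.MP_4a7d3d_co.FB.LkAv

/-!
# FB-LastUsed (0.4 h): if an initial family uses a vertex of level `>= p`, then it uses the vertex `p*Q + c`, `c = min C`.
Proof. Let `A ∈ 𝒜`, `v ∈ A`, `v >= p*Q`. Let `y = p*Q + c` (`c = min C`, so `y <= v`: `v % Q >= c` and `v >= p*Q`; if
`v / Q = p` then `v = p*Q + v%Q >= y`, else `v >= (p+1) Q > y`). If `v = y` done (`s >= 1`). If `A` has no vertex of colour `c`: replace `v`
by `y`: rainbow, smaller. If `A` has a vertex `x` of colour `c` and `v % Q ≠ c`: replace `x` by `y` and `v` by `v % Q` (as a vertex):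
the new set `B = insert y (insert (v%Q) ((A.erase x).erase v))`, the largest element of the symmetric difference: `v` if `v > y` is in
`A` and not in `B`, and everything above `v` in `A` is unchanged (`x` may be above `v`, it is only removed): `B < A`. If `v % Q = c`, `v > y`: replace `v` by `y`.
-/

set_option autoImplicit false

namespace FlagB

open Finset Polynomial

private theorem lu_rb {Q : ℕ} {C : Finset ℕ} {s : ℕ} {A : Finset ℕ} (hA : Rb Q C s A) {x y : ℕ}
    (hx : x ∈ A) (hyA : y ∉ A) (hy : y % Q ∈ C)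
    (hcol : ∀ u ∈ A, u ≠ x → u % Q ≠ y % Q) : Rb Q C s (insert y (A.erase x)) := by
  obtain ⟨h1, h2, h3⟩ := hA
  refine ⟨?_, ?_, ?_⟩
  · rw [card_insert_of_notMem (fun h => hyA (mem_of_mem_erase h)), card_erase_add_one hx, h1]
  · intro v hv
    rcases mem_insert.1 hv with rfl | hv
    · exact hy
    · exact h2 v (mem_of_mem_erase hv)
  · intro u hu v hv huv
    rcases mem_insert.1 hu with h4 | h4
    · rcases mem_insert.1 hv with h5 | h5
      · rw [h4, h5]
      · rw [h4] at huv
        exact absurd huv.symm (hcol v (mem_of_mem_erase h5) (ne_of_mem_erase h5))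
    · rcases mem_insert.1 hv with h5 | h5
      · rw [h5] at huv
        exact absurd huv (hcol u (mem_of_mem_erase h4) (ne_of_mem_erase h4))
      · exact h3 u (mem_of_mem_erase h4) v (mem_of_mem_erase h5) huv

private theorem lu_lt {A B : Finset ℕ} {a : ℕ} (ha : a ∈ A) (haB : a ∉ B)
    (h : ∀ b ∈ B, b ∉ A → b < a) : toColex B < toColex A :=
  Finset.Colex.toColex_lt_toColex_iff_exists_forall_lt.2 ⟨a, ha, haB, h⟩

private theorem lu_of_mem {y : ℕ} {𝒜 : Finset (Finset ℕ)} {B : Finset ℕ} (hB : B ∈ 𝒜)
    (hy : y ∈ B) : (lk y 𝒜).Nonempty :=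
  ⟨B.erase y, mem_lk.2 ⟨notMem_erase _ _, by rwa [insert_erase hy]⟩⟩

theorem last_used {Q : ℕ} {C : Finset ℕ} (hC : C ⊆ range Q) {s : ℕ} {𝒜 : Finset (Finset ℕ)}
    (h : Ini Q C s 𝒜) {c : ℕ} (hc : c ∈ C) (hmin : ∀ c' ∈ C, c ≤ c') (p : ℕ)
    (hv : ∃ A ∈ 𝒜, ∃ v ∈ A, p * Q ≤ v) : (lk (p * Q + c) 𝒜).Nonempty := by
  obtain ⟨A, hA, v, hvA, hpv⟩ := hv
  have hcQ : c < Q := mem_range.1 (hC hc)
  have hQ : 0 < Q := by omega
  obtain ⟨h1, h2, h3⟩ := h.1 A hA
  have hRA : Rb Q C s A := ⟨h1, h2, h3⟩
  have hyc : (p * Q + c) % Q = c := by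
    rw [Nat.add_comm, Nat.add_mul_mod_self_right, Nat.mod_eq_of_lt hcQ]
  have hyv : p * Q + c ≤ v := by
    have e1 := Nat.div_add_mod v Q
    have e2 : p ≤ v / Q := (Nat.le_div_iff_mul_le hQ).2 hpv
    have e3 : c ≤ v % Q := hmin _ (h2 v hvA)
    have e4 : p * Q ≤ Q * (v / Q) := by
      rw [mul_comm]
      exact Nat.mul_le_mul_left Q e2
    omega
  generalize hy : p * Q + c = y at *
  by_cases hyA : y ∈ A
  · exact lu_of_mem hA hyA
  have hyv' : y < v := lt_of_le_of_ne hyv (fun e => hyA (e ▸ hvA))
  by_cases hex : ∃ x ∈ A, x % Q = c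
  · obtain ⟨x, hxA, hxc⟩ := hex
    have hxy : x ≠ y := fun e => hyA (e ▸ hxA)
    rcases lt_or_gt_of_ne hxy with hlt | hgt
    · -- `x < y`: replace `v` by `v % Q` and `x` by `y`
      have hvx : v ≠ x := by omega
      have hvc : v % Q ≠ c := fun e => hvx (h3 v hvA x hxA (e.trans hxc.symm))
      have hp : Q ≤ v := by
        have hp1 : p ≠ 0 := by
          rintro rfl
          have e5 : x % Q ≤ x := Nat.mod_le _ _
          omega
        have : 1 * Q ≤ p * Q := Nat.mul_le_mul_right Q (Nat.one_le_iff_ne_zero.2 hp1)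
        omega
      have hvm : v % Q < v := (Nat.mod_lt _ hQ).trans_le hp
      have hvmA : v % Q ∉ A := by
        intro hmem
        have := h3 (v % Q) hmem v hvA (Nat.mod_mod _ _)
        omega
      have hR1 : Rb Q C s (insert (v % Q) (A.erase v)) := by
        refine lu_rb hRA hvA hvmA ?_ ?_
        · rw [Nat.mod_mod]
          exact h2 v hvA
        · intro u hu hne e
          rw [Nat.mod_mod] at e
          exact hne (h3 u hu v hvA e)
      have hxm : x ≠ v % Q := fun e => hvmA (e ▸ hxA)
      have hxA1 : x ∈ insert (v % Q) (A.erase v) :=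
        mem_insert_of_mem (mem_erase.2 ⟨hvx.symm, hxA⟩)
      have hyA1 : y ∉ insert (v % Q) (A.erase v) := by
        intro hmem
        rcases mem_insert.1 hmem with e | hmem
        · rw [e, Nat.mod_mod] at hyc
          exact hvc hyc
        · exact hyA (mem_of_mem_erase hmem)
      have hR2 : Rb Q C s (insert y ((insert (v % Q) (A.erase v)).erase x)) := by
        refine lu_rb hR1 hxA1 hyA1 (by rw [hyc]; exact hc) ?_
        intro u hu hne e
        rw [hyc] at e
        rcases mem_insert.1 hu with rfl | hu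
        · rw [Nat.mod_mod] at e
          exact hvc e
        · exact hne (h3 u (mem_of_mem_erase hu) x hxA (e.trans hxc.symm))
      refine lu_of_mem (h.2 A hA _ hR2 (lu_lt hvA ?_ ?_)) (mem_insert_self _ _)
      · intro hmem
        rcases mem_insert.1 hmem with e | hmem
        · omega
        · rcases mem_insert.1 (mem_of_mem_erase hmem) with e | hmem
          · omega
          · exact notMem_erase _ _ hmem
      · intro b hb hbA
        rcases mem_insert.1 hb with rfl | hb
        · exact hyv'
        · rcases mem_insert.1 (mem_of_mem_erase hb) with rfl | hb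
          · exact hvm
          · exact absurd (mem_of_mem_erase hb) hbA
    · -- `y < x`: replace `x` by `y`
      have hR : Rb Q C s (insert y (A.erase x)) := by
        refine lu_rb hRA hxA hyA (by rw [hyc]; exact hc) ?_
        intro u hu hne e
        rw [hyc] at e
        exact hne (h3 u hu x hxA (e.trans hxc.symm))
      refine lu_of_mem (h.2 A hA _ hR (lu_lt hxA ?_ ?_)) (mem_insert_self _ _)
      · intro hmem
        rcases mem_insert.1 hmem with e | hmem
        · omega
        · exact notMem_erase _ _ hmem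
      · intro b hb hbA
        rcases mem_insert.1 hb with rfl | hb
        · exact hgt
        · exact absurd (mem_of_mem_erase hb) hbA
  · have hR : Rb Q C s (insert y (A.erase v)) := by
      refine lu_rb hRA hvA hyA (by rw [hyc]; exact hc) ?_
      intro u hu _ e
      rw [hyc] at e
      exact hex ⟨u, hu, e⟩
    refine lu_of_mem (h.2 A hA _ hR (lu_lt hvA ?_ ?_)) (mem_insert_self _ _)
    · intro hmem
      rcases mem_insert.1 hmem with e | hmem
      · omega
      · exact notMem_erase _ _ hmem
    · intro b hb hbA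
      rcases mem_insert.1 hb with rfl | hb
      · exact hyv'
      · exact absurd (mem_of_mem_erase hb) hbA

end FlagB
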