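import Pool.Agent.Lib.MP_4a7d3d_co.FB.Defs

/-!
# FB-Mu (0.7 h): marked vertices.
`mk Q C A` = the `c ∈ C` with `c ∈ A` such that all colours `c' < c` of `C` are present in `A`.
`mu_later`: the vertex `y >= Q` is not in `C`, its colour is present in `insert y G`: the marked vertices are the same.
`mu_first`: `c = min C` is marked and for the other ones the colour `c` is present.
`mu_none`: if the colour `min C` is absent nothing is marked.
`mu_block`: if `Q <= u` this is `mu_later`. If `u < Q` then all elements of `G` are `< u < Q`, `rC Q C u` is the number of `c ∈ C` with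
`c < u`, which is larger than `G.card = s`; so some colour below `u` is missing and `u` is not marked; for `c' < u` the
conditions are the same, and `c' > u` in `C` are not in the set.
`mu_full`: `A` has `s = rC Q C u` elements among the `rC Q C u` vertices below `u` with colour in `C`, so it is the set of all of
them; since `A` is rainbow no vertex `v >= Q` is in it (`v - Q` would be in it as well), so `A = {c ∈ C, c < u}` and all are marked.
-/

set_option autoImplicit false

namespace FlagB

open Finset Polynomial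

private theorem mk_insert_iff {Q : ℕ} {C : Finset ℕ} (hC : C ⊆ range Q) {y : ℕ} (hy : y % Q ∈ C)
    {s : ℕ} {G : Finset ℕ} (hG : Rb Q (C.erase (y % Q)) s G) {c : ℕ} (hc : c ≠ y) :
    c ∈ mk Q C (insert y G) ↔ c ∈ mk Q (C.erase (y % Q)) G := by
  unfold mk
  rw [Finset.mem_filter, Finset.mem_filter]
  constructor
  · rintro ⟨h1, h2, h3⟩
    have hcQ : c < Q := Finset.mem_range.1 (hC h1)
    have hcG : c ∈ G := by
      rcases Finset.mem_insert.1 h2 with h | h
      · exact absurd h hc
      · exact h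
    have hcE : c ∈ C.erase (y % Q) := by
      have := hG.2.1 c hcG
      rwa [Nat.mod_eq_of_lt hcQ] at this
    refine ⟨hcE, hcG, ?_⟩
    intro c' hc' hlt
    rw [Finset.mem_erase] at hc'
    obtain ⟨v, hv, hv'⟩ := h3 c' hc'.2 hlt
    rcases Finset.mem_insert.1 hv with h | h
    · rw [h] at hv'
      exact absurd hv'.symm hc'.1
    · exact ⟨v, h, hv'⟩
  · rintro ⟨h1, h2, h3⟩
    refine ⟨Finset.mem_of_mem_erase h1, Finset.mem_insert_of_mem h2, ?_⟩
    intro c' hc' hlt
    by_cases hcy : c' = y % Q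
    · exact ⟨y, Finset.mem_insert_self _ _, hcy.symm⟩
    · obtain ⟨v, hv, hv'⟩ := h3 c' (Finset.mem_erase.2 ⟨hcy, hc'⟩) hlt
      exact ⟨v, Finset.mem_insert_of_mem hv, hv'⟩

private theorem mk_notMem_y {Q : ℕ} {C : Finset ℕ} (hC : C ⊆ range Q) {y : ℕ} (hy : y % Q ∈ C)
    {G : Finset ℕ} : y ∉ mk Q (C.erase (y % Q)) G := by
  intro h
  unfold mk at h
  rw [Finset.mem_filter, Finset.mem_erase] at h
  have hyQ : y < Q := Finset.mem_range.1 (hC h.1.2)
  exact h.1.1 (Nat.mod_eq_of_lt hyQ).symm

private theorem mu_of_notMem {Q : ℕ} {C : Finset ℕ} (hC : C ⊆ range Q) {y : ℕ} (hy : y % Q ∈ C)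
    {s : ℕ} {G : Finset ℕ} (hG : Rb Q (C.erase (y % Q)) s G)
    (hy2 : y ∉ mk Q C (insert y G)) : mu Q C (insert y G) = mu Q (C.erase (y % Q)) G := by
  unfold mu
  congr 1
  ext c
  by_cases hc : c = y
  · subst hc
    constructor
    · intro h; exact absurd h hy2
    · intro h; exact absurd h (mk_notMem_y hC hy)
  · exact mk_insert_iff hC hy hG hc

theorem mu_later {Q : ℕ} {C : Finset ℕ} (hC : C ⊆ range Q) {y : ℕ} (hy : y % Q ∈ C) (hyQ : Q ≤ y)
    {s : ℕ} {G : Finset ℕ} (hG : Rb Q (C.erase (y % Q)) s G) :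
    mu Q C (insert y G) = mu Q (C.erase (y % Q)) G := by
  apply mu_of_notMem hC hy hG
  intro h
  unfold mk at h
  rw [Finset.mem_filter] at h
  have := Finset.mem_range.1 (hC h.1)
  omega

theorem mu_first {Q : ℕ} {C : Finset ℕ} (hC : C ⊆ range Q) {c : ℕ} (hc : c ∈ C)
    (hmin : ∀ c' ∈ C, c ≤ c') {s : ℕ} {G : Finset ℕ} (hG : Rb Q (C.erase c) s G) :
    mu Q C (insert c G) = 1 + mu Q (C.erase c) G := by
  have hcQ : c < Q := Finset.mem_range.1 (hC hc)
  have hcm : c % Q = c := Nat.mod_eq_of_lt hcQ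
  have hy : c % Q ∈ C := by rw [hcm]; exact hc
  have hG' : Rb Q (C.erase (c % Q)) s G := by rw [hcm]; exact hG
  have h1 : mk Q C (insert c G) = insert c (mk Q (C.erase c) G) := by
    ext d
    by_cases hd : d = c
    · subst hd
      constructor
      · intro _
        exact Finset.mem_insert_self _ _
      · intro _
        unfold mk
        rw [Finset.mem_filter]
        refine ⟨hc, Finset.mem_insert_self _ _, ?_⟩
        intro c' hc' hlt
        have := hmin c' hc'
        omega
    · rw [Finset.mem_insert, mk_insert_iff hC hy hG' hd, hcm]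
      constructor
      · intro h; exact Or.inr h
      · rintro (h | h)
        · exact absurd h hd
        · exact h
  have h2 : c ∉ mk Q (C.erase c) G := by
    have := mk_notMem_y hC hy (G := G)
    rwa [hcm] at this
  unfold mu
  rw [h1, Finset.card_insert_of_notMem h2, add_comm]

theorem mu_none {Q : ℕ} {C : Finset ℕ} (hC : C ⊆ range Q) {c : ℕ} (hc : c ∈ C)
    (hmin : ∀ c' ∈ C, c ≤ c') {A : Finset ℕ} (hA : ∀ v ∈ A, v % Q ≠ c) :
    mu Q C A = 0 := by
  unfold mu
  rw [Finset.card_eq_zero, Finset.eq_empty_iff_forall_notMem]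
  intro d hd
  unfold mk at hd
  rw [Finset.mem_filter] at hd
  obtain ⟨h1, h2, h3⟩ := hd
  rcases Nat.lt_or_ge c d with h | h
  · obtain ⟨v, hv, hv'⟩ := h3 c hc h
    exact hA v hv hv'
  · have hdc : d = c := by
      have := hmin d h1
      omega
    subst hdc
    have hcQ : d < Q := Finset.mem_range.1 (hC hc)
    exact hA d h2 (Nat.mod_eq_of_lt hcQ)

theorem mu_block {Q : ℕ} {C : Finset ℕ} (hC : C ⊆ range Q) {u : ℕ} (hu : u % Q ∈ C)
    {s : ℕ} {G : Finset ℕ} (hG : Rb Q (C.erase (u % Q)) s G) (hGu : ∀ v ∈ G, v < u)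
    (hr : s + 1 ≤ rC Q C u) :
    mu Q C (insert u G) = mu Q (C.erase (u % Q)) G := by
  apply mu_of_notMem hC hu hG
  intro h
  unfold mk at h
  rw [Finset.mem_filter] at h
  obtain ⟨h1, _, h3⟩ := h
  have huQ : u < Q := Finset.mem_range.1 (hC h1)
  have hsub : (range u).filter (fun v => v % Q ∈ C) ⊆ G := by
    intro v hv
    rw [Finset.mem_filter, Finset.mem_range] at hv
    have hvQ : v < Q := by omega
    rw [Nat.mod_eq_of_lt hvQ] at hv
    obtain ⟨x, hx, hx'⟩ := h3 v hv.2 hv.1
    rcases Finset.mem_insert.1 hx with hxu | hxG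
    · rw [hxu, Nat.mod_eq_of_lt huQ] at hx'
      omega
    · have := hGu x hxG
      rw [Nat.mod_eq_of_lt (by omega)] at hx'
      rwa [← hx']
  have h4 := Finset.card_le_card hsub
  rw [hG.1] at h4
  unfold rC at hr
  omega

theorem mu_full {Q : ℕ} {C : Finset ℕ} (hC : C ⊆ range Q) {u s : ℕ} {A : Finset ℕ}
    (hA : Rb Q C s A) (hAu : ∀ v ∈ A, v < u) (hr : rC Q C u = s) :
    mu Q C A = s := by
  have hsub : A ⊆ (range u).filter (fun v => v % Q ∈ C) := by
    intro v hv
    rw [Finset.mem_filter, Finset.mem_range]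
    exact ⟨hAu v hv, hA.2.1 v hv⟩
  have heq : A = (range u).filter (fun v => v % Q ∈ C) := by
    apply Finset.eq_of_subset_of_card_le hsub
    rw [hA.1]
    unfold rC at hr
    omega
  have hlt : ∀ v ∈ A, v < Q := by
    intro v hv
    by_contra hcon
    push Not at hcon
    have hvC := hA.2.1 v hv
    have hQ : 0 < Q := by
      have := Finset.mem_range.1 (hC hvC)
      omega
    have h1 : (v - Q) % Q = v % Q := (Nat.mod_eq_sub_mod hcon).symm
    have h2 : v - Q ∈ A := by
      rw [heq, Finset.mem_filter, Finset.mem_range, h1]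
      have := hAu v hv
      exact ⟨by omega, hvC⟩
    have h3 := hA.2.2 (v - Q) h2 v hv h1
    omega
  have h5 : mk Q C A = A := by
    ext c
    unfold mk
    rw [Finset.mem_filter]
    constructor
    · rintro ⟨_, h, _⟩
      exact h
    · intro hc
      have hcC : c ∈ C := by
        have := hA.2.1 c hc
        rwa [Nat.mod_eq_of_lt (hlt c hc)] at this
      refine ⟨hcC, hc, ?_⟩
      intro c' hc' hlt'
      have hc'Q := Finset.mem_range.1 (hC hc')
      refine ⟨c', ?_, Nat.mod_eq_of_lt hc'Q⟩
      rw [heq, Finset.mem_filter, Finset.mem_range, Nat.mod_eq_of_lt hc'Q]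
      have := hAu c hc
      exact ⟨by omega, hc'⟩
  unfold mu
  rw [h5, hA.1]

end FlagB
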