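import Pool.Agent.Lib.MP_4a7d3d_co.FB.AddIneq
import Pool.Agent.Lib.MP_4a7d3d_co.FB.FEnd

/-!
# FB-NIneq (1.2 h): Lemma (N).
Proof: see the paper (Lemma (N)). Induction on `s`. Put `q' = q-1 >= 1`.
`s = 2`: `p1 := (a-1)/(q-1) + 1 <= p`. `Adm (q-1) 2 (t (q-1) 2 a) a` holds (if `q-1 < 2` then `t (q-1) 2 a = 0`; else
`F_t`, `t_one`, small `a` by hand), hence `m >= t (q-1) 2 a + p1 * a = t q 2 (a + p1)` (`t_class`, `t_one`) and
`t q 2 (a+p1) = t q 2 (a+p1-1) + D q 2 (a+p1-1)`, `D q 2 (a+p1-1) = t (q-1) 1 a = a` because `(a+p1-1) / q = p1 - 1`. Apply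
`F_add` with `m - a` and `n = a+p1-1` (`m - a >= (p-1) a >= 1`).
`s >= 3`: choose `N` with `t (q-1) (s-1) N < a <= t (q-1) (s-1) (N+1)`, `a = t (q-1) (s-1) N + α`,
`1 <= α <= D (q-1) (s-1) N`, `p1 = N/(q-1) + 1 <= p`, `n = N + p1`. Then `t q s n = t (q-1) s N + p1 * t (q-1) (s-1) N` (`t_class`),
`n - n/q = N+1`, `(n-1) - (n-1)/q = N`. From the hypothesis with `b = t (q-1) s N + b''` (`adm_step`):
`m >= t q s n + b'' + p * α` for every `b''` with `Adm (q-2) (s-1) b'' α`.
If `m >= t q s n + a`: `F_add`. Else `x = m - t q s n < a`; by induction (for `q-1, s-1, p, x, α`;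
`α <= t (q-2) (s-2) ((q-2)*p)` since `N - N/(q-1) <= (q-2) p`) `h x <= h (x-α) + h2 α`. Also
`x >= p α >= 2 α` so `x - α >= 1`, `x - α < t (q-1) (s-1) N`, hence `N >= s`. `m - a = t q s (n-1) + (x - α)`,
`F(m - a) = F(t(n-1)) + h(x-α)`, `F m = F(t n) + h x = F(t(n-1)) + h(t (q-1) (s-1) N) + h x`,
`h a = h(t (q-1) (s-1) N) + h2 α`. Done.
-/

set_option autoImplicit false

namespace FlagB

open Finset Polynomial

private theorem nineq_base (ε q p m a : ℕ) (hsq : 2 ≤ q) (ha : 1 ≤ a) (hp : 2 ≤ p)
    (hap : a ≤ t (q - 1) 1 ((q - 1) * p))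
    (hm : ∀ b, Adm (q - 1) 2 b a → b + p * a ≤ m) :
    F ε 2 q m ≤ F ε 2 q (m - a) + F ε 1 (q - 1) a := by
  obtain ⟨r, rfl⟩ : ∃ r, q = r + 1 := ⟨q - 1, by omega⟩
  simp only [Nat.add_sub_cancel] at *
  have hr : 1 ≤ r := by omega
  rw [t_one r _ hr] at hap
  have hadm : Adm r 2 (t r 2 a) a := by
    by_cases h2 : r < 2
    · left; exact t_qlt r 2 a h2
    · right
      refine ⟨by omega, ?_⟩
      by_cases h3 : a < 2
      · rw [t_lt r 2 a h3, F_zero]; omega
      · rw [F_t 2 r a (by omega) (by omega) (by omega)]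
        show t r 1 a ≤ a
        rw [t_one r a hr]
  have hm1 := hm _ hadm
  obtain ⟨j, i, hji, hir⟩ : ∃ j i, a - 1 = r * j + i ∧ i < r :=
    ⟨(a - 1) / r, (a - 1) % r, (Nat.div_add_mod _ _).symm, Nat.mod_lt _ (by omega)⟩
  have haeq : a = r * j + i + 1 := by omega
  have hjp : j + 1 ≤ p := by
    by_contra hcon
    have : p ≤ j := by omega
    have h4 : r * p ≤ r * j := Nat.mul_le_mul_left r this
    omega
  have hcls := t_class (r + 1) 1 a (j + 1) (by omega) (by omega)
    (by
      show (r + 1 - 1) * (j + 1 - 1) ≤ a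
      simp only [Nat.add_sub_cancel]
      omega)
    (by
      show a ≤ (r + 1 - 1) * (j + 1)
      simp only [Nat.add_sub_cancel]
      rw [Nat.mul_add]; omega)
  simp only [Nat.add_sub_cancel] at hcls
  rw [t_one r a hr] at hcls
  have hcls' : t (r + 1) 2 (a + (j + 1)) = t r 2 a + (j + 1) * a := hcls
  have hdiv : (a + j) / (r + 1) = j := by
    have : a + j = (i + 1) + (r + 1) * j := by rw [haeq]; ring
    rw [this, Nat.add_mul_div_left _ _ (by omega), Nat.div_eq_of_lt (by omega)]; omega
  have hD : D (r + 1) 2 (a + j) = a := by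
    unfold D
    rw [hdiv]
    show t (r + 1 - 1) 1 (a + j - j) = a
    rw [Nat.add_sub_cancel, Nat.add_sub_cancel, t_one r a hr]
  have hadd := t_add_D (r + 1) 2 (a + j) (by omega) (by omega)
  rw [hD] at hadd
  have h5 : t (r + 1) 2 (a + (j + 1)) = t (r + 1) 2 (a + j) + a := hadd
  have h6 : (j + 1) * a ≤ p * a := Nat.mul_le_mul_right a hjp
  have h7 : 2 * a ≤ p * a := Nat.mul_le_mul_right a hp
  have h8 := F_add ε 2 (r + 1) (a + j) (m - a) a (by omega) (by omega) (by omega) (by omega)
    (by rw [hD])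
  have h9 : m - a + a = m := by omega
  rw [h9] at h8
  exact h8

theorem N_ineq (ε s q p m a : ℕ) (hs : 2 ≤ s) (hsq : s ≤ q) (ha : 1 ≤ a) (hp : 2 ≤ p)
    (hap : a ≤ t (q - 1) (s - 1) ((q - 1) * p))
    (hm : ∀ b, Adm (q - 1) s b a → b + p * a ≤ m) :
    F ε s q m ≤ F ε s q (m - a) + F ε (s - 1) (q - 1) a := by
  induction s, hs using Nat.le_induction generalizing q p m a with
  | base => exact nineq_base ε q p m a hsq ha hp hap hm
  | succ s hs IH =>
    obtain ⟨r, rfl⟩ : ∃ r, q = r + 1 := ⟨q - 1, by omega⟩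
    simp only [Nat.add_sub_cancel] at *
    have hr : 2 ≤ r := by omega
    -- choose N
    have hex : ∃ n, a ≤ t r s n := ⟨_, hap⟩
    classical
    have hfind := Nat.find_spec hex
    have hmin : ∀ n, n < Nat.find hex → ¬ a ≤ t r s n := fun n hn => Nat.find_min hex hn
    have hle : Nat.find hex ≤ r * p := Nat.find_min' hex hap
    generalize Nat.find hex = n0 at hfind hmin hle
    have hn0 : n0 ≠ 0 := by
      rintro rfl
      rw [t_lt r s 0 (by omega)] at hfind
      omega
    obtain ⟨N, rfl⟩ : ∃ N, n0 = N + 1 := ⟨n0 - 1, by omega⟩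
    have hN1 : t r s N < a := not_le.mp (hmin N (by omega))
    have htD := t_add_D r s N (by omega) (by omega)
    obtain ⟨α, hα⟩ : ∃ α, a = t r s N + α := ⟨a - t r s N, by omega⟩
    have hα1 : 1 ≤ α := by omega
    have hαD : α ≤ D r s N := by omega
    obtain ⟨j, i, hji, hir⟩ : ∃ j i, N = r * j + i ∧ i < r :=
      ⟨N / r, N % r, (Nat.div_add_mod _ _).symm, Nat.mod_lt _ (by omega)⟩
    have hjp : j + 1 ≤ p := by
      by_contra hcon
      have : p ≤ j := by omega
      have h4 : r * p ≤ r * j := Nat.mul_le_mul_left r this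
      omega
    have hcls := t_class (r + 1) s N (j + 1) (by omega) (by omega)
      (by
        show (r + 1 - 1) * (j + 1 - 1) ≤ N
        simp only [Nat.add_sub_cancel]
        omega)
      (by
        show N ≤ (r + 1 - 1) * (j + 1)
        simp only [Nat.add_sub_cancel]
        rw [Nat.mul_add]; omega)
    simp only [Nat.add_sub_cancel] at hcls
    -- n = N + j + 1
    have hdiv1 : (N + j + 1) / (r + 1) = j := by
      have : N + j + 1 = (i + 1) + (r + 1) * j := by rw [hji]; ring
      rw [this, Nat.add_mul_div_left _ _ (by omega), Nat.div_eq_of_lt (by omega)]; omega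
    have hdiv0 : (N + j) / (r + 1) = j := by
      have : N + j = i + (r + 1) * j := by rw [hji]; ring
      rw [this, Nat.add_mul_div_left _ _ (by omega), Nat.div_eq_of_lt (by omega)]; omega
    have hD1 : D (r + 1) (s + 1) (N + j + 1) = t r s (N + 1) := by
      unfold D
      rw [hdiv1]
      have : N + j + 1 - j = N + 1 := by omega
      rw [this]
      simp only [Nat.add_sub_cancel]
    have hD0 : D (r + 1) (s + 1) (N + j) = t r s N := by
      unfold D
      rw [hdiv0]
      simp only [Nat.add_sub_cancel]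
    have hT1 : t (r + 1) (s + 1) (N + j + 1) = t (r + 1) (s + 1) (N + j) + t r s N := by
      have := t_add_D (r + 1) (s + 1) (N + j) (by omega) (by omega)
      rw [hD0] at this
      exact this
    have hcls' : t (r + 1) (s + 1) (N + j + 1) = t r (s + 1) N + (j + 1) * t r s N := hcls
    have hpa : p * a = p * t r s N + p * α := by rw [hα]; ring
    have hpt : (j + 1) * t r s N ≤ p * t r s N := Nat.mul_le_mul_right _ hjp
    have hmb : ∀ b, Adm (r - 1) s b α → t (r + 1) (s + 1) (N + j + 1) + (b + p * α) ≤ m := by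
      intro b hb
      have h3 := (adm_step r (s + 1) N b α (by omega) (by simpa using hαD) (by simpa using hb)).2
      simp only [Nat.add_sub_cancel] at h3
      rw [← hα] at h3
      have := hm _ h3
      omega
    have hm0 := hmb 0 (Or.inl rfl)
    have h2a : 2 * a ≤ p * a := Nat.mul_le_mul_right a hp
    have hma := hm 0 (Or.inl rfl)
    by_cases hcase : t (r + 1) (s + 1) (N + j + 1) + a ≤ m
    · have h8 := F_add ε (s + 1) (r + 1) (N + j + 1) (m - a) a (by omega) (by omega) (by omega)
        (by omega) (by rw [hD1]; exact hfind)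
      have h9 : m - a + a = m := by omega
      rw [h9] at h8
      simpa using h8
    · obtain ⟨x, hx⟩ : ∃ x, m = t (r + 1) (s + 1) (N + j + 1) + x :=
        ⟨m - t (r + 1) (s + 1) (N + j + 1), by omega⟩
      have hxa : x < a := by omega
      have h2α : 2 * α ≤ p * α := Nat.mul_le_mul_right α hp
      have hxα : p * α ≤ x := by omega
      have hNr : N - N / r = (r - 1) * j + i := by
        have hd : N / r = j := by
          rw [hji, Nat.add_comm, Nat.add_mul_div_left _ _ (by omega), Nat.div_eq_of_lt hir]; omega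
        rw [hd, hji]
        have : r * j = (r - 1) * j + j := by
          obtain ⟨r', rfl⟩ : ∃ r', r = r' + 1 := ⟨r - 1, by omega⟩
          simp only [Nat.add_sub_cancel]; ring
        omega
      have hαb : α ≤ t (r - 1) (s - 1) ((r - 1) * p) := by
        refine le_trans hαD ?_
        unfold D
        apply t_mono
        rw [hNr]
        have h5 : (r - 1) * (j + 1) ≤ (r - 1) * p := Nat.mul_le_mul_left _ hjp
        rw [Nat.mul_add] at h5
        omega
      have hIH := IH r p x α (by omega) hα1 hp hαb (fun b hb => by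
        have := hmb b hb
        omega)
      -- N ≥ s + 1
      have hNs : s + 1 ≤ N := by
        by_contra hcon
        have : N ≤ s := by omega
        have h6 := t_mono r s this
        rw [t_self r s (by omega)] at h6
        omega
      have hFm : F ε (s + 1) (r + 1) m =
          F ε (s + 1) (r + 1) (t (r + 1) (s + 1) (N + j + 1)) + F ε s r x := by
        rw [hx]
        have := F_block ε (s + 1) (r + 1) (N + j + 1) x (by omega) (by omega) (by omega)
          (by rw [hD1]; omega)
        simpa using this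
      have hFt : F ε (s + 1) (r + 1) (t (r + 1) (s + 1) (N + j + 1)) =
          F ε (s + 1) (r + 1) (t (r + 1) (s + 1) (N + j)) + F ε s r (t r s N) := by
        rw [hT1]
        have := F_block ε (s + 1) (r + 1) (N + j) (t r s N) (by omega) (by omega) (by omega)
          (by rw [hD0])
        simpa using this
      have hmaeq : m - a = t (r + 1) (s + 1) (N + j) + (x - α) := by omega
      have hFma : F ε (s + 1) (r + 1) (m - a) =
          F ε (s + 1) (r + 1) (t (r + 1) (s + 1) (N + j)) + F ε s r (x - α) := by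
        rw [hmaeq]
        have := F_block ε (s + 1) (r + 1) (N + j) (x - α) (by omega) (by omega) (by omega)
          (by rw [hD0]; omega)
        simpa using this
      have hFa : F ε s r a = F ε s r (t r s N) + F ε (s - 1) (r - 1) α := by
        rw [hα]
        exact F_block ε s r N α (by omega) (by omega) (by omega) hαD
      rw [hFm, hFt, hFma, hFa]
      omega

end FlagB
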