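import Pool.Agent.Lib.MP_4a7d3d_co.FB.Mu
import Pool.Agent.Lib.MP_4a7d3d_co.FB.LkAv
import Pool.Agent.Lib.MP_4a7d3d_co.FB.IniExists
import Pool.Agent.Lib.MP_4a7d3d_co.FB.FBlock

/-!
# FB-SumF (1.0 h): the total weight of an initial family is `F`.
Proof. Induction on `s` (all `C`, `𝒜`); `s = 0`: every member is `∅`, `mu = 0`, `w ε 0 = 0`. Step `s+1`, `q = C.card`, `m = 𝒜.card`.
For `u : ℕ` put `𝒜_{<u}` = members with all elements `< u`. Claim, by induction on `u`:
`∑_{A ∈ 𝒜_{<u}} w ε (mu A) = F ε (s+1) q (min m (t q (s+1) (rC Q C u)))`. Note `𝒜_{<u}` is an initial family, contained in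
`allRb Q C (s+1) u`, and `𝒜_{<u} = 𝒜` or `= allRb Q C (s+1) u` (`Ini.total`), so `(𝒜_{<u}).card = min m (t q (s+1) (rC u))`.
Step `u → u+1`: if `u % Q ∉ C` nothing changes. Otherwise the new members are `insert u G` with `G` in the initial family (for
`C.erase (u%Q)`, `s`) of the `G` below `u` with `insert u G ∈ 𝒜`; let `a` be their number, `n = rC u`. By counting
`a = (𝒜_{<u+1}).card - (𝒜_{<u}).card`. If `a = 0` fine. Otherwise `𝒜_{<u} = allRb .. u`, `min m (t(n+1)) = t n + a`, `a <= D q (s+1) n`.
If `n >= s+1`: `mu_block` and the induction hypothesis for `s` give weight `F ε s (q-1) a`, and `F_block`.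
If `n = s`: `t n = 0`, `a = 1` and the member has `mu = s+1` by `mu_full` (with `u+1`), `F_one`. `n < s` impossible since `a <= D = 0`.
Finally take `u` large.
-/

set_option autoImplicit false

namespace FlagB

open Finset Polynomial

private theorem sf_split (𝒜 : Finset (Finset ℕ)) (u : ℕ) (f : Finset ℕ → ℕ) :
    ∑ A ∈ 𝒜.filter (fun A => ∀ v ∈ A, v < u + 1), f A =
      ∑ A ∈ 𝒜.filter (fun A => ∀ v ∈ A, v < u), f A +
      ∑ G ∈ (lk u 𝒜).filter (fun G => ∀ v ∈ G, v < u), f (insert u G) := by
  rw [← Finset.sum_filter_add_sum_filter_not (𝒜.filter (fun A => ∀ v ∈ A, v < u + 1))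
    (fun A => u ∉ A)]
  congr 1
  · apply Finset.sum_congr _ (fun _ _ => rfl)
    ext A
    simp only [Finset.mem_filter]
    constructor
    · rintro ⟨⟨h1, h2⟩, h3⟩
      refine ⟨h1, fun v hv => ?_⟩
      have h4 := h2 v hv
      have h5 : v ≠ u := fun h => h3 (h ▸ hv)
      omega
    · rintro ⟨h1, h2⟩
      exact ⟨⟨h1, fun v hv => lt_trans (h2 v hv) (Nat.lt_succ_self u)⟩,
        fun h => lt_irrefl _ (h2 u h)⟩
  · refine Finset.sum_bij' (fun A _ => A.erase u) (fun G _ => insert u G) ?_ ?_ ?_ ?_ ?_
    · intro A hA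
      simp only [Finset.mem_filter, not_not] at hA
      obtain ⟨⟨h1, h2⟩, h3⟩ := hA
      rw [Finset.mem_filter, mem_lk]
      refine ⟨⟨Finset.notMem_erase u A, by rw [Finset.insert_erase h3]; exact h1⟩, ?_⟩
      intro v hv
      rw [Finset.mem_erase] at hv
      have := h2 v hv.2
      have := hv.1
      omega
    · intro G hG
      rw [Finset.mem_filter, mem_lk] at hG
      obtain ⟨⟨h1, h2⟩, h3⟩ := hG
      simp only [Finset.mem_filter, not_not]
      refine ⟨⟨h2, ?_⟩, Finset.mem_insert_self u G⟩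
      intro v hv
      rw [Finset.mem_insert] at hv
      rcases hv with rfl | hv
      · exact Nat.lt_succ_self _
      · exact lt_trans (h3 v hv) (Nat.lt_succ_self u)
    · intro A hA
      simp only [Finset.mem_filter, not_not] at hA
      exact Finset.insert_erase hA.2
    · intro G hG
      rw [Finset.mem_filter, mem_lk] at hG
      exact Finset.erase_insert hG.1.1
    · intro A hA
      simp only [Finset.mem_filter, not_not] at hA
      rw [Finset.insert_erase hA.2]

private theorem sf_ini {Q : ℕ} {C : Finset ℕ} {s : ℕ} {𝒜 : Finset (Finset ℕ)} (h : Ini Q C s 𝒜)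
    (u : ℕ) : Ini Q C s (𝒜.filter (fun A => ∀ v ∈ A, v < u)) := by
  refine ⟨fun A hA => h.1 A (Finset.mem_of_mem_filter A hA), fun A hA B hB hlt => ?_⟩
  rw [Finset.mem_filter] at hA ⊢
  exact ⟨h.2 A hA.1 B hB hlt, Finset.Colex.forall_lt_mono hlt.le hA.2⟩

private theorem sf_step {ε Q : ℕ} {C : Finset ℕ} (hC : C ⊆ range Q) {s : ℕ} (hs : s + 1 ≤ C.card)
    (ih : ∀ {C : Finset ℕ}, C ⊆ range Q → s ≤ C.card → ∀ {𝒜 : Finset (Finset ℕ)}, Ini Q C s 𝒜 →
      ∑ A ∈ 𝒜, w ε (mu Q C A) = F ε s C.card 𝒜.card)
    {𝒜 : Finset (Finset ℕ)} (h : Ini Q C (s + 1) 𝒜) (u : ℕ) :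
    ∑ A ∈ 𝒜.filter (fun A => ∀ v ∈ A, v < u), w ε (mu Q C A) =
      F ε (s + 1) C.card (𝒜.filter (fun A => ∀ v ∈ A, v < u)).card := by
  induction u with
  | zero =>
    have h0 : 𝒜.filter (fun A => ∀ v ∈ A, v < 0) = ∅ := by
      rw [Finset.filter_eq_empty_iff]
      intro A hA hv
      have h1 := (h.1 A hA).1
      have h2 : A = ∅ := Finset.eq_empty_of_forall_notMem fun v hv' => Nat.not_lt_zero v (hv v hv')
      rw [h2, Finset.card_empty] at h1
      omega
    rw [h0, Finset.sum_empty, Finset.card_empty, F_zero]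
  | succ u ihu =>
    have hsplit := sf_split 𝒜 u (fun A => w ε (mu Q C A))
    have hcard := sf_split 𝒜 u (fun _ => 1)
    simp only [Finset.sum_const, smul_eq_mul, mul_one] at hcard
    rw [hsplit, ihu]
    by_cases huC : u % Q ∈ C
    · set 𝒢 := (lk u 𝒜).filter (fun G => ∀ v ∈ G, v < u) with h𝒢
      have hG : Ini Q (C.erase (u % Q)) s 𝒢 := sf_ini (ini_lk h u huC) u
      have hCe : C.erase (u % Q) ⊆ range Q := (Finset.erase_subset _ _).trans hC
      have hce : (C.erase (u % Q)).card = C.card - 1 := Finset.card_erase_of_mem huC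
      rcases Finset.eq_empty_or_nonempty 𝒢 with h0 | ⟨G0, hG0⟩
      · rw [hcard, h0]
        simp
      · -- the members below `u` are all rainbow sets
        have hmem : insert u G0 ∈ 𝒜 := by
          rw [h𝒢, Finset.mem_filter, mem_lk] at hG0
          exact hG0.1.2
        have hall : 𝒜.filter (fun A => ∀ v ∈ A, v < u) = allRb Q C (s + 1) u := by
          have hnot : ¬ 𝒜 ⊆ allRb Q C (s + 1) u := by
            intro hsub
            have h2 := (mem_allRb.1 (hsub hmem)).2 u (Finset.mem_insert_self u G0)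
            exact lt_irrefl _ h2
          have hsub : allRb Q C (s + 1) u ⊆ 𝒜 :=
            (Ini.total h (ini_allRb Q C (s + 1) u)).resolve_left hnot
          ext A
          rw [Finset.mem_filter]
          constructor
          · rintro ⟨h1, h2⟩
            exact mem_allRb.2 ⟨h.1 A h1, h2⟩
          · intro hA
            exact ⟨hsub hA, (mem_allRb.1 hA).2⟩
        have hcu : (𝒜.filter (fun A => ∀ v ∈ A, v < u)).card = t C.card (s + 1) (rC Q C u) := by
          rw [hall, card_allRb Q C hC]
        have hru : rC Q C (u + 1) = rC Q C u + 1 := by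
          rw [rC_succ, if_pos huC]
        have hle : (𝒜.filter (fun A => ∀ v ∈ A, v < u + 1)).card ≤
            t C.card (s + 1) (rC Q C u + 1) := by
          rw [← hru, ← card_allRb Q C hC]
          apply Finset.card_le_card
          intro A hA
          rw [Finset.mem_filter] at hA
          exact mem_allRb.2 ⟨h.1 A hA.1, hA.2⟩
        have hDa : 𝒢.card ≤ D C.card (s + 1) (rC Q C u) := by
          rw [t_add_D _ _ _ (by omega) (by omega), hcard, hcu] at hle
          omega
        have hpos : 1 ≤ 𝒢.card := Finset.card_pos.2 ⟨G0, hG0⟩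
        rcases Nat.lt_or_ge (rC Q C u) (s + 1) with hn | hn
        · rcases Nat.lt_or_ge (rC Q C u) s with hn' | hn'
          · rw [D_zero _ _ _ (by omega)] at hDa
            omega
          · have hn2 : rC Q C u = s := by omega
            have ht0 : t C.card (s + 1) (rC Q C u) = 0 := t_lt _ _ _ hn
            rw [hcu, ht0, F_zero, zero_add]
            rw [hcard, hcu, ht0, zero_add]
            have h1 : 𝒢.card = 1 := by
              rw [hcard, hcu, ht0, hn2, t_self _ _ hs] at hle
              omega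
            rw [h1, F_one ε (s + 1) _ (by omega) hs]
            obtain ⟨G, hGe⟩ := Finset.card_eq_one.1 h1
            rw [hGe, Finset.sum_singleton]
            have hGm : G ∈ 𝒢 := by rw [hGe]; exact Finset.mem_singleton_self G
            rw [h𝒢, Finset.mem_filter, mem_lk] at hGm
            rw [mu_full hC (h.1 _ hGm.1.2) (u := u + 1) ?_ (by rw [hru, hn2])]
            intro v hv
            rw [Finset.mem_insert] at hv
            rcases hv with rfl | hv
            · exact Nat.lt_succ_self _
            · exact lt_trans (hGm.2 v hv) (Nat.lt_succ_self u)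
        · have hsum : ∑ G ∈ 𝒢, w ε (mu Q C (insert u G)) = F ε s (C.card - 1) 𝒢.card := by
            rw [← hce, ← ih hCe (by omega) hG]
            apply Finset.sum_congr rfl
            intro G hGm
            rw [mu_block hC huC (hG.1 G hGm) ?_ hn]
            rw [h𝒢, Finset.mem_filter] at hGm
            exact hGm.2
          rw [hsum, hcard, hcu, F_block ε (s + 1) C.card (rC Q C u) 𝒢.card (by omega) hs hn hDa]
          simp
    · have h0 : (lk u 𝒜).filter (fun G => ∀ v ∈ G, v < u) = ∅ := by
        rw [Finset.filter_eq_empty_iff]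
        intro G hG _
        rw [mem_lk] at hG
        exact huC ((h.1 _ hG.2).2.1 u (Finset.mem_insert_self u G))
      rw [hcard, h0]
      simp

theorem sum_w (ε : ℕ) {Q : ℕ} {C : Finset ℕ} (hC : C ⊆ range Q) {s : ℕ} (hs : s ≤ C.card)
    {𝒜 : Finset (Finset ℕ)} (h : Ini Q C s 𝒜) :
    ∑ A ∈ 𝒜, w ε (mu Q C A) = F ε s C.card 𝒜.card := by
  induction s generalizing C 𝒜 with
  | zero =>
    rw [show F ε 0 C.card 𝒜.card = 0 by simp [F]]
    apply Finset.sum_eq_zero
    intro A hA
    have h1 := (h.1 A hA).1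
    rw [Finset.card_eq_zero] at h1
    subst h1
    simp [mu, mk, w]
  | succ s ih =>
    have key := sf_step hC hs ih h (𝒜.sup (fun A => A.sup id) + 1)
    have h1 : 𝒜.filter (fun A => ∀ v ∈ A, v < 𝒜.sup (fun A => A.sup id) + 1) = 𝒜 := by
      rw [Finset.filter_eq_self]
      intro A hA v hv
      have h2 : v ≤ A.sup id := Finset.le_sup (f := id) hv
      have h3 : A.sup id ≤ 𝒜.sup (fun A => A.sup id) := Finset.le_sup (f := fun A => A.sup id) hA
      omega
    rwa [h1] at key

end FlagB
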