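import Pool.Agent.Lib.MP_4a7d3d_co.FB.Kap
import Pool.Agent.Lib.MP_4a7d3d_co.FB.SumF

/-!
# FB-Shad (0.8 h): shadows of initial families.
`shadow 𝒜` is Mathlib's `Finset.shadow` (all `A.erase z`, `z ∈ A ∈ 𝒜`).
`mem_shadow_ini`: if `B = A.erase z`, then `kap B <= A` (`kap_le`) is rainbow of size `s+1`, hence in `𝒜`; conversely
`B = (kap B).erase (c0 B)`. `ini_shadow`: `kap_mono`. `card_shadow`: the pairs `(A, c)` with `A ∈ 𝒜`, `c ∈ mk Q C A` are in bijection
with `shadow 𝒜` by `(A, c) ↦ A.erase c`; inverse `B ↦ (kap B, c0 B)`: `c ∈ mk A` means that `c` is the smallest missing colour of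
`A.erase c`. `card_shadow_F`: `sum_w` with `ε = 1` and `w_one`.
-/

set_option autoImplicit false

namespace FlagB

open Finset Polynomial

private theorem rb_erase {Q : ℕ} {C : Finset ℕ} {s : ℕ} {A : Finset ℕ} (hA : Rb Q C (s + 1) A) {z : ℕ}
    (hz : z ∈ A) : Rb Q C s (A.erase z) := by
  refine ⟨?_, fun v hv => hA.2.1 v (Finset.mem_of_mem_erase hv), fun u hu v hv h =>
    hA.2.2 u (Finset.mem_of_mem_erase hu) v (Finset.mem_of_mem_erase hv) h⟩
  rw [Finset.card_erase_of_mem hz, hA.1]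
  rfl

private theorem rb_card_le {Q : ℕ} {C : Finset ℕ} {s : ℕ} {A : Finset ℕ} (hA : Rb Q C s A) : s ≤ C.card := by
  rw [← hA.1]
  refine Finset.card_le_card_of_injOn (fun v => v % Q) (fun v hv => hA.2.1 v hv) ?_
  intro u hu v hv h
  exact hA.2.2 u hu v hv h

private theorem c0_erase {Q : ℕ} {C : Finset ℕ} (hC : C ⊆ range Q) {s : ℕ} {A : Finset ℕ} (hA : Rb Q C (s + 1) A)
    {c : ℕ} (hc : c ∈ mk Q C A) : c0 Q C (A.erase c) = c := by
  unfold mk at hc
  rw [Finset.mem_filter] at hc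
  obtain ⟨hcC, hcA, hcs⟩ := hc
  have hcQ : c % Q = c := Nat.mod_eq_of_lt (Finset.mem_range.1 (hC hcC))
  have hm : c ∈ miss Q C (A.erase c) := by
    unfold miss
    rw [Finset.mem_filter]
    refine ⟨hcC, fun v hv hvc => ?_⟩
    have hvA := Finset.mem_of_mem_erase hv
    have : v = c := hA.2.2 v hvA c hcA (hvc.trans hcQ.symm)
    exact (Finset.ne_of_mem_erase hv) this
  have hne : (miss Q C (A.erase c)).Nonempty := ⟨c, hm⟩
  refine le_antisymm (c0_le hm) ?_
  unfold c0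
  rw [dif_pos hne]
  refine Finset.le_min' _ _ _ (fun d hd => ?_)
  by_contra hcon
  push Not at hcon
  unfold miss at hd
  rw [Finset.mem_filter] at hd
  obtain ⟨v, hv, hvd⟩ := hcs d hd.1 hcon
  refine hd.2 v (Finset.mem_erase.2 ⟨?_, hv⟩) hvd
  rintro rfl
  rw [hcQ] at hvd
  omega

theorem mem_shadow_ini {Q : ℕ} {C : Finset ℕ} (hC : C ⊆ range Q) {s : ℕ}
    {𝒜 : Finset (Finset ℕ)} (h : Ini Q C (s + 1) 𝒜) (hs : s + 1 ≤ C.card) {B : Finset ℕ} :
    B ∈ shadow 𝒜 ↔ Rb Q C s B ∧ kap Q C B ∈ 𝒜 := by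
  constructor
  · intro hB
    obtain ⟨A, hA, z, hz, rfl⟩ := Finset.mem_shadow_iff.1 hB
    have hrA := h.1 A hA
    have hrB := rb_erase hrA hz
    refine ⟨hrB, ?_⟩
    have hk := (kap_rb hC hrB (by omega)).2
    have hins : insert z (A.erase z) = A := Finset.insert_erase hz
    have hle := kap_le hC (Finset.notMem_erase z A) (B := A.erase z) (s := s) (by rw [hins]; exact hrA)
    rw [hins] at hle
    rcases hle.lt_or_eq with hlt | heq
    · exact h.2 A hA _ hk hlt
    · have : kap Q C (A.erase z) = A := by simpa using heq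
      rw [this]
      exact hA
  · rintro ⟨hrB, hk⟩
    have hnot := (kap_rb hC hrB (by omega)).1
    refine Finset.mem_shadow_iff.2 ⟨_, hk, c0 Q C B, Finset.mem_insert_self _ _, ?_⟩
    unfold kap
    exact Finset.erase_insert hnot

theorem ini_shadow {Q : ℕ} {C : Finset ℕ} (hC : C ⊆ range Q) {s : ℕ}
    {𝒜 : Finset (Finset ℕ)} (h : Ini Q C (s + 1) 𝒜) : Ini Q C s (shadow 𝒜) := by
  rcases Nat.lt_or_ge C.card (s + 1) with hlt | hge
  · have h𝒜 : 𝒜 = ∅ := by
      refine Finset.eq_empty_of_forall_notMem (fun A hA => ?_)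
      have := rb_card_le (h.1 A hA)
      omega
    rw [h𝒜, Finset.shadow_empty]
    exact ⟨fun A hA => absurd hA (Finset.notMem_empty _), fun A hA => absurd hA (Finset.notMem_empty _)⟩
  · refine ⟨fun B hB => ((mem_shadow_ini hC h hge).1 hB).1, fun A hA B hB hlt => ?_⟩
    obtain ⟨hrA, hkA⟩ := (mem_shadow_ini hC h hge).1 hA
    refine (mem_shadow_ini hC h hge).2 ⟨hB, ?_⟩
    have hle := kap_mono hC hB hrA (by omega) hlt.le
    rcases hle.lt_or_eq with hlt | heq
    · exact h.2 _ hkA _ (kap_rb hC hB (by omega)).2 hlt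
    · have : kap Q C B = kap Q C A := by simpa using heq
      rw [this]
      exact hkA

theorem card_shadow_mu {Q : ℕ} {C : Finset ℕ} (hC : C ⊆ range Q) {s : ℕ}
    {𝒜 : Finset (Finset ℕ)} (h : Ini Q C (s + 1) 𝒜) (hs : s + 1 ≤ C.card) :
    (shadow 𝒜).card = ∑ A ∈ 𝒜, mu Q C A := by
  have h1 : ∑ A ∈ 𝒜, mu Q C A = (𝒜.sigma (fun A => mk Q C A)).card := by
    rw [Finset.card_sigma]
    rfl
  rw [h1]
  refine Finset.card_bij' (fun B _ => (⟨kap Q C B, c0 Q C B⟩ : Σ _ : Finset ℕ, ℕ))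
    (fun p _ => p.1.erase p.2) ?_ ?_ ?_ ?_
  · intro B hB
    obtain ⟨hrB, hkB⟩ := (mem_shadow_ini hC h hs).1 hB
    rw [Finset.mem_sigma]
    refine ⟨hkB, ?_⟩
    have hmem := c0_mem hrB (show s < C.card by omega)
    change c0 Q C B ∈ mk Q C (kap Q C B)
    have hmem' := hmem
    unfold miss at hmem'
    rw [Finset.mem_filter] at hmem'
    unfold mk
    rw [Finset.mem_filter]
    refine ⟨hmem'.1, Finset.mem_insert_self _ _, fun c' hc' hlt => ?_⟩
    by_contra hcon
    push Not at hcon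
    have : c' ∈ miss Q C B := by
      unfold miss
      rw [Finset.mem_filter]
      exact ⟨hc', fun v hv => hcon v (Finset.mem_insert_of_mem hv)⟩
    have := c0_le this
    omega
  · intro p hp
    rw [Finset.mem_sigma] at hp
    have hp2 := hp.2
    unfold mk at hp2
    rw [Finset.mem_filter] at hp2
    exact Finset.mem_shadow_iff.2 ⟨p.1, hp.1, p.2, hp2.2.1, rfl⟩
  · intro B hB
    obtain ⟨hrB, hkB⟩ := (mem_shadow_ini hC h hs).1 hB
    have hnot := (kap_rb hC hrB (show s < C.card by omega)).1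
    change (kap Q C B).erase (c0 Q C B) = B
    unfold kap
    exact Finset.erase_insert hnot
  · rintro ⟨A, c⟩ hp
    rw [Finset.mem_sigma] at hp
    have hc := c0_erase hC (h.1 A hp.1) hp.2
    have hp2 := hp.2
    unfold mk at hp2
    rw [Finset.mem_filter] at hp2
    have hk : kap Q C (A.erase c) = A := by
      unfold kap
      rw [hc]
      exact Finset.insert_erase hp2.2.1
    change (⟨kap Q C (A.erase c), c0 Q C (A.erase c)⟩ : Σ _ : Finset ℕ, ℕ) = ⟨A, c⟩
    rw [hc, hk]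

theorem card_shadow_F {Q : ℕ} {C : Finset ℕ} (hC : C ⊆ range Q) {s : ℕ}
    {𝒜 : Finset (Finset ℕ)} (h : Ini Q C (s + 1) 𝒜) (hs : s + 1 ≤ C.card) :
    (shadow 𝒜).card = F 1 (s + 1) C.card 𝒜.card := by
  rw [card_shadow_mu hC h hs, ← sum_w 1 hC hs h]
  exact Finset.sum_congr rfl (fun A _ => (w_one _).symm)

end FlagB
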