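import Pool.Agent.Lib.MP_4a7d3d_co.FB.Kap
import Pool.Agent.Lib.MP_4a7d3d_co.FB.Mu
import Pool.Agent.Lib.MP_4a7d3d_co.FB.Shad

/-!
# FB-Pos (0.9 h): positive sets (`mu = 0`), colours `C = range q`, `Q = q`.
`pos_erase`: a vertex marked in `A.erase z` is marked in `A`. `c0_lt`: if `z ∈ A`, `z <= c0 A =: c`: `z ≠ c` (colour missing), and `z < c` would be a
vertex `< q` all of whose smaller colours are present: marked. `kap_neg`: `c0 A` is marked in `kap A`. `kap_inj_pos`: for positive `A`, the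
smallest marked vertex of `kap A` is `c0 A`: a smaller marked vertex `c'` would be in `A` and marked in `A`. Hence `A = (kap A).erase (smallest
marked)`. `neg_eq_kap`: let `c` be the smallest marked vertex of `A`; then `c0 (A.erase c) = c`, and `A.erase c` is positive: a marked vertex `c'` of
`A.erase c` has all smaller colours present, so `c' < c`, (colour `c` is missing), and it is marked in `A`, contradiction.
`c0_erase_gt`: the missing colours of `A.erase z` are those of `A` and `z % q`. `insert_pos`: the colour `z % q < c` is missing in the new set and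
is the smallest missing one; its marked vertices would be `< z % q`, in `A`, marked in `A`. It is colex smaller since `c < z`.
-/

set_option autoImplicit false

namespace FlagB

open Finset Polynomial

private theorem Pos_mem_mk {q c : ℕ} {A : Finset ℕ} :
    c ∈ mk q (range q) A ↔ c < q ∧ c ∈ A ∧ ∀ c' < c, ∃ v ∈ A, v % q = c' := by
  unfold mk
  rw [Finset.mem_filter, Finset.mem_range]
  constructor
  · rintro ⟨h1, h2, h3⟩
    exact ⟨h1, h2, fun c' hc' => h3 c' (Finset.mem_range.2 (hc'.trans h1)) hc'⟩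
  · rintro ⟨h1, h2, h3⟩
    exact ⟨h1, h2, fun c' _ hc' => h3 c' hc'⟩

private theorem Pos_mu {q : ℕ} {A : Finset ℕ} :
    mu q (range q) A = 0 ↔ ∀ c, c ∉ mk q (range q) A := by
  unfold mu
  rw [Finset.card_eq_zero, Finset.eq_empty_iff_forall_notMem]

private theorem Pos_mem_miss {q c : ℕ} {A : Finset ℕ} :
    c ∈ miss q (range q) A ↔ c < q ∧ ∀ v ∈ A, v % q ≠ c := by
  unfold miss
  rw [Finset.mem_filter, Finset.mem_range]

private theorem Pos_c0 {q c : ℕ} {A : Finset ℕ} (hc : c ∈ miss q (range q) A) :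
    c0 q (range q) A ∈ miss q (range q) A := by
  unfold c0
  rw [dif_pos ⟨c, hc⟩]
  exact Finset.min'_mem _ _

private theorem Pos_lt {q c : ℕ} {A : Finset ℕ} (h : c < c0 q (range q) A)
    (hq : c < q) : ∃ v ∈ A, v % q = c := by
  by_contra hn
  push Not at hn
  have : c ∈ miss q (range q) A := Pos_mem_miss.2 ⟨hq, hn⟩
  have := c0_le this
  omega

private theorem Pos_miss_of {q s : ℕ} {A : Finset ℕ} (hA : Rb q (range q) s A) (hs : s < q) :
    c0 q (range q) A < q ∧ ∀ v ∈ A, v % q ≠ c0 q (range q) A :=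
  Pos_mem_miss.1 (c0_mem hA (by simpa using hs))

private theorem Pos_erase_rb {q s : ℕ} {A : Finset ℕ} (hA : Rb q (range q) s A) {z : ℕ}
    (hz : z ∈ A) : Rb q (range q) (s - 1) (A.erase z) := by
  refine ⟨?_, fun v hv => hA.2.1 v (Finset.mem_of_mem_erase hv), fun u hu v hv h =>
    hA.2.2 u (Finset.mem_of_mem_erase hu) v (Finset.mem_of_mem_erase hv) h⟩
  rw [Finset.card_erase_of_mem hz, hA.1]

theorem pos_erase {q s : ℕ} {A : Finset ℕ} (hA : Rb q (range q) s A) (hp : mu q (range q) A = 0)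
    (z : ℕ) : mu q (range q) (A.erase z) = 0 := by
  rw [Pos_mu] at hp ⊢
  intro c hc
  rw [Pos_mem_mk] at hc
  refine hp c (Pos_mem_mk.2 ⟨hc.1, Finset.mem_of_mem_erase hc.2.1, fun c' hc' => ?_⟩)
  obtain ⟨v, h1, h2⟩ := hc.2.2 c' hc'
  exact ⟨v, Finset.mem_of_mem_erase h1, h2⟩

theorem c0_lt {q s : ℕ} {A : Finset ℕ} (hA : Rb q (range q) s A) (hp : mu q (range q) A = 0)
    (hs : s < q) (z : ℕ) (hz : z ∈ A) : c0 q (range q) A < z := by
  obtain ⟨h1, h2⟩ := Pos_miss_of hA hs
  rw [Pos_mu] at hp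
  by_contra hlt
  have h3 : z ≠ c0 q (range q) A := by
    intro h
    have := h2 z hz
    rw [← h] at this
    exact this (Nat.mod_eq_of_lt (by omega))
  have h4 : z < c0 q (range q) A := by omega
  refine hp z (Pos_mem_mk.2 ⟨by omega, hz, fun c' hc' => ?_⟩)
  exact Pos_lt (by omega) (by omega)

theorem kap_neg {q s : ℕ} {A : Finset ℕ} (hA : Rb q (range q) s A) (hs : s < q) :
    mu q (range q) (kap q (range q) A) ≠ 0 := by
  obtain ⟨h1, h2⟩ := Pos_miss_of hA hs
  intro h
  rw [Pos_mu] at h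
  refine h (c0 q (range q) A) (Pos_mem_mk.2 ⟨h1, Finset.mem_insert_self _ _, fun c' hc' => ?_⟩)
  obtain ⟨v, h3, h4⟩ := Pos_lt hc' (by omega)
  exact ⟨v, Finset.mem_insert_of_mem h3, h4⟩

theorem kap_inj_pos {q s : ℕ} {A B : Finset ℕ} (hA : Rb q (range q) s A)
    (hB : Rb q (range q) s B) (hs : s < q) (hpA : mu q (range q) A = 0)
    (hpB : mu q (range q) B = 0) (h : kap q (range q) A = kap q (range q) B) : A = B := by
  have key : ∀ {A : Finset ℕ}, Rb q (range q) s A → mu q (range q) A = 0 →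
      c0 q (range q) A ∈ mk q (range q) (kap q (range q) A) ∧
      ∀ c' ∈ mk q (range q) (kap q (range q) A), c0 q (range q) A ≤ c' := by
    intro A hA hp
    obtain ⟨h1, h2⟩ := Pos_miss_of hA hs
    constructor
    · refine Pos_mem_mk.2 ⟨h1, Finset.mem_insert_self _ _, fun c' hc' => ?_⟩
      obtain ⟨v, h3, h4⟩ := Pos_lt hc' (by omega)
      exact ⟨v, Finset.mem_insert_of_mem h3, h4⟩
    · intro c' hc'
      rw [Pos_mem_mk] at hc'
      by_contra hlt
      rw [Pos_mu] at hp
      have hm : c' ∈ A := by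
        rcases Finset.mem_insert.1 hc'.2.1 with h | h
        · omega
        · exact h
      exact hp c' (Pos_mem_mk.2 ⟨hc'.1, hm, fun c'' hc'' => Pos_lt (by omega) (by omega)⟩)
  obtain ⟨a1, a2⟩ := key hA hpA
  obtain ⟨b1, b2⟩ := key hB hpB
  have hc : c0 q (range q) A = c0 q (range q) B := by
    apply le_antisymm
    · exact a2 _ (by rw [h]; exact b1)
    · exact b2 _ (by rw [← h]; exact a1)
  have hcA : c0 q (range q) A ∉ A := fun h' => lt_irrefl _ (c0_lt hA hpA hs _ h')
  have hcB : c0 q (range q) B ∉ B := fun h' => lt_irrefl _ (c0_lt hB hpB hs _ h')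
  have e1 : (kap q (range q) A).erase (c0 q (range q) A) = A := Finset.erase_insert hcA
  have e2 : (kap q (range q) B).erase (c0 q (range q) B) = B := Finset.erase_insert hcB
  rw [← e1, ← e2, h, hc]

theorem neg_eq_kap {q s : ℕ} {A : Finset ℕ} (hA : Rb q (range q) (s + 1) A)
    (hn : mu q (range q) A ≠ 0) :
    ∃ c ∈ A, Rb q (range q) s (A.erase c) ∧ mu q (range q) (A.erase c) = 0 ∧
      kap q (range q) (A.erase c) = A ∧ c ∈ mk q (range q) A ∧
      ∀ c' ∈ mk q (range q) A, c ≤ c' := by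
  have hne : (mk q (range q) A).Nonempty := by
    rw [Finset.nonempty_iff_ne_empty]
    intro h
    apply hn
    unfold mu
    rw [h, Finset.card_empty]
  obtain ⟨c, hcm, hcmin⟩ : ∃ c ∈ mk q (range q) A, ∀ c' ∈ mk q (range q) A, c ≤ c' :=
    ⟨(mk q (range q) A).min' hne, Finset.min'_mem _ _, fun c' hc' => Finset.min'_le _ _ hc'⟩
  obtain ⟨h1, h2, h3⟩ := Pos_mem_mk.1 hcm
  have hcc : c % q = c := Nat.mod_eq_of_lt h1
  have hmiss : ∀ v ∈ A.erase c, v % q ≠ c := by
    intro v hv h
    exact Finset.ne_of_mem_erase hv (hA.2.2 v (Finset.mem_of_mem_erase hv) c h2 (by rw [h, hcc]))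
  have hm : c ∈ miss q (range q) (A.erase c) := Pos_mem_miss.2 ⟨h1, hmiss⟩
  have hc0 : c0 q (range q) (A.erase c) = c := by
    apply le_antisymm (c0_le hm)
    by_contra hlt
    obtain ⟨v, h4, h5⟩ := h3 (c0 q (range q) (A.erase c)) (by omega)
    obtain ⟨_, h6⟩ := Pos_mem_miss.1 (Pos_c0 hm)
    refine h6 v (Finset.mem_erase.2 ⟨?_, h4⟩) h5
    rintro rfl
    omega
  refine ⟨c, h2, ?_, ?_, ?_, hcm, hcmin⟩
  · simpa using Pos_erase_rb hA h2
  · rw [Pos_mu]
    intro c' hc'
    obtain ⟨g1, g2, g3⟩ := Pos_mem_mk.1 hc'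
    rcases lt_trichotomy c' c with h | h | h
    · have : c' ∈ mk q (range q) A := by
        refine Pos_mem_mk.2 ⟨g1, Finset.mem_of_mem_erase g2, fun c'' hc'' => ?_⟩
        obtain ⟨v, g4, g5⟩ := g3 c'' hc''
        exact ⟨v, Finset.mem_of_mem_erase g4, g5⟩
      have := hcmin c' this
      omega
    · exact Finset.ne_of_mem_erase g2 h
    · obtain ⟨v, g4, g5⟩ := g3 c h
      exact hmiss v g4 g5
  · unfold kap
    rw [hc0, Finset.insert_erase h2]

theorem kap_erase_gt {q s : ℕ} {A : Finset ℕ} (hA : Rb q (range q) s A) (hs : s < q) {z : ℕ}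
    (hz : z ∈ A) (h : c0 q (range q) A < z % q) :
    kap q (range q) (A.erase z) = insert (c0 q (range q) A) (A.erase z) := by
  obtain ⟨h1, h2⟩ := Pos_miss_of hA hs
  have hm : c0 q (range q) A ∈ miss q (range q) (A.erase z) :=
    Pos_mem_miss.2 ⟨h1, fun v hv => h2 v (Finset.mem_of_mem_erase hv)⟩
  have hc0 : c0 q (range q) (A.erase z) = c0 q (range q) A := by
    apply le_antisymm (c0_le hm)
    by_contra hlt
    obtain ⟨v, h4, h5⟩ := Pos_lt (q := q) (A := A) (c := c0 q (range q) (A.erase z)) (by omega) (by omega)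
    obtain ⟨_, h6⟩ := Pos_mem_miss.1 (Pos_c0 hm)
    refine h6 v (Finset.mem_erase.2 ⟨?_, h4⟩) h5
    rintro rfl
    omega
  unfold kap
  rw [hc0]

theorem insert_pos {q s : ℕ} {A : Finset ℕ} (hA : Rb q (range q) s A)
    (hp : mu q (range q) A = 0) (hs : s < q) {z : ℕ}
    (hz : z ∈ A) (h : z % q < c0 q (range q) A) :
    Rb q (range q) s (insert (c0 q (range q) A) (A.erase z)) ∧
    mu q (range q) (insert (c0 q (range q) A) (A.erase z)) = 0 ∧
    toColex (insert (c0 q (range q) A) (A.erase z)) < toColex A := by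
  obtain ⟨h1, h2⟩ := Pos_miss_of hA hs
  have hlt := c0_lt hA hp hs
  have hcA : c0 q (range q) A ∉ A := fun h' => lt_irrefl _ (hlt _ h')
  have hcA' : c0 q (range q) A ∉ A.erase z := fun h' => hcA (Finset.mem_of_mem_erase h')
  have hcc : c0 q (range q) A % q = c0 q (range q) A := Nat.mod_eq_of_lt h1
  have hpos : 0 < A.card := Finset.card_pos.2 ⟨z, hz⟩
  have hAc := hA.1
  refine ⟨⟨?_, ?_, ?_⟩, ?_, ?_⟩
  · rw [Finset.card_insert_of_notMem hcA', Finset.card_erase_of_mem hz]
    omega
  · intro v hv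
    rcases Finset.mem_insert.1 hv with rfl | hv
    · rw [hcc]
      exact Finset.mem_range.2 h1
    · exact hA.2.1 v (Finset.mem_of_mem_erase hv)
  · intro u hu v hv huv
    rcases Finset.mem_insert.1 hu with hu | hu
    · rcases Finset.mem_insert.1 hv with hv | hv
      · rw [hu, hv]
      · exfalso
        rw [hu, hcc] at huv
        exact h2 v (Finset.mem_of_mem_erase hv) huv.symm
    · rcases Finset.mem_insert.1 hv with hv | hv
      · exfalso
        rw [hv, hcc] at huv
        exact h2 u (Finset.mem_of_mem_erase hu) huv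
      · exact hA.2.2 u (Finset.mem_of_mem_erase hu) v (Finset.mem_of_mem_erase hv) huv
  · rw [Pos_mu]
    intro c' hc'
    obtain ⟨g1, g2, g3⟩ := Pos_mem_mk.1 hc'
    have hle : c' ≤ z % q := by
      by_contra hlt'
      obtain ⟨v, g4, g5⟩ := g3 (z % q) (by omega)
      rcases Finset.mem_insert.1 g4 with g4 | g4
      · rw [g4, hcc] at g5
        omega
      · exact Finset.ne_of_mem_erase g4 (hA.2.2 v (Finset.mem_of_mem_erase g4) z hz g5)
    rcases Finset.mem_insert.1 g2 with g2 | g2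
    · omega
    · have := hlt c' (Finset.mem_of_mem_erase g2)
      omega
  · have hcz := hlt z hz
    rw [Colex.toColex_lt_toColex_iff_exists_forall_lt]
    refine ⟨z, hz, ?_, ?_⟩
    · intro hz'
      rcases Finset.mem_insert.1 hz' with h' | h'
      · omega
      · simp at h'
    · intro b hb hbA
      rcases Finset.mem_insert.1 hb with h' | h'
      · rw [h']
        exact hcz
      · exact absurd (Finset.mem_of_mem_erase h') hbA

end FlagB
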