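import Pool.Agent.Lib.MP_4a7d3d_co.FB.FBasic

/-!
# FB-SOne (0.2 h): the case `s = 1` of the main claim.
`cost ε q 1 a₀ l = a₀` because `F ε 0 = 0`. If `a₀ = 0`, then `l.sum = 0` and `b = 0`. If `a₀ >= 1`, then `F ε 1 q _ <= 1`.
-/

set_option autoImplicit false

namespace FlagB

open Finset Polynomial

theorem SClaim_one (ε q : ℕ) : SClaim ε q 1 := by
  intro a₀ b l hadm hl
  have hcost : cost ε q 1 a₀ l = a₀ := by
    unfold cost
    have h1 : ∀ x, F ε (1 - 1) (q - 1) x = 0 := fun x => rfl
    have h2 : (l.map (F ε (1 - 1) (q - 1))).sum = 0 := by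
      apply Multiset.sum_eq_zero
      intro y hy
      obtain ⟨x, _, rfl⟩ := Multiset.mem_map.mp hy
      exact h1 x
    rw [h1, h2]
    simp
  rw [hcost, F_first]
  by_cases ha : a₀ = 0
  · subst ha
    have hb : b = 0 := by
      rcases hadm with h | ⟨_, h⟩
      · exact h
      · rw [F_first] at h
        by_contra hb
        rw [if_neg hb] at h
        omega
    have hs : l.sum = 0 := by
      apply Multiset.sum_eq_zero
      intro y hy
      have := hl y hy
      omega
    rw [hb, hs]
    simp
  · split_ifs
    · omega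
    · omega

end FlagB
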