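import Pool.Agent.Lib.MP_4a7d3d_co.FB.BaseSl
import Pool.Agent.Lib.MP_4a7d3d_co.FB.LastUsed

/-!
# FB-Slices (0.8 h): the numerical functions of the slices. Assembly.
Take `Q = q-1 >= 1`, `C = range Q`, smallest colour `0`; `𝒜 a` = initial family of `(s-1)`-sets with `a` members (`ini_exists`),
increasing in `a` (`Ini.subset_of_card_le`); `ν i a = (lk (i*Q) (𝒜 a)).card`, `νe a = (avc Q 0 (𝒜 a)).card`,
`β i a = (lk (i*Q) (BaseOf ..)).card`, `βe a = (avc Q 0 (BaseOf ..)).card`, `P a = (BaseOf ..).card`. Vertices are `< p*Q` if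
`a <= t (q-1) (s-1) ((q-1)*p)` (`ini_lt_of_card_le`; the base sets are unions of facets). The formula for `F`: `sum_w` for `𝒜 a`,
`sum_split`, `mu_none`, `mu_first`, `mu_later`, and `∑ w ε (1 + mu) = ∑ (1 + ε * w ε mu)`, `sum_w` for the links.
-/

set_option autoImplicit false

namespace FlagB

open Finset Polynomial

theorem slices (q s : ℕ) (hs : 2 ≤ s) (hsq : s ≤ q) :
    ∃ (ν : ℕ → ℕ → ℕ) (νe : ℕ → ℕ) (β : ℕ → ℕ → ℕ) (βe P : ℕ → ℕ),
      (∀ i a, ν (i + 1) a ≤ ν i a) ∧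
      (∀ i a a', a ≤ a' → ν i a ≤ ν i a') ∧
      (∀ a a', a ≤ a' → νe a ≤ νe a') ∧
      (∀ p a, a ≤ t (q - 1) (s - 1) ((q - 1) * p) → a = νe a + ∑ i ∈ range p, ν i a) ∧
      (∀ ε p a, 1 ≤ p → a ≤ t (q - 1) (s - 1) ((q - 1) * p) →
        F ε (s - 1) (q - 1) a = ν 0 a + ε * F ε (s - 2) (q - 2) (ν 0 a) +
          ∑ i ∈ range (p - 1), F ε (s - 2) (q - 2) (ν (i + 1) a)) ∧
      (∀ a, Adm (q - 2) (s - 1) (νe a) (ν 0 a)) ∧
      (∀ p a, a ≤ t (q - 1) (s - 1) ((q - 1) * p) →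
        νe a ≤ t (q - 2) (s - 1) ((q - 2) * p) ∧ ν 0 a ≤ t (q - 2) (s - 2) ((q - 2) * p)) ∧
      (∀ p a, t (q - 1) (s - 1) ((q - 1) * p) < a → 1 ≤ ν p a) ∧
      (∀ a b, Adm (q - 1) s b a ↔ b ≤ P a) ∧
      (∀ p a, a ≤ t (q - 1) (s - 1) ((q - 1) * p) → P a = βe a + ∑ i ∈ range p, β i a) ∧
      (∀ i a, β (i + 1) a ≤ β i a) ∧
      (∀ i a, Adm (q - 2) (s - 1) (β i a) (ν i a)) ∧
      (∀ a, β 0 a = νe a) ∧
      (∀ a, Adm (q - 2) s (βe a) (νe a)) := by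
  classical
  obtain ⟨s, rfl⟩ : ∃ s', s = s' + 2 := ⟨s - 2, by omega⟩
  obtain ⟨q, rfl⟩ : ∃ q', q = q' + 2 := ⟨q - 2, by omega⟩
  simp only [show s + 2 - 1 = s + 1 from rfl, show q + 2 - 1 = q + 1 from rfl,
    show s + 2 - 2 = s from rfl, show q + 2 - 2 = q from rfl]
  have hsq' : s ≤ q := by omega
  obtain ⟨Q, hQ⟩ : ∃ Q, Q = q + 1 := ⟨_, rfl⟩
  obtain ⟨C, hC⟩ : ∃ C, C = range Q := ⟨_, rfl⟩
  have hCs : C ⊆ range Q := hC.le
  have hCc : C.card = q + 1 := by rw [hC, card_range, hQ]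
  have h0C : 0 ∈ C := by rw [hC, hQ]; simp
  have hmin : ∀ c' ∈ C, 0 ≤ c' := fun _ _ => Nat.zero_le _
  have hE : (C.erase 0).card = q := by rw [card_erase_of_mem h0C, hCc, Nat.add_sub_cancel]
  have hCE : C.erase 0 ⊆ range Q := (erase_subset _ _).trans hCs
  have hQ0 : 0 < Q := by omega
  have hmodQ : ∀ i, i * Q % Q = 0 := fun i => Nat.mul_mod_left i Q
  have hex := fun a => ini_exists Q C hCs (s + 1) (by omega) (by omega) a
  choose 𝒜 hI hcard using hex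
  have hmono : ∀ a a', a ≤ a' → 𝒜 a ⊆ 𝒜 a' := fun a a' h =>
    (hI a).subset_of_card_le (hI a') (by rw [hcard, hcard]; exact h)
  have hlkmono : ∀ (y : ℕ) (𝒳 𝒴 : Finset (Finset ℕ)), 𝒳 ⊆ 𝒴 → (lk y 𝒳).card ≤ (lk y 𝒴).card :=
    fun y 𝒳 𝒴 h => card_le_card (image_subset_image (filter_subset_filter _ h))
  have hlt : ∀ p a, a ≤ t (q + 1) (s + 1) ((q + 1) * p) → ∀ A ∈ 𝒜 a, ∀ v ∈ A, v < p * Q := by
    intro p a h
    exact ini_lt_of_card_le hCs (hI a) p (by rw [hcard, hCc]; exact h)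
  have hltB : ∀ p a, a ≤ t (q + 1) (s + 1) ((q + 1) * p) →
      ∀ A ∈ BaseOf Q C (s + 1 + 1) (𝒜 a), ∀ v ∈ A, v < p * Q := by
    intro p a h A hA v hv
    obtain ⟨h1, h2⟩ := (mem_baseOf (by omega : 1 ≤ s + 1)).1 hA
    have h3 : 1 < A.card := by rw [h1.1]; omega
    obtain ⟨z, hz, hzv⟩ := exists_mem_ne h3 v
    exact hlt p a h _ (h2 z hz) v (mem_erase.2 ⟨hzv.symm, hv⟩)
  have hIlk : ∀ i a, Ini Q (C.erase 0) s (lk (i * Q) (𝒜 a)) := by
    intro i a
    have h := ini_lk (hI a) (i * Q) (by rw [hmodQ]; exact h0C)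
    rwa [hmodQ] at h
  refine ⟨fun i a => (lk (i * Q) (𝒜 a)).card, fun a => (avc Q 0 (𝒜 a)).card,
    fun i a => (lk (i * Q) (BaseOf Q C (s + 1 + 1) (𝒜 a))).card,
    fun a => (avc Q 0 (BaseOf Q C (s + 1 + 1) (𝒜 a))).card,
    fun a => (BaseOf Q C (s + 1 + 1) (𝒜 a)).card, ?_, ?_, ?_, ?_, ?_, ?_, ?_, ?_, ?_, ?_, ?_, ?_,
    ?_, ?_⟩
  · intro i a
    have h := lk_anti (hI a) (i * Q)
    simp only [add_mul, one_mul]
    exact h
  · intro i a a' h
    exact hlkmono _ _ _ (hmono a a' h)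
  · intro a a' h
    exact card_le_card (filter_subset_filter _ (hmono a a' h))
  · intro p a h
    have h1 := card_split (fun A hA => (hI a).1 A hA) 0 hQ0 p (hlt p a h)
    simp only [add_zero] at h1
    rw [hcard] at h1
    exact h1
  · intro ε p a hp h
    obtain ⟨p, rfl⟩ : ∃ p', p = p' + 1 := ⟨p - 1, by omega⟩
    have h1 := sum_w ε hCs (s := s + 1) (by omega) (hI a)
    rw [hcard, hCc] at h1
    have h2 := sum_split (fun A hA => (hI a).1 A hA) 0 hQ0 (p + 1) (hlt (p + 1) a h)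
      (fun A => w ε (mu Q C A))
    simp only [add_zero] at h2
    rw [← h1, h2, sum_range_succ', Nat.add_sub_cancel]
    have e1 : ∑ A ∈ avc Q 0 (𝒜 a), w ε (mu Q C A) = 0 := by
      refine sum_eq_zero fun A hA => ?_
      rw [mu_none hCs h0C hmin (mem_filter.1 hA).2]
      rfl
    have e2 : ∑ G ∈ lk (0 * Q) (𝒜 a), w ε (mu Q C (insert (0 * Q) G)) =
        (lk (0 * Q) (𝒜 a)).card + ε * F ε s q (lk (0 * Q) (𝒜 a)).card := by
      have e3 : ∀ G ∈ lk (0 * Q) (𝒜 a), w ε (mu Q C (insert (0 * Q) G)) =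
          1 + ε * w ε (mu Q (C.erase 0) G) := by
        intro G hG
        rw [Nat.zero_mul, mu_first hCs h0C hmin ((hIlk 0 a).1 G hG), add_comm 1 (mu Q _ G)]
        rfl
      have e4 := sum_w ε hCE (s := s) (by omega) (hIlk 0 a)
      rw [hE] at e4
      rw [sum_congr rfl e3, sum_add_distrib, sum_const, smul_eq_mul, mul_one, ← mul_sum, e4]
    have e5 : ∀ i ∈ range p, ∑ G ∈ lk ((i + 1) * Q) (𝒜 a), w ε (mu Q C (insert ((i + 1) * Q) G)) =
        F ε s q (lk ((i + 1) * Q) (𝒜 a)).card := by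
      intro i _
      have e4 := sum_w ε hCE (s := s) (by omega) (hIlk (i + 1) a)
      rw [hE] at e4
      rw [← e4]
      refine sum_congr rfl fun G hG => ?_
      have e6 := mu_later hCs (y := (i + 1) * Q) (by rw [hmodQ]; exact h0C)
        (by rw [add_mul, one_mul]; exact Nat.le_add_left _ _) (s := s) (G := G)
        (by rw [hmodQ]; exact (hIlk (i + 1) a).1 G hG)
      rw [hmodQ] at e6
      rw [e6]
    rw [e1, zero_add, e2, sum_congr rfl e5, add_comm]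
  · intro a
    have h := adm_avc_lk hCs (by omega : 1 ≤ s + 1) (hI a) h0C hmin
    simp only [Nat.zero_mul]
    rwa [hCc, Nat.add_sub_cancel] at h
  · intro p a h
    refine ⟨?_, ?_⟩
    · have h1 := ini_card_le_of_lt hCE (s := s + 1) (𝒜 := avc Q 0 (𝒜 a))
        (ini_avc (hI a) 0).1 p (fun A hA v hv => hlt p a h A (mem_filter.1 hA).1 v hv)
      rwa [hE] at h1
    · have h1 := ini_card_le_of_lt hCE (s := s) (𝒜 := lk (0 * Q) (𝒜 a)) (hIlk 0 a).1 p
        (fun A hA v hv => hlt p a h _ (mem_lk.1 hA).2 v (mem_insert_of_mem hv))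
      rwa [hE] at h1
  · intro p a h
    have h1 := ini_exists_ge hCs (hI a) p (by rw [hcard, hCc]; exact h)
    have h2 := last_used hCs (hI a) h0C hmin p h1
    rw [add_zero] at h2
    exact card_pos.2 h2
  · intro a b
    have h := adm_iff_baseOf hCs (by omega : 1 ≤ s + 1) (hI a) b
    rwa [hCc, hcard] at h
  · intro p a h
    have h1 := card_split (fun A hA => ((mem_baseOf (by omega : 1 ≤ s + 1)).1 hA).1) 0 hQ0 p
      (hltB p a h)
    simp only [add_zero] at h1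
    exact h1
  · intro i a
    have h := lk_anti (ini_baseOf (by omega : 1 ≤ s + 1) (hI a)) (i * Q)
    simp only [add_mul, one_mul]
    exact h
  · intro i a
    have h := adm_lk_base hCs (by omega : 1 ≤ s + 1) (hI a) (i * Q) (by rw [hmodQ]; exact h0C)
    rwa [hCc, Nat.add_sub_cancel] at h
  · intro a
    have h := card_lk_base_first hCs (by omega : 1 ≤ s + 1) (hI a) h0C hmin
    simp only [Nat.zero_mul]
    exact h
  · intro a
    have h := adm_avc_base hCs (by omega : 1 ≤ s + 1) (hI a) h0C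
    rwa [hCc, Nat.add_sub_cancel] at h

end FlagB
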