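import Pool.Agent.Lib.MP_4a7d3d_co.FB.Defs

/-!
# FB-TBasic (0.5 h): basic values of `t`.
Proof. `t q s n` is the coefficient of `X^s` in `(1+(j+1)X)^r (1+jX)^(q-r)` where `n = q j + r`,
`j = n / q`, `r = n % q` (for `q >= 1`). `t_zero`: the constant coefficient is 1. `t_one`: the coefficient of
`X` is `r (j+1) + (q-r) j = n`. `t_qlt`: the degree is at most `q`. `t_lt`: if `n < s`, then either `q <= n < s`
(degree at most `q`), or `n < q`, so `j = 0`, `r = n` and the polynomial is `(1+X)^n` of degree `n < s`.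
`t_self`: if `s < q`, then `j = 0`, `r = s`, coefficient of `X^s` in `(1+X)^s` is 1; if `s = q >= 1` then
`j = 1`, `r = 0` and the polynomial is `(1+X)^q`; if `q = 0`, `s = 0`.
-/

set_option autoImplicit false

namespace FlagB

open Finset Polynomial

private theorem tb_pos {q : ℕ} (hq : 0 < q) (s n : ℕ) : t q s n =
    (((1 + Polynomial.C (n / q + 1) * X) ^ (n % q) *
    (1 + Polynomial.C (n / q) * X) ^ (q - n % q) : ℕ[X])).coeff s := by
  unfold t
  rw [if_neg hq.ne']

private theorem tb_deg1 (a : ℕ) : (1 + Polynomial.C a * X : ℕ[X]).natDegree ≤ 1 := by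
  refine (natDegree_add_le _ _).trans (max_le (by simp) ?_)
  exact (natDegree_C_mul_le _ _).trans natDegree_X_le

private theorem tb_degp (a k : ℕ) : ((1 + Polynomial.C a * X) ^ k : ℕ[X]).natDegree ≤ k := by
  refine natDegree_pow_le.trans ?_
  have := Nat.mul_le_mul_left k (tb_deg1 a)
  simpa using this

theorem t_zero (q n : ℕ) : t q 0 n = 1 := by
  rcases Nat.eq_zero_or_pos q with rfl | hq
  · simp [t]
  · rw [tb_pos hq, coeff_zero_eq_eval_zero]
    simp

theorem t_one (q n : ℕ) (hq : 1 ≤ q) : t q 1 n = n := by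
  have h1 : ∀ p : ℕ[X], p.coeff 1 = (derivative p).eval 0 := by
    intro p
    rw [← coeff_zero_eq_eval_zero, coeff_derivative]
    simp
  rw [tb_pos hq, h1]
  simp only [derivative_mul, derivative_pow, derivative_add, derivative_one, derivative_X,
    derivative_C, eval_add, eval_mul, eval_pow, eval_one, eval_C, eval_X, mul_zero, add_zero,
    one_pow, mul_one, zero_add, zero_mul, one_mul, eval_natCast, eval_zero]
  have h2 : n % q < q := Nat.mod_lt _ hq
  have h3 := Nat.div_add_mod n q
  obtain ⟨k, hk⟩ := Nat.exists_eq_add_of_le h2.le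
  rw [show q - n % q = k by omega]
  generalize n / q = j at *
  generalize n % q = r at *
  simp only [Nat.cast_id]
  subst hk
  rw [← h3]
  ring

theorem t_qlt (q s n : ℕ) (h : q < s) : t q s n = 0 := by
  rcases Nat.eq_zero_or_pos q with rfl | hq
  · have : s ≠ 0 := by omega
    simp [t, this]
  · rw [tb_pos hq]
    apply coeff_eq_zero_of_natDegree_lt
    have h1 := natDegree_mul_le (p := ((1 + Polynomial.C (n / q + 1) * X) ^ (n % q) : ℕ[X]))
      (q := ((1 + Polynomial.C (n / q) * X) ^ (q - n % q) : ℕ[X]))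
    have h2 := tb_degp (n / q + 1) (n % q)
    have h3 := tb_degp (n / q) (q - n % q)
    have h4 : n % q < q := Nat.mod_lt _ hq
    omega

/-- `t` for `n < q` -/
private theorem tb_small {q n : ℕ} (h : n < q) (s : ℕ) : t q s n = n.choose s := by
  rw [tb_pos (by omega), Nat.div_eq_of_lt h, Nat.mod_eq_of_lt h]
  simp only [zero_add, map_one, one_mul, map_zero, zero_mul, add_zero, one_pow, mul_one]
  rw [coeff_one_add_X_pow]
  simp

theorem t_lt (q s n : ℕ) (h : n < s) : t q s n = 0 := by
  rcases Nat.lt_or_ge q s with hqs | hqs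
  · exact t_qlt q s n hqs
  · rw [tb_small (by omega)]
    exact Nat.choose_eq_zero_of_lt h

theorem t_self (q s : ℕ) (h : s ≤ q) : t q s s = 1 := by
  rcases h.lt_or_eq with h1 | rfl
  · rw [tb_small h1]
    exact Nat.choose_self s
  · rcases Nat.eq_zero_or_pos s with rfl | hs
    · simp [t]
    · rw [tb_pos hs, Nat.div_self hs, Nat.mod_self]
      simp only [pow_zero, one_mul, map_one, Nat.sub_zero]
      rw [coeff_one_add_X_pow]
      simp

end FlagB
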